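import Pool.Agent.Y118.UL.Ger
import Pool.Agent.Y118.HX.Ult
import Pool.Agent.Y123.GN.A5

/-!
# The ultrapower of the complex numbers
-/

set_option autoImplicit false
set_option linter.unusedSectionVars false
set_option linter.unusedVariables false

open Matrix Module Filter Polynomial

namespace Pool.Agent.Helper880_LF

open Pool.Agent.Y118.UL (mk mk_eq mk_eq_zero mk_ne_zero mk_surj ev_ge eval_mk rep qc qc_mk algebraMap_eq U)
open Pool.Agent.Y118.HX (cst)

/-- evaluation of polynomials in the ultrapower -/
theorem eval_mk1 {k : Type} [Field k] (Q : Polynomial (ℕ → k)) (x : ℕ → k) :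
    (Q.map (mk k)).eval (mk k x) = mk k (fun i => (Q.map (Pi.evalRingHom (fun _ => k) i)).eval (x i)) := by
  rw [Polynomial.eval_map, Polynomial.eval₂_hom]
  congr 1
  funext i
  rw [Polynomial.eval_map]
  have h := Polynomial.eval₂_hom (p := Q) (Pi.evalRingHom (fun _ => k) i) x
  exact h.symm

/-- a sequence of monic polynomials of the same degree -/
noncomputable def mq {k : Type} [Field k] (d : ℕ) (a : ℕ → ℕ → k) : Polynomial (ℕ → k) :=
  X ^ d + ∑ i ∈ Finset.range d, Polynomial.monomial i (fun j => a j i)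

theorem mq_map {k : Type} [Field k] (d : ℕ) (a : ℕ → ℕ → k) (j : ℕ) :
    (mq d a).map (Pi.evalRingHom (fun _ => k) j) = X ^ d + ∑ i ∈ Finset.range d, Polynomial.monomial i (a j i) := by
  unfold mq
  rw [Polynomial.map_add, Polynomial.map_pow, Polynomial.map_X, Polynomial.map_sum]
  simp only [Polynomial.map_monomial]
  rfl

theorem monic_form {k : Type} [CommRing k] {p : Polynomial k} (hp : p.Monic) {d : ℕ} (hd : p.natDegree = d) :
    p = X ^ d + ∑ i ∈ Finset.range d, Polynomial.monomial i (p.coeff i) := by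
  conv_lhs => rw [p.as_sum_range, hd, Finset.sum_range_succ]
  rw [add_comm]
  congr 1
  have h1 : p.coeff d = 1 := by rw [← hd]; exact hp
  rw [h1, Polynomial.monomial_one_right_eq_X_pow]

instance : IsAlgClosed (U ℂ) := by
  refine IsAlgClosed.of_exists_root _ fun p hp hirr => ?_
  choose a ha using fun i => mk_surj (p.coeff i)
  set d := p.natDegree with hd
  have hd0 : 0 < d := hirr.natDegree_pos
  set Q : Polynomial (ℕ → ℂ) := mq d (fun j i => a i j) with hQ
  have h1 : Q.map (mk ℂ) = p := by
    rw [monic_form hp hd.symm, hQ]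
    unfold mq
    rw [Polynomial.map_add, Polynomial.map_pow, Polynomial.map_X, Polynomial.map_sum]
    congr 1
    refine Finset.sum_congr rfl fun i _ => ?_
    rw [Polynomial.map_monomial]
    congr 1
    exact ha i
  have h2 : ∀ j, ∃ x : ℂ, (Q.map (Pi.evalRingHom (fun _ => ℂ) j)).eval x = 0 := by
    intro j
    have h3 : (Q.map (Pi.evalRingHom (fun _ => ℂ) j)).degree ≠ 0 := by
      rw [hQ, mq_map]
      have h4 : (X ^ d + ∑ i ∈ Finset.range d, Polynomial.monomial i ((fun j i => a i j) j i) : Polynomial ℂ).degree = d := by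
        have h5 : (∑ i ∈ Finset.range d, Polynomial.monomial i ((fun j i => a i j) j i) : Polynomial ℂ).degree < d := by
          rw [Polynomial.degree_lt_iff_coeff_zero]
          intro m hm
          rw [Polynomial.finsetSum_coeff]
          refine Finset.sum_eq_zero fun i hi => ?_
          rw [Polynomial.coeff_monomial, if_neg]
          have := Finset.mem_range.1 hi
          omega
        rw [Polynomial.degree_add_eq_left_of_degree_lt (by rw [Polynomial.degree_X_pow]; exact h5),
          Polynomial.degree_X_pow]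
      rw [h4]
      exact_mod_cast hd0.ne'
    exact IsAlgClosed.exists_root _ h3
  choose x hx using h2
  refine ⟨mk ℂ x, ?_⟩
  rw [← h1, eval_mk1]
  have h3 : (fun i => (Q.map (Pi.evalRingHom (fun _ => ℂ) i)).eval (x i)) = 0 := funext hx
  rw [h3, map_zero]

/-- derivations vanish on algebraic elements -/
theorem der_alg {k Ω : Type} [Field k] [Field Ω] [Algebra k Ω] [CharZero k] (δ : Derivation k Ω Ω) {x : Ω}
    (hx : IsAlgebraic k x) : δ x = 0 := by
  have hint : IsIntegral k x := hx.isIntegral
  have h1 := Derivation.map_aeval δ (minpoly k x) x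
  rw [minpoly.aeval, map_zero, smul_eq_mul] at h1
  have h2 : Polynomial.aeval x (Polynomial.derivative (minpoly k x)) ≠ 0 :=
    ((minpoly.irreducible hint).separable).aeval_derivative_ne_zero (minpoly.aeval k x)
  exact (mul_eq_zero.1 h1.symm).resolve_left h2

/-- sequences of elements of number fields of bounded degree are algebraic -/
theorem alg_mk {K : ℕ → Subfield ℂ} {D : ℕ} (hK : ∀ k, FiniteDimensional ℚ (K k)) (hD : ∀ k, finrank ℚ (K k) ≤ D)
    {x : ℕ → ℂ} (hx : ∀ k, x k ∈ K k) : IsAlgebraic (U ℚ) (mk ℂ x) := by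
  -- monic polynomials of degree `D`
  have h1 : ∀ k, ∃ p : Polynomial ℚ, p.Monic ∧ p.natDegree = D ∧ Polynomial.aeval (x k) p = 0 := by
    intro k
    have := hK k
    have hint : IsIntegral ℚ (⟨x k, hx k⟩ : K k) := Algebra.IsIntegral.isIntegral _
    have hle : (minpoly ℚ (⟨x k, hx k⟩ : K k)).natDegree ≤ D := (minpoly.natDegree_le _).trans (hD k)
    refine ⟨minpoly ℚ (⟨x k, hx k⟩ : K k) * X ^ (D - (minpoly ℚ (⟨x k, hx k⟩ : K k)).natDegree),
      (minpoly.monic hint).mul (Polynomial.monic_X_pow _), ?_, ?_⟩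
    · rw [Polynomial.Monic.natDegree_mul (minpoly.monic hint) (Polynomial.monic_X_pow _), Polynomial.natDegree_X_pow]
      omega
    · rw [map_mul]
      have h2 : Polynomial.aeval (x k) (minpoly ℚ (⟨x k, hx k⟩ : K k)) = 0 := by
        have h3 := minpoly.aeval ℚ (⟨x k, hx k⟩ : K k)
        have h4 := congrArg (algebraMap (K k) ℂ) h3
        rw [map_zero, ← Polynomial.aeval_algebraMap_apply] at h4
        exact h4
      rw [h2, zero_mul]
  choose p hp1 hp2 hp3 using h1
  set Q : Polynomial (ℕ → ℚ) := mq D (fun j i => (p j).coeff i) with hQ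
  have hQj : ∀ j, Q.map (Pi.evalRingHom (fun _ => ℚ) j) = p j := by
    intro j
    rw [hQ, mq_map]
    exact (monic_form (hp1 j) (hp2 j)).symm
  refine ⟨Q.map (mk ℚ), ?_, ?_⟩
  · intro h0
    have h1 : (Q.map (mk ℚ)).coeff D = 1 := by
      rw [hQ]
      unfold mq
      rw [Polynomial.map_add, Polynomial.map_pow, Polynomial.map_X, Polynomial.map_sum, Polynomial.coeff_add,
        Polynomial.coeff_X_pow_self, Polynomial.finsetSum_coeff, Finset.sum_eq_zero, add_zero]
      intro i hi
      rw [Polynomial.map_monomial, Polynomial.coeff_monomial, if_neg]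
      have := Finset.mem_range.1 hi
      omega
    rw [h0, Polynomial.coeff_zero] at h1
    exact zero_ne_one h1
  · rw [Polynomial.aeval_def, Polynomial.eval₂_map]
    have h2 : (algebraMap (U ℚ) (U ℂ)).comp (mk ℚ) = (mk ℂ).comp cst := by
      apply RingHom.ext
      intro f
      rfl
    rw [h2, ← Polynomial.eval₂_map, ← Polynomial.eval_map, eval_mk1]
    have h3 : (fun i => ((Q.map cst).map (Pi.evalRingHom (fun _ => ℂ) i)).eval (x i)) = 0 := by
      funext i
      have h4 := hp3 i
      rw [← hQj i, Polynomial.aeval_def, Polynomial.eval₂_map] at h4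
      rw [Polynomial.map_map, Polynomial.eval_map]
      exact h4
    rw [h3, map_zero]

end Pool.Agent.Helper880_LF
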