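import Pool.Agent.Y118.HP.Fin

/-!
# The periods of the curve `y² = T_{n + 1}(x)`
-/

set_option autoImplicit false
set_option linter.unusedSectionVars false
set_option linter.unusedVariables false

open Matrix Module Filter Polynomial Topology MeasureTheory

namespace Pool.Agent.Helper880_LF.NB

open Pool.Agent.Y118.HP

/-- the weight -/
noncomputable def wt (M : ℕ) (x : ℝ) : ℝ := (√|Real.cos (M * x)|)⁻¹

theorem wt_neg (M : ℕ) (x : ℝ) : wt M (-x) = wt M x := by
  unfold wt
  rw [mul_neg, Real.cos_neg]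

theorem wt_shift {M : ℕ} (hM : 0 < M) (k : ℕ) (x : ℝ) : wt M (x + k * Real.pi / M) = wt M x := by
  unfold wt
  have hM' : (M : ℝ) ≠ 0 := by exact_mod_cast hM.ne'
  have h1 : (M : ℝ) * (x + k * Real.pi / M) = M * x + k * Real.pi := by field_simp
  rw [h1, Real.cos_add_nat_mul_pi, abs_mul, abs_pow, abs_neg, abs_one, one_pow, one_mul]

/-- the half length of the intervals -/
noncomputable def hl (M : ℕ) : ℝ := Real.pi / (2 * M)

theorem hl_pos {M : ℕ} (hM : 0 < M) : 0 < hl M := by
  unfold hl
  have : (0 : ℝ) < M := by exact_mod_cast hM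
  positivity

theorem wt_meas (M : ℕ) : Measurable (wt M) := by
  unfold wt
  fun_prop

theorem wt_int0 {M : ℕ} (hM : 0 < M) : IntervalIntegrable (wt M) volume 0 (hl M) := by
  have hM' : (0 : ℝ) < M := by exact_mod_cast hM
  have hc := hl_pos hM
  have h1 : IntervalIntegrable (fun x : ℝ => x ^ (-(1 / 2) : ℝ)) volume (hl M) 0 :=
    intervalIntegral.intervalIntegrable_rpow' (by norm_num)
  have h2 : IntervalIntegrable (fun x : ℝ => (hl M - x) ^ (-(1 / 2) : ℝ)) volume 0 (hl M) := by
    have := h1.comp_sub_left (hl M)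
    simpa using this
  have h3 : IntervalIntegrable (fun x : ℝ => √(hl M) * (hl M - x) ^ (-(1 / 2) : ℝ)) volume 0 (hl M) := h2.const_mul _
  refine h3.mono_fun' (wt_meas M).aestronglyMeasurable ?_
  rw [Filter.EventuallyLE, ae_restrict_iff' measurableSet_uIoc]
  refine Filter.Eventually.of_forall fun x hx => ?_
  rw [Set.uIoc_of_le hc.le] at hx
  have hx0 : 0 ≤ (M : ℝ) * x := by have := hx.1; positivity
  have hx1 : (M : ℝ) * x ≤ Real.pi / 2 := by
    have h4 : (M : ℝ) * x ≤ M * hl M := mul_le_mul_of_nonneg_left hx.2 hM'.le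
    have h5 : (M : ℝ) * hl M = Real.pi / 2 := by
      unfold hl
      field_simp
    linarith
  have h6 := Real.one_sub_mul_le_cos hx0 hx1
  have h7 : 1 - 2 / Real.pi * ((M : ℝ) * x) = (hl M - x) / hl M := by
    unfold hl
    have := Real.pi_ne_zero
    field_simp
  rw [h7] at h6
  rw [Real.norm_eq_abs]
  have hw0 : 0 ≤ wt M x := by
    unfold wt
    positivity
  rw [abs_of_nonneg hw0]
  rcases eq_or_lt_of_le hx.2 with h8 | h8
  · have h9 : Real.cos (M * x) = 0 := by
      rw [h8]
      have h5 : (M : ℝ) * hl M = Real.pi / 2 := by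
        unfold hl
        field_simp
      rw [h5, Real.cos_pi_div_two]
    have h10 : wt M x = 0 := by
      unfold wt
      rw [h9]
      simp
    rw [h10]
    have : (0 : ℝ) ≤ (hl M - x) ^ (-(1 / 2) : ℝ) := Real.rpow_nonneg (by linarith) _
    positivity
  · have h9 : 0 < (hl M - x) / hl M := div_pos (by linarith) hc
    have h10 : √((hl M - x) / hl M) ≤ √|Real.cos (M * x)| :=
      Real.sqrt_le_sqrt (h6.trans (le_abs_self _))
    unfold wt
    calc (√|Real.cos (M * x)|)⁻¹ ≤ (√((hl M - x) / hl M))⁻¹ := inv_anti₀ (Real.sqrt_pos.2 h9) h10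
      _ = √(hl M) * (hl M - x) ^ (-(1 / 2) : ℝ) := by
        rw [Real.sqrt_div (by linarith), inv_div, Real.rpow_neg (by linarith), ← Real.sqrt_eq_rpow]
        rfl

theorem wt_int {M : ℕ} (hM : 0 < M) : IntervalIntegrable (wt M) volume (-hl M) (hl M) := by
  have h0 := wt_int0 hM
  have h1 : IntervalIntegrable (wt M) volume (-hl M) 0 := by
    have h2 := h0.comp_sub_left 0
    simp only [zero_sub, sub_zero] at h2
    have h3 : (fun x => wt M (-x)) = wt M := funext (wt_neg M)
    rw [h3] at h2
    simpa using h2.symm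
  exact h1.trans h0

theorem cont_wt_int {M : ℕ} (hM : 0 < M) {g : ℝ → ℝ} (hg : Continuous g) :
    IntervalIntegrable (fun x => g x * wt M x) volume (-hl M) (hl M) :=
  (wt_int hM).continuousOn_mul hg.continuousOn

/-- the basic integrals -/
noncomputable def Aj (M j : ℕ) : ℝ := ∫ x in (-hl M)..(hl M), Real.cos ((j + 1) * x) * wt M x

theorem sin_zero {M : ℕ} (hM : 0 < M) (j : ℕ) : ∫ x in (-hl M)..(hl M), Real.sin ((j + 1) * x) * wt M x = 0 := by
  have h1 := intervalIntegral.integral_comp_neg (a := -hl M) (b := hl M) (fun x => Real.sin ((j + 1) * x) * wt M x)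
  rw [neg_neg] at h1
  have h2 : (fun x => Real.sin (((j : ℝ) + 1) * -x) * wt M (-x)) = fun x => -(Real.sin ((j + 1) * x) * wt M x) := by
    funext x
    rw [wt_neg, mul_neg, Real.sin_neg]
    ring
  rw [h2, intervalIntegral.integral_neg] at h1
  linarith

/-- the integrals over the gaps -/
theorem gap_int {M : ℕ} (hM : 0 < M) (k j : ℕ) :
    ∫ x in (k * Real.pi / M - hl M)..(k * Real.pi / M + hl M), Real.sin ((j + 1) * x) * wt M x =
      Real.sin ((j + 1) * (k * Real.pi / M)) * Aj M j := by
  have h1 := intervalIntegral.integral_comp_add_right (a := -hl M) (b := hl M)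
    (fun x => Real.sin ((j + 1) * x) * wt M x) (k * Real.pi / M)
  have h2 : -hl M + k * Real.pi / M = k * Real.pi / M - hl M := by ring
  have h3 : hl M + k * Real.pi / M = k * Real.pi / M + hl M := by ring
  rw [h2, h3] at h1
  rw [← h1]
  have h4 : (fun x => Real.sin (((j : ℝ) + 1) * (x + k * Real.pi / M)) * wt M (x + k * Real.pi / M)) =
      fun x => Real.cos ((j + 1) * (k * Real.pi / M)) * (Real.sin ((j + 1) * x) * wt M x) +
        Real.sin ((j + 1) * (k * Real.pi / M)) * (Real.cos ((j + 1) * x) * wt M x) := by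
    funext x
    rw [wt_shift hM, mul_add, Real.sin_add]
    ring
  rw [h4, intervalIntegral.integral_add, intervalIntegral.integral_const_mul, intervalIntegral.integral_const_mul,
    sin_zero hM, mul_zero, zero_add]
  · rfl
  · exact (cont_wt_int hM (by fun_prop)).const_mul _
  · exact (cont_wt_int hM (by fun_prop)).const_mul _

/-- powers of the cosine times the sine -/
theorem trig (i : ℕ) : ∃ R : ℕ → ℚ, (∀ j, i < j → R j = 0) ∧
    ∀ x : ℝ, (-Real.cos x) ^ i * Real.sin x = ∑ j ∈ Finset.range (i + 1), (R j : ℝ) * Real.sin ((j + 1) * x) := by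
  induction i with
  | zero =>
    refine ⟨fun j => if j = 0 then 1 else 0, fun j hj => if_neg (by omega), fun x => ?_⟩
    simp
  | succ i ih =>
    obtain ⟨R, hR, h⟩ := ih
    refine ⟨fun j => -(1 / 2) * ((if j = 0 then 0 else R (j - 1)) + R (j + 1)), fun j hj => ?_, fun x => ?_⟩
    · simp only
      rw [if_neg (by omega), hR (j - 1) (by omega), hR (j + 1) (by omega)]
      simp
    · rw [pow_succ, mul_assoc, mul_comm (-Real.cos x), ← mul_assoc, h]
      have h1 : ∀ j : ℕ, Real.sin (((j : ℝ) + 1) * x) * -Real.cos x =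
          -(1 / 2) * (Real.sin ((((j + 1 : ℕ) : ℝ) + 1) * x) + Real.sin ((j : ℝ) * x)) := by
        intro j
        have h2 : (((j + 1 : ℕ) : ℝ) + 1) * x = ((j : ℝ) + 1) * x + x := by push_cast; ring
        have h3 : (j : ℝ) * x = ((j : ℝ) + 1) * x - x := by ring
        rw [h2, h3, Real.sin_add, Real.sin_sub]
        ring
      have h4 : (∑ j ∈ Finset.range (i + 1), (R j : ℝ) * Real.sin ((j + 1) * x)) * -Real.cos x =
          ∑ j ∈ Finset.range (i + 1), (-(1 / 2) * (R j : ℝ) * Real.sin ((((j + 1 : ℕ) : ℝ) + 1) * x) +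
            -(1 / 2) * (R j : ℝ) * Real.sin ((j : ℝ) * x)) := by
        rw [Finset.sum_mul]
        refine Finset.sum_congr rfl fun j _ => ?_
        rw [mul_assoc, h1]
        ring
      rw [h4, Finset.sum_add_distrib]
      have h5 : ∑ j ∈ Finset.range (i + 1 + 1), (((-(1 / 2) * ((if j = 0 then 0 else R (j - 1)) + R (j + 1)) : ℚ)) : ℝ) *
          Real.sin ((j + 1) * x) = ∑ j ∈ Finset.range (i + 1 + 1), -(1 / 2) * (((if j = 0 then 0 else R (j - 1) : ℚ)) : ℝ) *
          Real.sin ((j + 1) * x) + ∑ j ∈ Finset.range (i + 1 + 1), -(1 / 2) * (R (j + 1) : ℝ) * Real.sin ((j + 1) * x) := by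
        rw [← Finset.sum_add_distrib]
        refine Finset.sum_congr rfl fun j _ => ?_
        push_cast
        ring
      rw [h5]
      congr 1
      · rw [Finset.sum_range_succ' _ (i + 1)]
        simp only [Nat.add_eq_zero_iff, one_ne_zero, and_false, if_false, Nat.add_sub_cancel, if_true, Rat.cast_zero,
          mul_zero, zero_mul, add_zero]
      · rw [Finset.sum_range_succ' _ i]
        rw [Finset.sum_range_succ _ (i + 1), Finset.sum_range_succ _ i, hR (i + 1 + 1) (by omega), hR (i + 1) (by omega)]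
        simp

end Pool.Agent.Helper880_LF.NB
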