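import Pool.Agent.Helper880_LF.Cheb
import Pool.Agent.Y118.HG.Nr

/-!
# The periods of the curve `y² = T_{n + 1}(x)`: the nodes
-/

set_option autoImplicit false
set_option linter.unusedSectionVars false
set_option linter.unusedVariables false

open Matrix Module Filter Polynomial Topology MeasureTheory

namespace Pool.Agent.Helper880_LF.NB

open Pool.Agent.Y118.HP

variable {n : ℕ}

/-- the angles -/
noncomputable def an (n : ℕ) (k : ℕ) : ℝ := (2 * k + 1) * Real.pi / (2 * ((n + 1 : ℕ) : ℝ))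

theorem an_eq (n k : ℕ) : an n k = ((k + 1 : ℕ) : ℝ) * Real.pi / ((n + 1 : ℕ) : ℝ) - hl (n + 1) := by
  unfold an hl
  have : ((n + 1 : ℕ) : ℝ) ≠ 0 := by positivity
  push_cast
  field_simp
  ring

theorem an_succ (n k : ℕ) : an n (k + 1) = ((k + 1 : ℕ) : ℝ) * Real.pi / ((n + 1 : ℕ) : ℝ) + hl (n + 1) := by
  unfold an hl
  have : ((n + 1 : ℕ) : ℝ) ≠ 0 := by positivity
  field_simp

theorem an_pos (n k : ℕ) : 0 < an n k := by
  unfold an
  have := Real.pi_pos
  positivity

theorem an_lt_pi {n k : ℕ} (hk : k < n + 1) : an n k < Real.pi := by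
  unfold an
  have h1 := Real.pi_pos
  have h2 : (0 : ℝ) < 2 * ((n + 1 : ℕ) : ℝ) := by positivity
  rw [div_lt_iff₀ h2]
  have h3 : (2 * (k : ℝ) + 1) < 2 * ((n + 1 : ℕ) : ℝ) := by
    have : (k : ℝ) + 1 ≤ ((n + 1 : ℕ) : ℝ) := by exact_mod_cast hk
    linarith
  nlinarith

theorem an_lt {n k l : ℕ} (h : k < l) : an n k < an n l := by
  unfold an
  have h1 := Real.pi_pos
  have h2 : (k : ℝ) < l := by exact_mod_cast h
  have h3 : (0 : ℝ) < 2 * ((n + 1 : ℕ) : ℝ) := by positivity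
  rw [div_lt_div_iff_of_pos_right h3]
  nlinarith

/-- the nodes -/
noncomputable def nd (n : ℕ) (k : Fin (n + 1)) : ℝ := -Real.cos (an n k)

theorem nd_mono (n : ℕ) : StrictMono (nd n) := by
  intro k l hkl
  unfold nd
  rw [neg_lt_neg_iff]
  exact Real.cos_lt_cos_of_nonneg_of_le_pi (an_pos n k).le (an_lt_pi l.2).le (an_lt hkl)

theorem odd_shift {n : ℕ} (k : ℕ) : Real.cos (((n + 1 : ℕ) : ℝ) * an n k) = 0 := by
  have h1 : ((n + 1 : ℕ) : ℝ) * an n k = (2 * (k : ℕ) + 1) * Real.pi / 2 := by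
    unfold an
    have : ((n + 1 : ℕ) : ℝ) ≠ 0 := by positivity
    field_simp
  rw [h1, Real.cos_eq_zero_iff]
  exact ⟨k, by push_cast; ring⟩

theorem T_neg_cos (hn : Even n) (x : ℝ) :
    (Chebyshev.T ℝ ((n + 1 : ℕ) : ℤ)).eval (-Real.cos x) = -Real.cos (((n + 1 : ℕ) : ℝ) * x) := by
  have h1 : -Real.cos x = Real.cos (Real.pi - x) := by rw [Real.cos_pi_sub]
  rw [h1, Chebyshev.T_real_cos]
  have h2 : (((n + 1 : ℕ) : ℤ) : ℝ) * (Real.pi - x) = ((n + 1 : ℕ) : ℝ) * Real.pi - ((n + 1 : ℕ) : ℝ) * x := by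
    push_cast
    ring
  rw [h2, Real.cos_sub, Real.cos_nat_mul_pi, Real.sin_nat_mul_pi, zero_mul, add_zero, (hn.add_one).neg_one_pow]
  ring

/-- the product over the nodes -/
theorem nd_prod (hn : Even n) : ∏ k, (X - C (nd n k)) = C (1 / 2 ^ n : ℝ) * Chebyshev.T ℝ ((n + 1 : ℕ) : ℤ) := by
  have hlead : (Chebyshev.T ℝ ((n + 1 : ℕ) : ℤ)).leadingCoeff = 2 ^ n := by
    rw [Chebyshev.leadingCoeff_T, Int.natAbs_natCast, Nat.add_sub_cancel]
  have hdeg : (Chebyshev.T ℝ ((n + 1 : ℕ) : ℤ)).natDegree = n + 1 := by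
    rw [Chebyshev.natDegree_T, Int.natAbs_natCast]
  have hmon : (C (1 / 2 ^ n : ℝ) * Chebyshev.T ℝ ((n + 1 : ℕ) : ℤ)).Monic := by
    unfold Polynomial.Monic
    rw [leadingCoeff_mul, leadingCoeff_C, hlead]
    field_simp
  symm
  refine eq_of_monic_of_dvd_of_natDegree_le (monic_prod_of_monic _ _ fun k _ => monic_X_sub_C _) hmon ?_ ?_
  · refine Finset.prod_dvd_of_coprime ?_ fun k _ => ?_
    · intro k _ l _ hkl
      exact pairwise_coprime_X_sub_C (nd_mono n).injective hkl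
    · rw [dvd_iff_isRoot, IsRoot.def, eval_mul, nd, T_neg_cos hn, odd_shift, neg_zero, mul_zero]
  · rw [natDegree_prod_of_monic _ _ fun k _ => monic_X_sub_C _]
    simp only [natDegree_X_sub_C, Finset.sum_const, Finset.card_univ, Fintype.card_fin, smul_eq_mul, mul_one]
    refine (natDegree_C_mul_le _ _).trans hdeg.le

theorem nd_val (hn : Even n) (x : ℝ) : |∏ k, (-Real.cos x - nd n k)| = |Real.cos (((n + 1 : ℕ) : ℝ) * x)| / 2 ^ n := by
  have h1 := congrArg (Polynomial.eval (-Real.cos x)) (nd_prod hn)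
  rw [eval_prod, eval_mul, eval_C, T_neg_cos hn] at h1
  simp only [eval_sub, eval_X, eval_C] at h1
  rw [h1, abs_mul, abs_neg, abs_of_pos (by positivity : (0 : ℝ) < 1 / 2 ^ n)]
  ring

theorem image_gap {a b : ℝ} (ha : 0 ≤ a) (hb : b ≤ Real.pi) (hab : a < b) :
    (fun x => -Real.cos x) '' Set.Ioo a b = Set.Ioo (-Real.cos a) (-Real.cos b) := by
  ext y
  constructor
  · rintro ⟨x, ⟨hx1, hx2⟩, rfl⟩
    constructor
    · exact neg_lt_neg (Real.cos_lt_cos_of_nonneg_of_le_pi ha (by linarith) hx1)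
    · exact neg_lt_neg (Real.cos_lt_cos_of_nonneg_of_le_pi (by linarith) hb hx2)
  · rintro ⟨h1, h2⟩
    have hy1 : -1 ≤ -y := by
      have := Real.neg_one_le_cos b
      linarith
    have hy2 : -y ≤ 1 := by
      have := Real.cos_le_one a
      linarith
    have h3 : Real.cos (Real.arccos (-y)) = -y := Real.cos_arccos hy1 hy2
    refine ⟨Real.arccos (-y), ⟨?_, ?_⟩, by simp only; rw [h3]; ring⟩
    · by_contra hcon
      push Not at hcon
      have h4 : Real.cos a ≤ Real.cos (Real.arccos (-y)) :=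
        Real.cos_le_cos_of_nonneg_of_le_pi (Real.arccos_nonneg _) (by linarith) hcon
      rw [h3] at h4
      linarith
    · by_contra hcon
      push Not at hcon
      have h4 : Real.cos (Real.arccos (-y)) ≤ Real.cos b :=
        Real.cos_le_cos_of_nonneg_of_le_pi (by linarith) (Real.arccos_le_pi _) hcon
      rw [h3] at h4
      linarith

/-- the periods as trigonometric integrals -/
theorem per_nd (hn : Even n) (l j : Fin n) :
    per (nd n) l j = ∫ x in (an n l)..(an n ((l : ℕ) + 1)),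
      √(2 ^ n) * ((-Real.cos x) ^ (j : ℕ) * Real.sin x * wt (n + 1) x) := by
  have hlt : an n (l : ℕ) < an n ((l : ℕ) + 1) := an_lt (Nat.lt_succ_self _)
  have h1 : nd n l.castSucc = -Real.cos (an n l) := rfl
  have h2 : nd n l.succ = -Real.cos (an n ((l : ℕ) + 1)) := by
    unfold nd
    rw [Fin.val_succ]
  have hle : nd n l.castSucc ≤ nd n l.succ := (nd_mono n Fin.castSucc_lt_succ).le
  unfold per
  rw [intervalIntegral.integral_of_le hle, intervalIntegral.integral_of_le hlt.le, integral_Ioc_eq_integral_Ioo,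
    integral_Ioc_eq_integral_Ioo, h1, h2]
  have hb : an n ((l : ℕ) + 1) < Real.pi := an_lt_pi (by have := l.2; omega)
  rw [← image_gap (an_pos n l).le hb.le hlt,
    integral_image_eq_integral_abs_deriv_smul (f' := Real.sin) measurableSet_Ioo]
  · refine setIntegral_congr_fun measurableSet_Ioo fun x hx => ?_
    have hs : 0 < Real.sin x := Real.sin_pos_of_pos_of_lt_pi (lt_trans (an_pos n l) hx.1) (lt_trans hx.2 hb)
    rw [abs_of_pos hs, smul_eq_mul, nd_val hn, Real.sqrt_div (abs_nonneg _)]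
    unfold wt
    rw [div_div_eq_mul_div]
    ring
  · intro x hx
    have := (Real.hasDerivAt_cos x).neg
    rw [neg_neg] at this
    exact this.hasDerivWithinAt
  · intro x hx y hy hxy
    have h3 : Real.cos x = Real.cos y := by
      simp only at hxy
      linarith
    exact Real.injOn_cos ⟨((an_pos n l).trans hx.1).le, (hx.2.trans hb).le⟩ ⟨((an_pos n l).trans hy.1).le, (hy.2.trans hb).le⟩ h3

end Pool.Agent.Helper880_LF.NB
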