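import Pool.Agent.Helper880_LF.GB

/-!
# Matrices with few constants
-/

set_option autoImplicit false
set_option linter.unusedSectionVars false
set_option linter.unusedVariables false

open Matrix Module Filter

namespace Pool.Agent.Helper880_LF.NB

open Pool.Agent.Helper880_LF
open Pool.Agent.Y118.UL (mk mk_eq mk_eq_zero mk_ne_zero mk_surj ev_ge eval_mk rep qc qc_mk algebraMap_eq U)

theorem rank_le {F V W1 W2 : Type} [Field F] [AddCommGroup V] [Module F V] [AddCommGroup W1] [Module F W1]
    [AddCommGroup W2] [Module F W2] [FiniteDimensional F W1] (R : V →ₗ[F] W1) (E : V →ₗ[F] W2)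
    (h : LinearMap.ker R ≤ LinearMap.ker E) :
    FiniteDimensional F (LinearMap.range E) ∧ finrank F (LinearMap.range E) ≤ finrank F W1 := by
  let f : LinearMap.range R →ₗ[F] W2 := ((LinearMap.ker R).liftQ E h) ∘ₗ R.quotKerEquivRange.symm.toLinearMap
  have h1 : LinearMap.range E ≤ LinearMap.range f := by
    rintro _ ⟨v, rfl⟩
    refine ⟨⟨R v, v, rfl⟩, ?_⟩
    show ((LinearMap.ker R).liftQ E h) (R.quotKerEquivRange.symm ⟨R v, v, rfl⟩) = E v
    have h2 : R.quotKerEquivRange.symm ⟨R v, v, rfl⟩ = Submodule.Quotient.mk v := by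
      rw [LinearEquiv.symm_apply_eq]
      rfl
    rw [h2]
    rfl
  have h3 : FiniteDimensional F (LinearMap.range E) := Submodule.finiteDimensional_of_le h1
  exact ⟨h3, (Submodule.finrank_mono h1).trans ((LinearMap.finrank_range_le f).trans (Submodule.finrank_le _))⟩

section ker
variable {k Ω : Type} [Field k] [Field Ω] [Algebra k Ω]

/-- the constants of a derivation -/
def kerD (δ : Derivation k Ω Ω) : Subfield Ω where
  carrier := {x | δ x = 0}
  mul_mem' := by
    intro a b ha hb
    show δ (a * b) = 0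
    rw [δ.leibniz, show δ a = 0 from ha, show δ b = 0 from hb, smul_zero, smul_zero, add_zero]
  one_mem' := δ.map_one_eq_zero
  add_mem' := by
    intro a b ha hb
    show δ (a + b) = 0
    rw [map_add, show δ a = 0 from ha, show δ b = 0 from hb, add_zero]
  zero_mem' := map_zero δ
  neg_mem' := by
    intro a ha
    show δ (-a) = 0
    rw [map_neg, show δ a = 0 from ha, neg_zero]
  inv_mem' := by
    intro a ha
    show δ a⁻¹ = 0
    rw [δ.leibniz_inv, show δ a = 0 from ha, smul_zero]

theorem mem_kerD {δ : Derivation k Ω Ω} {x : Ω} : x ∈ kerD δ ↔ δ x = 0 := Iff.rfl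

/-- the derivation over its constants -/
def resD (δ : Derivation k Ω Ω) : Derivation (kerD δ) Ω Ω :=
  Derivation.mk'
    { toFun := fun x => δ x
      map_add' := fun x y => map_add δ x y
      map_smul' := fun s x => by
        show δ ((s : Ω) * x) = (s : Ω) * δ x
        rw [δ.leibniz, show δ (s : Ω) = 0 from s.2, smul_zero, add_zero, smul_eq_mul] }
    (fun a b => δ.leibniz a b)

/-- elements which are algebraic over constants are constant -/
theorem ker_alg [CharZero Ω] {δ : Derivation k Ω Ω} {x : Ω} (hx : IsAlgebraic (kerD δ) x) : δ x = 0 :=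
  der_alg (resD δ) hx

/-- elements which are algebraic over the field generated by constants are constant -/
theorem ker_adj [CharZero Ω] {L : Type} [Field L] [Algebra ℚ L] (φ : L →+* Ω) {δ : Derivation k Ω Ω} {s : Set L}
    (hs : ∀ y ∈ s, δ (φ y) = 0) {x : L} (hx : IsAlgebraic (IntermediateField.adjoin ℚ s) x) : δ (φ x) = 0 := by
  let S : IntermediateField ℚ L := ((kerD δ).comap φ).toIntermediateField fun q => by
    show δ (φ (algebraMap ℚ L q)) = 0
    have h1 : φ (algebraMap ℚ L q) = algebraMap ℚ Ω q := by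
      have h2 : φ.comp (algebraMap ℚ L) = algebraMap ℚ Ω := RingHom.ext_rat _ _
      rw [← h2]
      rfl
    rw [h1]
    have h3 : algebraMap ℚ Ω q ∈ kerD δ := by
      rw [eq_ratCast]
      exact SubfieldClass.ratCast_mem _ q
    exact h3
  have hS : IntermediateField.adjoin ℚ s ≤ S := by
    rw [IntermediateField.adjoin_le_iff]
    intro y hy
    exact hs y hy
  apply ker_alg
  obtain ⟨p, hp0, hp⟩ := hx
  let ψ : IntermediateField.adjoin ℚ s →+* kerD δ :=
    { toFun := fun y => ⟨φ y, hS y.2⟩
      map_one' := by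
        apply Subtype.ext
        exact map_one φ
      map_mul' := fun a b => by
        apply Subtype.ext
        exact map_mul φ _ _
      map_zero' := by
        apply Subtype.ext
        exact map_zero φ
      map_add' := fun a b => by
        apply Subtype.ext
        exact map_add φ _ _ }
  refine ⟨p.map ψ, ?_, ?_⟩
  · exact (Polynomial.map_ne_zero_iff ψ.injective).2 hp0
  · rw [Polynomial.aeval_def, Polynomial.eval₂_map]
    have h1 : (algebraMap (kerD δ) Ω).comp ψ = φ.comp (algebraMap (IntermediateField.adjoin ℚ s) L) := by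
      apply RingHom.ext
      intro y
      rfl
    rw [h1, ← Polynomial.hom_eval₂, ← Polynomial.aeval_def, hp, map_zero]

end ker

/-- the constants in the ultrapower -/
noncomputable def kt : ℂ →+* U ℂ := (mk ℂ).comp (Pi.constRingHom ℕ ℂ)

theorem kt_apply (z : ℂ) : kt z = mk ℂ fun _ => z := rfl

variable {B : Type} [Fintype B] [DecidableEq B]

theorem gm_kt (C : Matrix B B ℂ) : gm (fun _ => C) = C.map kt := rfl

/-- a matrix whose entries are up to a common factor algebraic over a field generated by `r` numbers -/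
def FewC (r : ℕ) (C : Matrix B B ℂ) : Prop :=
  ∃ (b : Fin r → ℂ) (κ : ℂ), κ ≠ 0 ∧ ∀ i j, IsAlgebraic (IntermediateField.adjoin ℚ (Set.range b)) (κ * C i j)

/-- the space of the logarithmic derivatives is small -/
theorem few_dim {r : ℕ} {C : Matrix B B ℂ} (hC : C.det ≠ 0) (h : FewC r C) :
    ∃ 𝒩 : Submodule (U ℂ) (Matrix B B (U ℂ)), (1 : Matrix B B (U ℂ)) ∈ 𝒩 ∧ finrank (U ℂ) 𝒩 ≤ r + 1 ∧
      ∀ δ : Derivation (U ℚ) (U ℂ) (U ℂ), (gm fun _ => C)⁻¹ * dm δ (gm fun _ => C) ∈ 𝒩 := by
  classical
  obtain ⟨b, κ, hκ, halg⟩ := h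
  set C' : Matrix B B ℂ := κ • C with hC'
  have hC'd : C'.det ≠ 0 := by
    rw [hC', Matrix.det_smul]
    exact mul_ne_zero (pow_ne_zero _ hκ) hC
  set Cs : Matrix B B (U ℂ) := gm fun _ => C' with hCs
  have hCu : IsUnit Cs.det := gm_unit fun _ => hC'd
  let R : Derivation (U ℚ) (U ℂ) (U ℂ) →ₗ[U ℂ] (Fin r → U ℂ) :=
    { toFun := fun δ s => δ (kt (b s))
      map_add' := fun δ δ' => rfl
      map_smul' := fun z δ => rfl }
  let E : Derivation (U ℚ) (U ℂ) (U ℂ) →ₗ[U ℂ] Matrix B B (U ℂ) :=
    { toFun := fun δ => Cs⁻¹ * dm δ Cs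
      map_add' := fun δ δ' => by
        have h1 : dm (δ + δ') Cs = dm δ Cs + dm δ' Cs := by
          ext i j
          simp [dm]
        rw [h1, Matrix.mul_add]
      map_smul' := fun z δ => by
        have h1 : dm (z • δ) Cs = z • dm δ Cs := by
          ext i j
          simp [dm]
        rw [h1, Matrix.mul_smul]
        rfl }
  have hker : LinearMap.ker R ≤ LinearMap.ker E := by
    intro δ hδ
    rw [LinearMap.mem_ker] at hδ ⊢
    have h1 : ∀ y ∈ Set.range b, δ (kt y) = 0 := by
      rintro _ ⟨s, rfl⟩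
      exact congrFun hδ s
    have h2 : dm δ Cs = 0 := by
      ext i j
      have h3 := ker_adj (Ω := U ℂ) kt h1 (halg i j)
      exact h3
    show Cs⁻¹ * dm δ Cs = 0
    rw [h2, Matrix.mul_zero]
  obtain ⟨hfd, hle⟩ := rank_le R E hker
  refine ⟨Submodule.span (U ℂ) {1} ⊔ LinearMap.range E, Submodule.mem_sup_left (Submodule.mem_span_singleton_self _), ?_, ?_⟩
  · have h1 := Submodule.finrank_add_le_finrank_add_finrank (Submodule.span (U ℂ) {(1 : Matrix B B (U ℂ))}) (LinearMap.range E)
    have h2 : finrank (U ℂ) (Submodule.span (U ℂ) {(1 : Matrix B B (U ℂ))}) ≤ 1 := by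
      have := finrank_span_le_card (R := U ℂ) ({1} : Set (Matrix B B (U ℂ)))
      simpa using this
    rw [Module.finrank_fin_fun] at hle
    omega
  · intro δ
    have h1 : (gm fun _ => C) = (kt κ)⁻¹ • Cs := by
      rw [hCs, gm_kt, gm_kt]
      ext i j
      rw [Matrix.smul_apply, Matrix.map_apply, Matrix.map_apply, hC', Matrix.smul_apply, smul_eq_mul, smul_eq_mul, map_mul,
        ← mul_assoc, inv_mul_cancel₀ ((map_ne_zero kt).2 hκ), one_mul]
    have hz : (kt κ)⁻¹ ≠ 0 := inv_ne_zero ((map_ne_zero kt).2 hκ)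
    rw [h1, dm_smul]
    have h2 : ((kt κ)⁻¹ • Cs)⁻¹ = kt κ • Cs⁻¹ := by
      refine Matrix.inv_eq_right_inv ?_
      rw [Matrix.smul_mul, Matrix.mul_smul, smul_smul, inv_mul_cancel₀ ((map_ne_zero kt).2 hκ), one_smul,
        Matrix.mul_nonsing_inv _ hCu]
    rw [h2, Matrix.mul_add, Matrix.mul_smul, Matrix.smul_mul, Matrix.mul_smul, Matrix.smul_mul,
      Matrix.nonsing_inv_mul _ hCu, smul_smul, smul_smul, inv_mul_cancel₀ ((map_ne_zero kt).2 hκ), one_smul]
    exact Submodule.add_mem _ (Submodule.mem_sup_left (Submodule.smul_mem _ _ (Submodule.mem_span_singleton_self _)))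
      (Submodule.mem_sup_right ⟨δ, rfl⟩)

end Pool.Agent.Helper880_LF.NB
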