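import Pool.Agent.Helper880_LF.GGen
import Pool.Agent.Helper880_LF.GConst
import Pool.Agent.Y123.ST.Out

/-!
# All members of a family of hyperelliptic curves whose central curve has few periods
-/

set_option autoImplicit false
set_option linter.unusedSectionVars false
set_option linter.unusedVariables false

open Matrix Module Filter Polynomial Topology

namespace Pool.Agent.Helper880_LF.NB

open Pool.Agent.Helper880_LF
open Pool.Agent.Y118.UL (mk mk_eq mk_eq_zero mk_ne_zero mk_surj ev_ge eval_mk rep qc qc_mk algebraMap_eq U)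
open Pool.Agent.Y119.HY (cm)
open Pool.Agent.Y118.HP Pool.Agent.Y118.HG Pool.Agent.Y37.GF
open Pool.Agent.TH127.PT Pool.Agent.Y123.ST

variable {n N : ℕ}

theorem jm_inv_transpose (hn : Even n) : ((jm ℂ n)⁻¹)ᵀ = -(jm ℂ n)⁻¹ := by
  have hdet : IsUnit (jm ℂ n).det := (jm_det hn).isUnit
  rw [transpose_nonsing_inv, jm_transpose]
  apply inv_eq_left_inv
  rw [neg_mul_neg, nonsing_inv_mul _ hdet]

theorem cm_jm_inv (hn : Even n) : cm ((jm ℚ n)⁻¹) = (jm ℂ n)⁻¹ := by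
  have h1 : ((jm ℚ n)⁻¹).map (algebraMap ℚ ℂ) * jm ℂ n = 1 := by
    rw [← jm_map (algebraMap ℚ ℂ) (n := n), ← Matrix.map_mul, nonsing_inv_mul _ (jm_det hn).isUnit,
      Matrix.map_one _ (map_zero _) (map_one _)]
  exact (inv_eq_left_inv h1).symm

theorem sp_dual (hn : Even n) {g : Matrix (Fin n) (Fin n) ℂ} :
    gᵀ * (jm ℂ n)⁻¹ * g = (jm ℂ n)⁻¹ ↔ g ∈ SpS ℂ n := by
  have hdet : IsUnit (jm ℂ n).det := (jm_det hn).isUnit
  constructor
  · intro h
    show g * jm ℂ n * gᵀ = jm ℂ n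
    have h1 : (jm ℂ n * gᵀ * (jm ℂ n)⁻¹) * g = 1 := by
      rw [Matrix.mul_assoc (jm ℂ n), Matrix.mul_assoc (jm ℂ n), h, mul_nonsing_inv _ hdet]
    have h2 : g * (jm ℂ n * gᵀ * (jm ℂ n)⁻¹) = 1 := mul_eq_one_comm.1 h1
    calc g * jm ℂ n * gᵀ = (g * (jm ℂ n * gᵀ * (jm ℂ n)⁻¹)) * jm ℂ n := by
          simp only [Matrix.mul_assoc]
          rw [nonsing_inv_mul _ hdet, Matrix.mul_one]
      _ = jm ℂ n := by rw [h2, Matrix.one_mul]
  · intro h
    have h0 : g * jm ℂ n * gᵀ = jm ℂ n := h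
    have h1 : g * (jm ℂ n * gᵀ * (jm ℂ n)⁻¹) = 1 := by
      rw [← Matrix.mul_assoc, ← Matrix.mul_assoc, h0, mul_nonsing_inv _ hdet]
    have h2 : (jm ℂ n * gᵀ * (jm ℂ n)⁻¹) * g = 1 := mul_eq_one_comm.1 h1
    calc gᵀ * (jm ℂ n)⁻¹ * g = (jm ℂ n)⁻¹ * ((jm ℂ n * gᵀ * (jm ℂ n)⁻¹) * g) := by
          rw [← Matrix.mul_assoc, ← Matrix.mul_assoc, ← Matrix.mul_assoc, nonsing_inv_mul _ hdet, Matrix.one_mul]
      _ = (jm ℂ n)⁻¹ := by rw [h2, Matrix.mul_one]

/-- the nilpotent elements, conjugated -/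
theorem EE_sp (hn : Even n) {A : Matrix (Fin n) (Fin n) ℂ} {l : ℂ} (hl : l ≠ 0) (hA : A * jm ℂ n * Aᵀ = l • jm ℂ n)
    (u : Fin n → ℂ) : A⁻¹ * EE u * A ∈ spS ((jm ℂ n)⁻¹) := by
  have hdet : IsUnit (jm ℂ n).det := (jm_det hn).isUnit
  have h1 : A * (l⁻¹ • (jm ℂ n * Aᵀ * (jm ℂ n)⁻¹)) = 1 := by
    rw [Matrix.mul_smul, ← Matrix.mul_assoc, ← Matrix.mul_assoc, hA, Matrix.smul_mul, mul_nonsing_inv _ hdet,
      smul_smul, inv_mul_cancel₀ hl, one_smul]
  have hinv : A⁻¹ = l⁻¹ • (jm ℂ n * Aᵀ * (jm ℂ n)⁻¹) := inv_eq_right_inv h1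
  have hE : EE u = jm ℂ n * vecMulVec u u := by
    unfold EE
    rw [mul_vecMulVec]
  have h2 : (jm ℂ n)⁻¹ * (A⁻¹ * EE u * A) = l⁻¹ • (Aᵀ * vecMulVec u u * A) := by
    rw [hinv, hE, Matrix.smul_mul, Matrix.smul_mul, Matrix.mul_smul]
    congr 1
    calc (jm ℂ n)⁻¹ * (jm ℂ n * Aᵀ * (jm ℂ n)⁻¹ * (jm ℂ n * vecMulVec u u) * A) =
        ((jm ℂ n)⁻¹ * jm ℂ n) * Aᵀ * ((jm ℂ n)⁻¹ * jm ℂ n) * vecMulVec u u * A := by simp only [Matrix.mul_assoc]
      _ = Aᵀ * vecMulVec u u * A := by rw [nonsing_inv_mul _ hdet, Matrix.one_mul, Matrix.mul_one]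
  rw [mem_spS]
  have h3 : ((jm ℂ n)⁻¹ * (A⁻¹ * EE u * A))ᵀ = (jm ℂ n)⁻¹ * (A⁻¹ * EE u * A) := by
    rw [h2, transpose_smul, transpose_mul, transpose_mul, transpose_transpose, transpose_vecMulVec, ← Matrix.mul_assoc]
  rw [transpose_mul, jm_inv_transpose hn, Matrix.mul_neg] at h3
  rw [← h3, add_neg_cancel]

theorem FewC.bd {r : ℕ} {A : Matrix (Fin n) (Fin n) ℂ} (h : FewC r A) :
    FewC r (blockDiagonal fun _ : Fin N => A) := by
  obtain ⟨b, κ, hκ, h1⟩ := h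
  refine ⟨b, κ, hκ, fun i j => ?_⟩
  rw [blockDiagonal_apply]
  split_ifs
  · exact h1 _ _
  · rw [mul_zero]
    exact isAlgebraic_zero

theorem isAlgebraic_sum' {F L : Type} [Field F] [Field L] [Algebra F L] {ι : Type} (s : Finset ι) {g : ι → L}
    (h : ∀ i ∈ s, IsAlgebraic F (g i)) : IsAlgebraic F (∑ i ∈ s, g i) := by
  classical
  induction s using Finset.induction_on with
  | empty =>
    rw [Finset.sum_empty]
    exact isAlgebraic_zero
  | insert a s ha ih =>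
    rw [Finset.sum_insert ha]
    exact (h a (Finset.mem_insert_self _ _)).add (ih fun i hi => h i (Finset.mem_insert_of_mem hi))

theorem FewC.mul_rat {r : ℕ} {A : Matrix (Fin n) (Fin n) ℂ} (h : FewC r A) {V : Matrix (Fin n) (Fin n) ℂ}
    (hV : ∀ i j, IsAlgebraic ℚ (V i j)) : FewC r (A * V) := by
  obtain ⟨b, κ, hκ, h1⟩ := h
  refine ⟨b, κ, hκ, fun i j => ?_⟩
  rw [Matrix.mul_apply, Finset.mul_sum]
  refine isAlgebraic_sum' _ fun l _ => ?_
  rw [← mul_assoc]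
  exact (h1 i l).mul ((hV l j).tower_top _)

theorem hyp_EE (hn : Even n) (hn4 : 4 ≤ n) {a : Fin n → ℝ} {f : ℚ[X]}
    (hf : f.map (algebraMap ℚ ℝ) = ∏ i, (X - C (a i))) {m : Fin (n + 1)} (h00 : StrictMono (er a m 0))
    (hfew : FewC (n - 2) (CM a m 0)) {G0 : ℕ}
    (hsep : ∀ {r : ℕ} (g : Fin r → ℕ), SepN G0 g → Sep a (fun l => (g l : ℝ))) (hN : 0 < N) (D : ℕ) :
    ∃ E : ℕ, ∀ t : Fin N → ℕ, (∀ i j, i ≠ j → (G0 : ℤ) ≤ |(t i : ℤ) - t j|) → (∀ i j, (t i - t j + 2) ^ E ≤ t j) →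
      ∀ K : Subfield ℂ, FiniteDimensional ℚ K → finrank ℚ K ≤ D →
      ∀ T : Set (Matrix (Fin n × Fin N) (Fin n × Fin N) ℂ), IsSubtorsor K T →
        blockDiagonal (fun j => CM a m (1 / (t j : ℝ))) ∈ T → ∀ j u, EE u ∈ LJ T j := by
  classical
  have ha : StrictMono a := (inGap_of_er h00).1
  have h0 : InGap a m 0 := (inGap_of_er h00).2
  have ha0 : ∀ i, a i ≠ 0 := fun i => ne_zero_of_gap h0 i
  have hf0 : f.coeff 0 ≠ 0 := coeff_ne_of_gap h0 hf
  obtain ⟨Δ⟩ := exists_ZDat hn ha h0 hf hf0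
  obtain ⟨ε, hε, hball⟩ := Metric.eventually_nhds_iff.1 ((CM_val hn ha h0 Δ).and (Ez_mem hn ha h0 hf Δ))
  obtain ⟨E1, hE1⟩ := pow_unbounded_of_one_lt (1 / ε) (show (1 : ℝ) < 2 by norm_num)
  by_contra hcon
  push Not at hcon
  have hcon' := fun k : ℕ => hcon (k + E1)
  choose t hts htc K hK hD T hT hcT jj uu hbad using hcon'
  -- small arguments
  have htpos : ∀ k j, (0 : ℝ) < (t k j : ℝ) := by
    intro k j
    have h1 := htc k j j
    have h2 : 0 < t k j := lt_of_lt_of_le (by positivity) h1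
    exact_mod_cast h2
  have hsmall : ∀ k j, |1 / (t k j : ℝ)| < ε := by
    intro k j
    have h1 := htc k j j
    rw [Nat.sub_self, zero_add] at h1
    have h2 : (2 : ℝ) ^ (k + E1) ≤ t k j := by exact_mod_cast h1
    have h3 : (2 : ℝ) ^ E1 ≤ (2 : ℝ) ^ (k + E1) := pow_le_pow_right₀ (by norm_num) (by omega)
    have h4 := htpos k j
    rw [abs_of_pos (by positivity), div_lt_iff₀ h4]
    have h5 : 1 / ε < t k j := lt_of_lt_of_le hE1 (h3.trans h2)
    rw [div_lt_iff₀ hε] at h5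
    linarith
  have hdat : ∀ k j, (InGap a m (1 / (t k j : ℝ)) ∧ CM a m (1 / (t k j : ℝ)) = AC a m Δ.V *
      (Ez Δ.Z (1 / (t k j : ℝ))).map (algebraMap ℝ ℂ) * Δ.U.map (aeval (((1 / (t k j : ℝ) : ℝ)) : ℂ))) ∧
      Ez Δ.Z (1 / (t k j : ℝ)) ∈ SpS ℝ n := by
    intro k j
    refine hball ?_
    rw [Real.dist_eq, sub_zero]
    exact hsmall k j
  set z : ℕ → Fin N → Matrix (Fin n) (Fin n) ℂ := fun k j => (Ez Δ.Z (1 / (t k j : ℝ))).map (algebraMap ℝ ℂ) with hz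
  have hzS : ∀ k j, z k j ∈ SpS ℂ n := fun k j => SpS_map _ (hdat k j).2
  set J : Fin N → Matrix (Fin n) (Fin n) ℚ := fun _ => (jm ℚ n)⁻¹ with hJ
  have hcJ : ∀ j, cm (J j) = (jm ℂ n)⁻¹ := fun j => cm_jm_inv hn
  have hdet : IsUnit (jm ℂ n).det := (jm_det hn).isUnit
  -- genericity
  have hgen : GenericN (U ℚ) (fun j => gm fun _ => cm (J j)) (fun j => gm fun k => z k j) := by
    refine gen_seq fun d => ?_
    obtain ⟨E, hE⟩ := rel_hyp hn ha ha0 h0 hf hf0 Δ hsep N d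
    filter_upwards [ev_ge E] with k hk P hPd hP0 g hg
    obtain ⟨jmax, -, hmax⟩ := Finset.exists_max_image Finset.univ (t k) ⟨⟨0, hN⟩, Finset.mem_univ _⟩
    obtain ⟨jmin, -, hmin⟩ := Finset.exists_min_image Finset.univ (t k) ⟨⟨0, hN⟩, Finset.mem_univ _⟩
    have hle : ∀ j, t k j ≤ t k jmax := fun j => hmax j (Finset.mem_univ j)
    have hge : ∀ j, t k jmin ≤ t k j := fun j => hmin j (Finset.mem_univ j)
    have h1 := htc k jmax jmin
    have h2 : (t k jmax - t k jmin + 2) ^ E ≤ t k jmax :=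
      (Nat.pow_le_pow_right (by omega) (by omega)).trans (h1.trans (hle jmin))
    have hcast : ∀ j, ((t k jmax : ℕ) : ℝ) - ((t k jmax - t k j : ℕ) : ℝ) = t k j := by
      intro j
      rw [Nat.cast_sub (hle j)]
      ring
    refine hE (t k jmax - t k jmin) (t k jmax) h2 (fun j => t k jmax - t k j) ?_ ?_ P hPd ?_ g ?_
    · intro l l' hll
      have h3 := hts k l l' hll
      have h4 : ((t k jmax - t k l : ℕ) : ℤ) - ((t k jmax - t k l' : ℕ) : ℤ) = -((t k l : ℤ) - t k l') := by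
        rw [Nat.cast_sub (hle l), Nat.cast_sub (hle l')]
        ring
      rw [h4, abs_neg]
      exact h3
    · intro i
      have := hge i
      omega
    · rw [← hP0]
      congr 2
      funext s
      rw [hcast]
      rfl
    · intro j
      have h3 := hg j
      rw [hcJ j] at h3
      exact (sp_dual hn).1 h3
  -- the constants
  set A := AC a m Δ.V with hA
  have hAJ : A * jm ℂ n * Aᵀ = (-4 * Real.pi * Complex.I : ℂ) • jm ℂ n := AC_J hn ha h0 hf Δ.VJ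
  have hl : (-4 * Real.pi * Complex.I : ℂ) ≠ 0 := by
    have h2 : (Real.pi : ℂ) ≠ 0 := by exact_mod_cast Real.pi_ne_zero
    exact mul_ne_zero (mul_ne_zero (by norm_num) h2) Complex.I_ne_zero
  have hAdet : A.det ≠ 0 := by
    intro h1
    have h2 := congrArg Matrix.det hAJ
    rw [Matrix.det_mul, Matrix.det_mul, h1, zero_mul, zero_mul, Matrix.det_smul] at h2
    exact mul_ne_zero (pow_ne_zero _ hl) hdet.ne_zero h2.symm
  have hfewA : FewC (n - 2) A := by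
    refine hfew.mul_rat fun i j => ?_
    rw [Matrix.map_apply, ← map_zero (algebraMap ℚ ℂ), aeval_algebraMap_apply]
    exact isAlgebraic_algebraMap _
  set Cb : Matrix (Fin n × Fin N) (Fin n × Fin N) ℂ := blockDiagonal fun _ => A with hCb
  have hCbdet : Cb.det ≠ 0 := by
    rw [hCb, det_blockDiagonal]
    exact Finset.prod_ne_zero_iff.2 fun _ _ => hAdet
  obtain ⟨𝒩, hone, hdim, h𝒩⟩ := few_dim (B := Fin n × Fin N) hCbdet hfewA.bd
  -- the frames
  set V : ℕ → Matrix (Fin n × Fin N) (Fin n × Fin N) ℚ := fun k =>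
    blockDiagonal fun j => Δ.U.map (Polynomial.eval (1 / (t k j : ℚ))) with hV
  have hUV : ∀ q : ℚ, (Δ.U.map (Polynomial.eval q)) * (Δ.V.map (Polynomial.eval q)) = 1 := by
    intro q
    have h1 := congrArg (fun M : Matrix (Fin n) (Fin n) ℚ[X] => M.map (Polynomial.evalRingHom q)) Δ.UV
    simp only [Matrix.map_mul] at h1
    rw [Matrix.map_one _ (map_zero _) (map_one _)] at h1
    exact h1
  have hVdet : ∀ k, (V k).det ≠ 0 := by
    intro k
    rw [hV]
    simp only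
    rw [det_blockDiagonal]
    refine Finset.prod_ne_zero_iff.2 fun j _ h1 => ?_
    have h2 := congrArg Matrix.det (hUV (1 / (t k j : ℚ)))
    rw [Matrix.det_mul, h1, zero_mul, Matrix.det_one] at h2
    exact zero_ne_one h2
  have hcm : ∀ k, Cb * blockDiagonal (z k) * (V k).map (algebraMap ℚ ℂ) =
      blockDiagonal fun j => CM a m (1 / (t k j : ℝ)) := by
    intro k
    have h1 : (V k).map (algebraMap ℚ ℂ) = blockDiagonal fun j => Δ.U.map (aeval (((1 / (t k j : ℝ) : ℝ)) : ℂ)) := by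
      rw [hV]
      simp only
      rw [blockDiagonal_map _ _ (map_zero _)]
      congr 1
      funext j
      refine Matrix.ext fun p q => ?_
      rw [Matrix.map_apply, Matrix.map_apply, Matrix.map_apply]
      have h2 : (((1 / (t k j : ℝ) : ℝ)) : ℂ) = algebraMap ℚ ℂ (1 / (t k j : ℚ)) := by
        rw [eq_ratCast]
        push_cast
        rfl
      rw [h2, aeval_algebraMap_apply, Polynomial.coe_aeval_eq_eval]
    rw [h1, hCb, ← blockDiagonal_mul, ← blockDiagonal_mul]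
    congr 1
    funext j
    exact ((hdat k j).1.2).symm
  have hmain := core (n := n) (N := N) (by omega) (J := J) (fun j => by rw [hcJ j, jm_inv_transpose hn])
    (fun j => by
      rw [hcJ j, Matrix.det_nonsing_inv]
      rw [Ring.inverse_eq_inv']
      exact inv_ne_zero hdet.ne_zero)
    (z := z) (fun k j => by
      rw [hcJ j]
      exact (sp_dual hn).2 (hzS k j)) hgen hK hD (C := fun _ => Cb) (fun _ => hCbdet) 𝒩 hone
    (by omega) h𝒩 hT (V := V) hVdet (fun k => by rw [hcm]; exact hcT k)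
  obtain ⟨k, hk⟩ := hmain.exists
  apply hbad k
  have h1 := hk (jj k) (A⁻¹ * EE (uu k) * A) (by rw [hcJ (jj k)]; exact EE_sp hn hl hAJ _)
  have h2 : Cb * ib (jj k) (A⁻¹ * EE (uu k) * A) * Cb⁻¹ = ib (jj k) (EE (uu k)) := by
    have hAA : A * A⁻¹ = 1 := mul_nonsing_inv _ (isUnit_iff_ne_zero.2 hAdet)
    have hCi : Cb⁻¹ = blockDiagonal fun _ => A⁻¹ := by
      refine inv_eq_right_inv ?_
      rw [hCb, ← blockDiagonal_mul, hAA]
      exact blockDiagonal_one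
    rw [hCi, hCb, ib_apply, ib_apply, ← blockDiagonal_mul, ← blockDiagonal_mul]
    congr 1
    funext j
    by_cases h : j = jj k
    · subst h
      rw [Pi.single_eq_same, Pi.single_eq_same]
      calc A * (A⁻¹ * EE (uu k) * A) * A⁻¹ = (A * A⁻¹) * EE (uu k) * (A * A⁻¹) := by simp only [Matrix.mul_assoc]
        _ = EE (uu k) := by rw [hAA, Matrix.one_mul, Matrix.mul_one]
    · rw [Pi.single_eq_of_ne h, Pi.single_eq_of_ne h, Matrix.mul_zero, Matrix.zero_mul]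
  rw [h2] at h1
  exact h1

end Pool.Agent.Helper880_LF.NB
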