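import Pool.Agent.Helper880_LF.Cheb2
import Pool.Agent.Helper880_LF.Hyp
import Mathlib.NumberTheory.Niven

/-!
# The periods of the curve `y² = T_{n + 1}(x)`: there are few
-/

set_option autoImplicit false
set_option linter.unusedSectionVars false
set_option linter.unusedVariables false

open Matrix Module Filter Polynomial Topology MeasureTheory

namespace Pool.Agent.Helper880_LF.NB

open Pool.Agent.Y118.HP

variable {n : ℕ}

/-- matrices with algebraic entries -/
def AlgM (M : Matrix (Fin n) (Fin n) ℂ) : Prop := ∀ i j, IsAlgebraic ℚ (M i j)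

theorem AlgM.lift {M : Matrix (Fin n) (Fin n) ℂ} (h : AlgM M) :
    ∃ M0 : Matrix (Fin n) (Fin n) (algebraicClosure ℚ ℂ), M0.map (algebraMap (algebraicClosure ℚ ℂ) ℂ) = M :=
  ⟨Matrix.of fun i j => ⟨M i j, mem_algebraicClosure_iff.2 (h i j)⟩, rfl⟩

theorem AlgM.of {M0 : Matrix (Fin n) (Fin n) (algebraicClosure ℚ ℂ)} :
    AlgM (M0.map (algebraMap (algebraicClosure ℚ ℂ) ℂ)) := fun i j => mem_algebraicClosure_iff.1 (M0 i j).2

theorem AlgM.mul {M N : Matrix (Fin n) (Fin n) ℂ} (hM : AlgM M) (hN : AlgM N) : AlgM (M * N) := by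
  obtain ⟨M0, rfl⟩ := hM.lift
  obtain ⟨N0, rfl⟩ := hN.lift
  rw [← Matrix.map_mul]
  exact AlgM.of

theorem AlgM.transpose {M : Matrix (Fin n) (Fin n) ℂ} (hM : AlgM M) : AlgM Mᵀ := fun i j => hM j i

theorem AlgM.inv {M : Matrix (Fin n) (Fin n) ℂ} (hM : AlgM M) (hd : M.det ≠ 0) : AlgM M⁻¹ := by
  obtain ⟨M0, rfl⟩ := hM.lift
  have hd0 : IsUnit M0.det := by
    rw [isUnit_iff_ne_zero]
    intro h0
    apply hd
    have h1 := RingHom.map_det (algebraMap (algebraicClosure ℚ ℂ) ℂ) M0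
    rw [h0, map_zero] at h1
    exact h1.symm
  have h1 : (M0⁻¹).map (algebraMap (algebraicClosure ℚ ℂ) ℂ) * M0.map (algebraMap (algebraicClosure ℚ ℂ) ℂ) = 1 := by
    rw [← Matrix.map_mul, nonsing_inv_mul _ hd0]
    exact Matrix.map_one _ (map_zero _) (map_one _)
  rw [inv_eq_left_inv h1]
  exact AlgM.of

theorem row_ne {Q : Matrix (Fin n) (Fin n) ℂ} (hQ : Q.det ≠ 0) (j : Fin n) : ∃ k, Q j k ≠ 0 := by
  by_contra hcon
  push Not at hcon
  exact hQ (Matrix.det_eq_zero_of_row_eq_zero j hcon)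

/-- a period matrix which is diagonal up to algebraic matrices has few constants -/
theorem fewC_of_factor (hn4 : 4 ≤ n) {L R0 Q J' : Matrix (Fin n) (Fin n) ℂ} {A : Fin n → ℂ} {lam : ℂ} (hlam : lam ≠ 0)
    (hL : AlgM L) (hR : AlgM R0) (hQ : AlgM Q) (hJ : AlgM J') (hQs : Qᵀ = -Q) (hJd : J'.det ≠ 0)
    (h : (L * diagonal A * R0) * Q * (L * diagonal A * R0)ᵀ = lam • J') : FewC (n - 2) (L * diagonal A * R0) := by
  classical
  have hdet0 : ((L * diagonal A * R0) * Q * (L * diagonal A * R0)ᵀ).det ≠ 0 := by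
    rw [h, det_smul]
    exact mul_ne_zero (pow_ne_zero _ hlam) hJd
  rw [det_mul, det_mul, det_mul, det_mul] at hdet0
  have hLd : L.det ≠ 0 := fun h0 => hdet0 (by rw [h0]; ring)
  have hAd : (diagonal A).det ≠ 0 := fun h0 => hdet0 (by rw [h0]; ring)
  have hRd : R0.det ≠ 0 := fun h0 => hdet0 (by rw [h0]; ring)
  have hQd : Q.det ≠ 0 := fun h0 => hdet0 (by rw [h0]; ring)
  have hA : ∀ j, A j ≠ 0 := by
    intro j h0
    apply hAd
    rw [det_diagonal]
    exact Finset.prod_eq_zero (Finset.mem_univ j) h0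
  set Q' := R0 * Q * R0ᵀ with hQ'
  set R' := L⁻¹ * J' * (L⁻¹)ᵀ with hR'
  have hQ'a : AlgM Q' := (hR.mul hQ).mul hR.transpose
  have hR'a : AlgM R' := ((hL.inv hLd).mul hJ).mul (hL.inv hLd).transpose
  have hQ'd : Q'.det ≠ 0 := by
    rw [hQ', det_mul, det_mul, det_transpose]
    exact mul_ne_zero (mul_ne_zero hRd hQd) hRd
  have hQ's : ∀ j, Q' j j = 0 := by
    intro j
    have h1 : Q'ᵀ = -Q' := by
      rw [hQ', transpose_mul, transpose_mul, transpose_transpose, hQs, Matrix.neg_mul, Matrix.mul_neg, Matrix.mul_assoc]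
    have h2 := congrFun (congrFun h1 j) j
    rw [transpose_apply, Matrix.neg_apply] at h2
    have h3 : (2 : ℂ) * Q' j j = 0 := by linear_combination h2
    exact (mul_eq_zero.1 h3).resolve_left two_ne_zero
  have hrel : diagonal A * Q' * diagonal A = lam • R' := by
    have hLL : L⁻¹ * L = 1 := nonsing_inv_mul _ (isUnit_iff_ne_zero.2 hLd)
    have hLL' : Lᵀ * (L⁻¹)ᵀ = 1 := by rw [← transpose_mul, hLL, transpose_one]
    calc diagonal A * Q' * diagonal A = (L⁻¹ * L) * (diagonal A * Q' * diagonal A) * (Lᵀ * (L⁻¹)ᵀ) := by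
          rw [hLL, hLL', Matrix.one_mul, Matrix.mul_one]
      _ = L⁻¹ * ((L * diagonal A * R0) * Q * (L * diagonal A * R0)ᵀ) * (L⁻¹)ᵀ := by
          rw [transpose_mul, transpose_mul, diagonal_transpose, hQ']
          simp only [Matrix.mul_assoc]
      _ = lam • R' := by rw [h, Matrix.mul_smul, Matrix.smul_mul, hR']
  have hent : ∀ j k, A j * Q' j k * A k = lam * R' j k := by
    intro j k
    have h1 := congrFun (congrFun hrel j) k
    rw [mul_diagonal, diagonal_mul, Matrix.smul_apply, smul_eq_mul] at h1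
    exact h1
  -- two pairs
  set j0 : Fin n := ⟨0, by omega⟩ with hj0
  obtain ⟨k0, hk0⟩ := row_ne hQ'd j0
  obtain ⟨j1, hj1, hj1'⟩ : ∃ j1 : Fin n, j1 ≠ j0 ∧ j1 ≠ k0 := by
    have h1 : ({j0, k0} : Finset (Fin n)).card < Fintype.card (Fin n) := by
      have := Finset.card_le_two (a := j0) (b := k0)
      rw [Fintype.card_fin]
      omega
    obtain ⟨j, hj⟩ : ∃ j, j ∉ ({j0, k0} : Finset (Fin n)) := by
      by_contra hcon
      push Not at hcon
      have h2 : ({j0, k0} : Finset (Fin n)) = Finset.univ := Finset.eq_univ_iff_forall.2 hcon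
      rw [h2, Finset.card_univ] at h1
      exact lt_irrefl _ h1
    rw [Finset.mem_insert, Finset.mem_singleton, not_or] at hj
    exact ⟨j, hj.1, hj.2⟩
  obtain ⟨k1, hk1⟩ := row_ne hQ'd j1
  have hk1j : k1 ≠ j1 := by
    rintro rfl
    exact hk1 (hQ's _)
  -- the transcendence basis
  have hcard : Fintype.card {i : Fin n // i ≠ j0 ∧ i ≠ j1} = n - 2 := by
    have h1 : Fintype.card {i : Fin n // i ≠ j0 ∧ i ≠ j1} = (Finset.univ.filter fun i : Fin n => i ≠ j0 ∧ i ≠ j1).card :=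
      Fintype.card_subtype _
    have h2 : (Finset.univ.filter fun i : Fin n => i ≠ j0 ∧ i ≠ j1) = Finset.univ \ {j0, j1} := by
      ext i
      simp [not_or]
    rw [h1, h2, Finset.card_sdiff_of_subset (Finset.subset_univ _), Finset.card_univ, Fintype.card_fin,
      Finset.card_pair hj1.symm]
  obtain ⟨ε⟩ : Nonempty (Fin (n - 2) ≃ {i : Fin n // i ≠ j0 ∧ i ≠ j1}) := by
    refine ⟨(Fintype.equivFinOfCardEq hcard).symm⟩
  set b : Fin (n - 2) → ℂ := fun s => (A j0)⁻¹ * A (ε s) with hb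
  set F := IntermediateField.adjoin ℚ (Set.range b) with hF
  have hmem : ∀ i, i ≠ j1 → (A j0)⁻¹ * A i ∈ F := by
    intro i hi
    by_cases h1 : i = j0
    · rw [h1, inv_mul_cancel₀ (hA j0)]
      exact F.one_mem
    · have h2 : b (ε.symm ⟨i, h1, hi⟩) = (A j0)⁻¹ * A i := by
        rw [hb]
        simp only [Equiv.apply_symm_apply]
      rw [← h2]
      exact IntermediateField.subset_adjoin ℚ _ ⟨_, rfl⟩
  have halgF : ∀ x : ℂ, x ∈ F → IsAlgebraic F x := fun x hx => isAlgebraic_algebraMap (⟨x, hx⟩ : F)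
  have hup : ∀ x : ℂ, IsAlgebraic ℚ x → IsAlgebraic F x := fun x hx => hx.tower_top F
  have hAi : ∀ i, IsAlgebraic F ((A j0)⁻¹ * A i) := by
    intro i
    by_cases h1 : i = j1
    · subst h1
      -- the missing one
      have e0 := hent j0 k0
      have e1 := hent i k1
      have hR0 : R' j0 k0 ≠ 0 := by
        intro h0
        rw [h0, mul_zero] at e0
        exact mul_ne_zero (mul_ne_zero (hA _) hk0) (hA _) e0
      have h2 : (A j0)⁻¹ * A i = (R' i k1 * (R' j0 k0)⁻¹ * Q' j0 k0 * (Q' i k1)⁻¹) *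
          (((A j0)⁻¹ * A k0) * ((A j0)⁻¹ * A k1)⁻¹) := by
        have h3 : A i * Q' i k1 * A k1 * R' j0 k0 = A j0 * Q' j0 k0 * A k0 * R' i k1 := by
          rw [e0, e1]
          ring
        have := hA j0
        have := hA k0
        have := hA k1
        have := hA i
        field_simp
        linear_combination h3
      rw [h2]
      refine IsAlgebraic.mul ?_ ?_
      · exact hup _ ((((hR'a _ _).mul (hR'a _ _).inv).mul (hQ'a _ _)).mul (hQ'a _ _).inv)
      · exact halgF _ (F.mul_mem (hmem k0 hj1'.symm) (F.inv_mem (hmem k1 hk1j)))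
    · exact halgF _ (hmem i h1)
  refine ⟨b, (A j0)⁻¹, inv_ne_zero (hA j0), fun i j => ?_⟩
  have h1 : (A j0)⁻¹ * (L * diagonal A * R0) i j = ∑ k, (L i k * R0 k j) * ((A j0)⁻¹ * A k) := by
    rw [Matrix.mul_apply, Finset.mul_sum]
    refine Finset.sum_congr rfl fun k _ => ?_
    rw [mul_diagonal]
    ring
  rw [h1]
  exact isAlgebraic_sum' _ fun k _ => (hup _ ((hL i k).mul (hR k j))).mul (hAi k)

end Pool.Agent.Helper880_LF.NB
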