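import Pool.Agent.Helper880_LF.Hyp

/-!
# All members of a family of hyperelliptic curves whose central curve has few periods: the final form
-/

set_option autoImplicit false
set_option linter.unusedSectionVars false
set_option linter.unusedVariables false

open Matrix Module Filter Polynomial Topology

namespace Pool.Agent.Helper880_LF.NB

open Pool.Agent.Helper880_LF
open Pool.Agent.Y118.HP Pool.Agent.Y118.HG Pool.Agent.Y37.GF
open Pool.Agent.TH127.PT Pool.Agent.Y123.ST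

variable {n : ℕ}

theorem hyp_all (hn : Even n) (hn4 : 4 ≤ n) {a : Fin n → ℝ} {f : ℚ[X]}
    (hf : f.map (algebraMap ℚ ℝ) = ∏ i, (X - C (a i))) {m : Fin (n + 1)} (h00 : StrictMono (er a m 0))
    (hfew : FewC (n - 2) (Matrix.of (cper (er a m 0)))) :
    ∃ G0 : ℕ, ∀ N D : ℕ, 0 < N → ∃ E : ℕ, ∀ t : Fin N → ℕ, (∀ i j, i ≠ j → (G0 : ℤ) ≤ |(t i : ℤ) - t j|) →
      (∀ i j, (t i - t j + 2) ^ E ≤ t j) → (∀ j, StrictMono (er a m (1 / (t j : ℝ)))) ∧
      ∀ K : Subfield ℂ, FiniteDimensional ℚ K → finrank ℚ K ≤ D →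
        Om K (blockDiagonal fun j => Matrix.of (cper (er a m (1 / (t j : ℝ)))))
          (TB fun j => (qm n (f * (X - C (1 / (t j : ℚ))))).map (algebraMap ℚ ℂ)) := by
  have ha : StrictMono a := (inGap_of_er h00).1
  have h0 : InGap a m 0 := (inGap_of_er h00).2
  obtain ⟨G0, hG0, hsep⟩ := exists_G0 a
  refine ⟨G0, fun N D hN => ?_⟩
  obtain ⟨E, hE⟩ := hyp_EE (N := N) hn hn4 hf h00 hfew hsep hN D
  obtain ⟨ε, hε, hball⟩ := Metric.eventually_nhds_iff.1 ((isOpen_InGap a m).mem_nhds h0)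
  obtain ⟨E1, hE1⟩ := pow_unbounded_of_one_lt (1 / ε) (show (1 : ℝ) < 2 by norm_num)
  refine ⟨E + E1, fun t hts htc => ?_⟩
  have hgap : ∀ j, InGap a m (1 / (t j : ℝ)) := by
    intro j
    refine hball ?_
    rw [Real.dist_eq, sub_zero]
    have h1 := htc j j
    rw [Nat.sub_self, zero_add] at h1
    have h2 : (2 : ℝ) ^ (E + E1) ≤ t j := by exact_mod_cast h1
    have h3 : (2 : ℝ) ^ E1 ≤ (2 : ℝ) ^ (E + E1) := pow_le_pow_right₀ (by norm_num) (by omega)
    have h4 : (0 : ℝ) < t j := lt_of_lt_of_le (by positivity) h2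
    rw [abs_of_pos (by positivity), div_lt_iff₀ h4]
    have h5 : 1 / ε < t j := lt_of_lt_of_le hE1 (h3.trans h2)
    rw [div_lt_iff₀ hε] at h5
    linarith
  refine ⟨fun j => er_strictMono ha (hgap j), fun K hK hKD => ?_⟩
  have hcast : ∀ j, (((1 / (t j : ℚ) : ℚ)) : ℝ) = 1 / (t j : ℝ) := fun j => by push_cast; rfl
  have hpi : (2 * Real.pi * Complex.I : ℂ) ≠ 0 := by
    have h2 : (Real.pi : ℂ) ≠ 0 := by exact_mod_cast Real.pi_ne_zero
    exact mul_ne_zero (mul_ne_zero two_ne_zero h2) Complex.I_ne_zero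
  have hmem : ((fun j => Matrix.of (cper (er a m (1 / (t j : ℝ))))), (2 * Real.pi * Complex.I : ℂ)) ∈
      TorF (n := n) (fun j => f * (X - C (1 / (t j : ℚ)))) := by
    rw [TorF_eq (fun _ => f)]
    refine ⟨hpi, fun j => ?_⟩
    have h1 := CM_mem hn ha hf (t := 1 / (t j : ℚ)) (by rw [hcast]; exact hgap j)
    rw [hcast] at h1
    exact h1
  have hQK : ∀ j a' b', ((qm n (f * (X - C (1 / (t j : ℚ))))).map (algebraMap ℚ ℂ)) a' b' ∈ K := fun j a' b' =>
    SubfieldClass.ratCast_mem K _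
  have hKalg : ∀ x ∈ K, IsAlgebraic ℚ x := by
    intro x hx
    have h6 : IsAlgebraic ℚ (⟨x, hx⟩ : K) := Algebra.IsAlgebraic.isAlgebraic _
    exact h6.algebraMap (A := ℂ)
  have hc' : ((fun j => Matrix.of (cper (er a m (1 / (t j : ℝ))))), (2 * Real.pi * Complex.I : ℂ)) ∈
      Pool.Agent.Y118.HP.Tor (fun j => (-1 / 2 : ℂ) • (qm n (f * (X - C (1 / (t j : ℚ))))).map (algebraMap ℚ ℂ)) :=
    ⟨hpi, fun j => rel_iff.1 (hmem.2 j)⟩
  have hc : ∀ i j, (t i - t j + 2) ^ E ≤ t j := fun i j => (Nat.pow_le_pow_right (by omega) (by omega)).trans (htc i j)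
  refine ⟨?_, ⟨_, _, hpi, rfl, hmem.2⟩, fun T hT hcT => ?_⟩
  · rw [subT_iff, TB_eq]
    exact tor_sub hn (by omega) hN (half_mem hQK) hc'
  · rintro _ ⟨X', μ, hμ, rfl, hX⟩
    have hEE := hE t hts hc K hK hKD T (subT_iff.1 hT) hcT
    exact full_of_EE hn hKalg (subT_iff.1 hT) (half_mem hQK) hc' hcT transc_two_pi_I hEE (X', μ)
      ⟨hμ, fun j => rel_iff.1 (hX j)⟩

end Pool.Agent.Helper880_LF.NB
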