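import Pool.Agent.Helper880_LF.Cheb3
import Pool.Agent.Helper880_LF.HypOut

/-!
# The curves `y² = T_{n + 1}(x) / x * (x - 1 / t)`
-/

set_option autoImplicit false
set_option linter.unusedSectionVars false
set_option linter.unusedVariables false

open Matrix Module Filter Polynomial Topology MeasureTheory

namespace Pool.Agent.Helper880_LF.NB

open Pool.Agent.Y118.HP

variable {n : ℕ}

/-- the periods -/
theorem per_sum (hn : Even n) (R : ℕ → ℕ → ℚ) (hR : ∀ i j, i < j → R i j = 0)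
    (h : ∀ i, ∀ x : ℝ, (-Real.cos x) ^ i * Real.sin x = ∑ j ∈ Finset.range (i + 1), (R i j : ℝ) * Real.sin ((j + 1) * x))
    (l i : Fin n) : per (nd n) l i = √(2 ^ n) * ∑ j : Fin n, Real.sin (((j : ℕ) + 1) * ((((l : ℕ) + 1 : ℕ) : ℝ) * Real.pi /
      ((n + 1 : ℕ) : ℝ))) * Aj (n + 1) j * (R i j : ℝ) := by
  have hM : 0 < n + 1 := Nat.succ_pos n
  have h1 : ∀ x : ℝ, (-Real.cos x) ^ (i : ℕ) * Real.sin x = ∑ j : Fin n, (R i j : ℝ) * Real.sin (((j : ℕ) + 1) * x) := by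
    intro x
    rw [h, Fin.sum_univ_eq_sum_range (fun j => (R i j : ℝ) * Real.sin (((j : ℕ) + 1) * x)) n]
    refine Finset.sum_subset (Finset.range_mono (by have := i.2; omega)) fun j _ hj => ?_
    rw [Finset.mem_range, not_lt] at hj
    rw [hR i j (by omega), Rat.cast_zero, zero_mul]
  have hint : ∀ j : ℕ, IntervalIntegrable (fun x => Real.sin ((j + 1) * x) * wt (n + 1) x) volume
      (((((l : ℕ) + 1 : ℕ) : ℝ)) * Real.pi / ((n + 1 : ℕ) : ℝ) - hl (n + 1))
      (((((l : ℕ) + 1 : ℕ) : ℝ)) * Real.pi / ((n + 1 : ℕ) : ℝ) + hl (n + 1)) := by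
    intro j
    set s : ℝ := ((((l : ℕ) + 1 : ℕ) : ℝ)) * Real.pi / ((n + 1 : ℕ) : ℝ) with hs
    have h2 : IntervalIntegrable (fun x => Real.sin ((j + 1) * (x + s)) * wt (n + 1) x) volume (-hl (n + 1)) (hl (n + 1)) :=
      cont_wt_int hM (by fun_prop)
    have h3 := h2.comp_sub_right s
    have h4 : (fun x => Real.sin (((j : ℝ) + 1) * (x - s + s)) * wt (n + 1) (x - s)) =
        fun x => Real.sin ((j + 1) * x) * wt (n + 1) x := by
      funext x
      rw [sub_add_cancel]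
      congr 1
      have := wt_shift hM ((l : ℕ) + 1) (x - s)
      rw [← hs, sub_add_cancel] at this
      exact this.symm
    rw [h4] at h3
    have h5 : -hl (n + 1) + s = s - hl (n + 1) := by ring
    have h6 : hl (n + 1) + s = s + hl (n + 1) := by ring
    rw [h5, h6] at h3
    exact h3
  rw [per_nd hn, intervalIntegral.integral_const_mul]
  congr 1
  simp only [h1, Finset.sum_mul]
  rw [an_eq, an_succ, intervalIntegral.integral_finsetSum]
  · refine Finset.sum_congr rfl fun j _ => ?_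
    have h2 := gap_int hM ((l : ℕ) + 1) j
    have h3 : (fun x => (R i j : ℝ) * Real.sin (((j : ℕ) + 1) * x) * wt (n + 1) x) =
        fun x => (R i j : ℝ) * (Real.sin (((j : ℕ) + 1) * x) * wt (n + 1) x) := by
      funext x
      ring
    rw [h3, intervalIntegral.integral_const_mul, h2]
    ring
  · intro j _
    have h3 : (fun x => (R i j : ℝ) * Real.sin (((j : ℕ) + 1) * x) * wt (n + 1) x) =
        fun x => (R i j : ℝ) * (Real.sin (((j : ℕ) + 1) * x) * wt (n + 1) x) := by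
      funext x
      ring
    rw [h3]
    exact (hint j).const_mul _

theorem alg_sin (p q : ℕ) : IsAlgebraic ℚ (((Real.sin (((p : ℕ) : ℝ) * Real.pi / ((q : ℕ) : ℝ)) : ℝ)) : ℂ) := by
  have h1 := Real.isIntegral_two_mul_sin_rat_mul_pi ((p : ℚ) / q)
  have h2 : IsIntegral ℚ (2 * Real.sin ((((p : ℚ) / q : ℚ) : ℝ) * Real.pi)) := h1.tower_top
  have h3 : IsAlgebraic ℚ (2 * Real.sin ((((p : ℚ) / q : ℚ) : ℝ) * Real.pi)) := h2.isAlgebraic
  have h4 : IsAlgebraic ℚ (Real.sin ((((p : ℚ) / q : ℚ) : ℝ) * Real.pi)) := by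
    have h5 : Real.sin ((((p : ℚ) / q : ℚ) : ℝ) * Real.pi) = algebraMap ℚ ℝ (1 / 2) *
        (2 * Real.sin ((((p : ℚ) / q : ℚ) : ℝ) * Real.pi)) := by
      rw [eq_ratCast]
      push_cast
      ring
    rw [h5]
    exact (isAlgebraic_algebraMap _).mul h3
  have h6 : ((p : ℕ) : ℝ) * Real.pi / ((q : ℕ) : ℝ) = (((p : ℚ) / q : ℚ) : ℝ) * Real.pi := by
    push_cast
    ring
  rw [h6]
  exact h4.algebraMap (A := ℂ)

theorem alg_sqrt (n : ℕ) : IsAlgebraic ℚ (((√(2 ^ n) : ℝ)) : ℂ) := by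
  have h1 : IsAlgebraic ℚ (√(2 ^ n) : ℝ) := by
    refine ⟨X ^ 2 - C (2 ^ n), ?_, ?_⟩
    · exact X_pow_sub_C_ne_zero (by norm_num) _
    · rw [map_sub, map_pow, aeval_X, aeval_C, Real.sq_sqrt (by positivity)]
      simp
  exact h1.algebraMap (A := ℂ)

theorem alg_dl (l : Fin n) : IsAlgebraic ℚ (Pool.Agent.Y118.HP.dl l) := by
  unfold Pool.Agent.Y118.HP.dl
  have hI : IsAlgebraic ℚ Complex.I := by
    refine ⟨X ^ 2 + C 1, ?_, ?_⟩
    · exact X_pow_add_C_ne_zero (by norm_num) _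
    · rw [map_add, map_pow, aeval_X, aeval_C, Complex.I_sq]
      simp
  refine IsAlgebraic.mul ?_ (hI.pow _)
  have : (2 : ℂ) = algebraMap ℚ ℂ 2 := by simp
  rw [this]
  exact isAlgebraic_algebraMap _

/-- the middle node -/
def mid (g : ℕ) : Fin (2 * g + 1) := ⟨g, by omega⟩

/-- the nodes different from `0` -/
noncomputable def ach (g : ℕ) (i : Fin (2 * g)) : ℝ := nd (2 * g) ((mid g).succAbove i)

theorem nd_mid (g : ℕ) : nd (2 * g) (mid g) = 0 := by
  unfold nd mid an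
  have h1 : (2 * ((g : ℕ) : ℝ) + 1) * Real.pi / (2 * ((2 * g + 1 : ℕ) : ℝ)) = Real.pi / 2 := by
    push_cast
    have : (2 * (g : ℝ) + 1) ≠ 0 := by positivity
    field_simp
  simp only
  rw [h1, Real.cos_pi_div_two, neg_zero]

theorem er_ach (g : ℕ) : er (ach g) (mid g) 0 = nd (2 * g) := by
  unfold er
  have h1 := Fin.insertNth_self_removeNth (α := fun _ => ℝ) (mid g) (nd (2 * g))
  rw [nd_mid] at h1
  exact h1

/-- the polynomial `T_{2 g + 1}(x) / (2^(2 g) x)` -/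
theorem exists_f (g : ℕ) : ∃ f : ℚ[X], C (2 ^ (2 * g)) * X * f = Chebyshev.T ℚ (2 * g + 1) ∧
    f.map (algebraMap ℚ ℝ) = ∏ i, (X - C (ach g i)) := by
  have hn : Even (2 * g) := even_two_mul g
  have h0 : (Chebyshev.T ℚ (2 * g + 1)).eval 0 = 0 := by
    rw [Chebyshev.T_eval_zero, if_neg]
    · simp
    · rw [Int.not_even_iff_odd]
      exact ⟨g, rfl⟩
  obtain ⟨q, hq⟩ := dvd_iff_isRoot.2 (show (Chebyshev.T ℚ (2 * g + 1)).IsRoot 0 from h0)
  rw [C_0, sub_zero] at hq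
  have h2 : (2 : ℚ) ^ (2 * g) ≠ 0 := by positivity
  refine ⟨C (1 / 2 ^ (2 * g)) * q, ?_, ?_⟩
  · rw [hq]
    have : C ((2 : ℚ) ^ (2 * g)) * C (1 / 2 ^ (2 * g)) = 1 := by
      rw [← C_mul, mul_one_div_cancel h2, C_1]
    calc C ((2 : ℚ) ^ (2 * g)) * X * (C (1 / 2 ^ (2 * g)) * q) = (C ((2 : ℚ) ^ (2 * g)) * C (1 / 2 ^ (2 * g))) * (X * q) := by
          ring
      _ = X * q := by rw [this, one_mul]
  · have h3 := nd_prod (n := 2 * g) hn
    rw [Fin.prod_univ_succAbove _ (mid g), nd_mid, C_0, sub_zero] at h3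
    have h4 : (Chebyshev.T ℚ (2 * g + 1)).map (algebraMap ℚ ℝ) = Chebyshev.T ℝ (2 * g + 1) := Chebyshev.map_T _ _
    rw [hq, Polynomial.map_mul, map_X] at h4
    have h5 : (((2 * g + 1 : ℕ) : ℤ)) = 2 * g + 1 := by push_cast; ring
    rw [h5, ← h4] at h3
    have h6 : X * ∏ i, (X - C (ach g i)) = X * (C (1 / 2 ^ (2 * g)) * q.map (algebraMap ℚ ℝ)) := by
      rw [show (X * ∏ i, (X - C (ach g i)) : ℝ[X]) = X * ∏ i, (X - C (nd (2 * g) ((mid g).succAbove i))) from rfl, h3]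
      ring
    have h7 := mul_left_cancel₀ X_ne_zero h6
    rw [h7, Polynomial.map_mul, map_C, eq_ratCast]
    push_cast
    rfl

theorem fewC_cheb {g : ℕ} (hg : 2 ≤ g) : FewC (2 * g - 2) (Matrix.of (cper (er (ach g) (mid g) 0))) := by
  classical
  have hn : Even (2 * g) := even_two_mul g
  obtain ⟨f, hf1, hf⟩ := exists_f g
  have hmono : StrictMono (er (ach g) (mid g) 0) := by
    rw [er_ach]
    exact nd_mono _
  have ha : StrictMono (ach g) := (inGap_of_er hmono).1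
  have h0 : InGap (ach g) (mid g) 0 := (inGap_of_er hmono).2
  choose R hR1 hR2 using trig
  set n := 2 * g with hng
  set L : Matrix (Fin n) (Fin n) ℂ := Matrix.of fun l j => Pool.Agent.Y118.HP.dl l * (((√(2 ^ n) : ℝ)) : ℂ) *
    (((Real.sin (((((j : ℕ) + 1) * ((l : ℕ) + 1) : ℕ) : ℝ) * Real.pi / ((n + 1 : ℕ) : ℝ)) : ℝ)) : ℂ) with hL
  set R0 : Matrix (Fin n) (Fin n) ℂ := Matrix.of fun j i => ((R i j : ℚ) : ℂ) with hR0
  set A : Fin n → ℂ := fun j => ((Aj (n + 1) j : ℝ) : ℂ) with hA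
  have hfac : Matrix.of (cper (er (ach g) (mid g) 0)) = L * diagonal A * R0 := by
    ext l i
    rw [Matrix.of_apply, er_ach, cper_eq hn (nd_mono n), per_sum hn R hR1 hR2, Matrix.mul_apply]
    push_cast
    rw [Finset.mul_sum, Finset.mul_sum]
    refine Finset.sum_congr rfl fun j _ => ?_
    rw [mul_diagonal, hL, hR0, hA, Matrix.of_apply, Matrix.of_apply]
    have h1 : (((j : ℕ) : ℝ) + 1) * ((((l : ℕ) : ℝ) + 1) * Real.pi / (((n : ℕ) : ℝ) + 1)) =
        ((((j : ℕ) + 1) * ((l : ℕ) + 1) : ℕ) : ℝ) * Real.pi / ((n + 1 : ℕ) : ℝ) := by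
      push_cast
      ring
    have h2 : ((((j : ℕ) : ℂ) + 1) * ((((l : ℕ) : ℂ) + 1) * (Real.pi : ℂ) / (((n : ℕ) : ℂ) + 1))) =
        (((((j : ℕ) + 1) * ((l : ℕ) + 1) : ℕ) : ℂ)) * (Real.pi : ℂ) / (((n + 1 : ℕ)) : ℂ) := by
      push_cast
      ring
    push_cast at h2 ⊢
    rw [h2]
    ring
  rw [hfac]
  have hCM := CM_mem hn ha hf (t := 0) (by simpa using h0)
  have hcc : CM (ach g) (mid g) ((0 : ℚ) : ℝ) = L * diagonal A * R0 := by
    rw [← hfac, Rat.cast_zero]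
    rfl
  rw [hcc] at hCM
  have hpi : (2 * Real.pi * Complex.I : ℂ) ≠ 0 := by
    have h2 : (Real.pi : ℂ) ≠ 0 := by exact_mod_cast Real.pi_ne_zero
    exact mul_ne_zero (mul_ne_zero two_ne_zero h2) Complex.I_ne_zero
  have hrat : ∀ q : ℚ, IsAlgebraic ℚ ((q : ℚ) : ℂ) := fun q => isAlgebraic_algebraMap (R := ℚ) (A := ℂ) q
  refine fewC_of_factor (by omega) hpi ?_ ?_ ?_ ?_ ?_ ?_ hCM
  · intro l j
    rw [hL, Matrix.of_apply]
    exact ((alg_dl l).mul (alg_sqrt n)).mul (alg_sin _ _)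
  · intro j i
    exact hrat _
  · intro i j
    rw [Matrix.smul_apply, smul_eq_mul, Matrix.map_apply]
    have h1 : (-1 / 2 : ℂ) = (((-1 / 2 : ℚ)) : ℂ) := by push_cast; ring
    have h2 : ((0 : ℚ) : ℂ) = algebraMap ℚ ℂ 0 := by simp
    rw [h1, h2, aeval_algebraMap_apply]
    exact (hrat _).mul (isAlgebraic_algebraMap _)
  · intro i j
    unfold jm
    rw [Matrix.of_apply]
    split_ifs
    · have h1 : (-(-1 : ℂ) ^ (i : ℕ)) = (((-(-1) ^ (i : ℕ) : ℚ)) : ℂ) := by push_cast; ring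
      rw [h1]
      exact hrat _
    · exact isAlgebraic_zero
  · -- the form is alternating
    have h1 : (Qp n f)ᵀ = -Qp n f := by
      ext1 i j
      rw [transpose_apply, Matrix.neg_apply]
      have h2 := Pool.Agent.Y118.HG.exists_triv1 hn (f := f) (by
        have h3 : (f.map (algebraMap ℚ ℝ)).natDegree = n := by
          rw [hf, natDegree_prod_of_monic _ _ fun i _ => monic_X_sub_C _]
          simp only [natDegree_X_sub_C, Finset.sum_const, Finset.card_univ, Fintype.card_fin, smul_eq_mul, mul_one]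
          exact hng.symm
        rwa [natDegree_map] at h3) (by
        have h3 : (f.map (algebraMap ℚ ℝ)).Monic := by
          rw [hf]; exact monic_prod_of_monic _ _ fun i _ => monic_X_sub_C _
        exact (Polynomial.monic_map_iff).1 h3)
      obtain ⟨U, V, -, -, hV⟩ := h2
      have h4 : (Qp n f)ᵀ = -Qp n f := by
        rw [← hV, transpose_mul, transpose_mul, transpose_transpose, Pool.Agent.Y118.HG.jm_transpose', Matrix.neg_mul,
          Matrix.mul_neg, Matrix.mul_assoc]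
      exact congrFun (congrFun h4 i) j
    ext i j
    rw [transpose_smul, Matrix.smul_apply, Matrix.neg_apply, Matrix.smul_apply, transpose_apply, Matrix.map_apply,
      Matrix.map_apply]
    have h2 := congrFun (congrFun h1 i) j
    rw [transpose_apply, Matrix.neg_apply] at h2
    rw [h2, map_neg, smul_neg]
  · exact (jm_det hn)

theorem cheb_all {g : ℕ} (hg : 2 ≤ g) {f : ℚ[X]} (hf : f.map (algebraMap ℚ ℝ) = ∏ i, (X - C (ach g i))) :
    ∃ G0 : ℕ, ∀ N D : ℕ, 0 < N → ∃ E : ℕ, ∀ t : Fin N → ℕ, (∀ i j, i ≠ j → (G0 : ℤ) ≤ |(t i : ℤ) - t j|) →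
      (∀ i j, (t i - t j + 2) ^ E ≤ t j) → (∀ j, StrictMono (er (ach g) (mid g) (1 / (t j : ℝ)))) ∧
      ∀ K : Subfield ℂ, FiniteDimensional ℚ K → finrank ℚ K ≤ D →
        Pool.Agent.Y123.ST.Om K (blockDiagonal fun j => Matrix.of (cper (er (ach g) (mid g) (1 / (t j : ℝ)))))
          (Pool.Agent.Y123.ST.TB fun j => (qm (2 * g) (f * (X - C (1 / (t j : ℚ))))).map (algebraMap ℚ ℂ)) := by
  refine hyp_all (even_two_mul g) (by omega) hf ?_ (fewC_cheb hg)
  rw [er_ach]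
  exact nd_mono _

end Pool.Agent.Helper880_LF.NB
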