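import Pool.Agent.Helper880_LF.Sp

/-!
# Subalgebras of small codimension of the symplectic Lie algebra stabilise no subspace
-/

set_option autoImplicit false
set_option linter.unusedSectionVars false
set_option linter.unusedVariables false

open Matrix Module

namespace Pool.Agent.Helper880_LF

variable {F : Type} [Field F] [CharZero F] {n : ℕ} {J : Matrix (Fin n) (Fin n) F}

/-- a general count -/
theorem count {V M : Type} [AddCommGroup V] [Module F V] [FiniteDimensional F V] [AddCommGroup M] [Module F M]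
    [FiniteDimensional F M] (f : V →ₗ[F] M) {𝔰 𝔫 : Submodule F M} (h𝔫 : 𝔫 ≤ 𝔰) (hf : ∀ v, f v ∈ 𝔰) :
    finrank F V + finrank F 𝔫 ≤ finrank F 𝔰 + finrank F (𝔫.comap f) := by
  have h1 := LinearMap.finrank_range_add_finrank_ker (𝔫.mkQ ∘ₗ f)
  have h2 : LinearMap.ker (𝔫.mkQ ∘ₗ f) = 𝔫.comap f := by
    ext v
    rw [LinearMap.mem_ker, LinearMap.comp_apply, Submodule.mkQ_apply, Submodule.Quotient.mk_eq_zero, Submodule.mem_comap]
  rw [h2] at h1
  have h3 : LinearMap.range (𝔫.mkQ ∘ₗ f) ≤ 𝔰.map 𝔫.mkQ := by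
    rintro _ ⟨v, rfl⟩
    exact ⟨f v, hf v, rfl⟩
  have h4 := Submodule.finrank_mono h3
  have h5 : finrank F (𝔰.map 𝔫.mkQ) + finrank F 𝔫 = finrank F 𝔰 := by
    have h6 := LinearMap.finrank_range_add_finrank_ker (𝔫.mkQ.domRestrict 𝔰)
    have h7 : LinearMap.range (𝔫.mkQ.domRestrict 𝔰) = 𝔰.map 𝔫.mkQ := by
      ext x
      constructor
      · rintro ⟨y, rfl⟩
        exact ⟨y.1, y.2, rfl⟩
      · rintro ⟨y, hy, rfl⟩
        exact ⟨⟨y, hy⟩, rfl⟩
    have h8 : LinearMap.ker (𝔫.mkQ.domRestrict 𝔰) = 𝔫.comap 𝔰.subtype := by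
      ext x
      rw [LinearMap.mem_ker, LinearMap.domRestrict_apply, Submodule.mkQ_apply, Submodule.Quotient.mk_eq_zero,
        Submodule.mem_comap]
      rfl
    rw [h7, h8] at h6
    have h9 : finrank F (𝔫.comap 𝔰.subtype) = finrank F 𝔫 :=
      (Submodule.comapSubtypeEquivOfLe h𝔫).finrank_eq
    rw [h9] at h6
    exact h6
  omega

/-- `X ↦ (X u, X u')` -/
noncomputable def f2 (J : Matrix (Fin n) (Fin n) F) (u u' : Fin n → F) :
    ((Fin n → F) × (Fin n → F)) →ₗ[F] Matrix (Fin n) (Fin n) F where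
  toFun w := pr J w.1 u + pr J w.2 u'
  map_add' w w' := by
    rw [Prod.fst_add, Prod.snd_add, pr_add_left, pr_add_left]
    abel
  map_smul' c w := by
    rw [Prod.smul_fst, Prod.smul_snd, pr_smul_left, pr_smul_left, smul_add]
    rfl

/-- `w ↦ w u` -/
noncomputable def f1 (J : Matrix (Fin n) (Fin n) F) (u : Fin n → F) : (Fin n → F) →ₗ[F] Matrix (Fin n) (Fin n) F where
  toFun w := pr J w u
  map_add' w w' := pr_add_left _ _ _
  map_smul' c w := pr_smul_left _ _ _

/-- the orthogonal complement -/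
def orth (J : Matrix (Fin n) (Fin n) F) (S : Submodule F (Fin n → F)) : Submodule F (Fin n → F) where
  carrier := {v | ∀ s ∈ S, om J s v = 0}
  zero_mem' := fun s _ => om_zero_right s
  add_mem' := by
    intro a b ha hb s hs
    rw [om_add_right, ha s hs, hb s hs, add_zero]
  smul_mem' := by
    intro c a ha s hs
    rw [om_smul_right, ha s hs, mul_zero]

theorem mem_orth {S : Submodule F (Fin n → F)} {v : Fin n → F} : v ∈ orth J S ↔ ∀ s ∈ S, om J s v = 0 := Iff.rfl

/-- the dimension of the orthogonal complement is at least the complementary dimension -/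
theorem orth_ge (S : Submodule F (Fin n → F)) : n ≤ finrank F S + finrank F (orth J S) := by
  let f : (Fin n → F) →ₗ[F] (Dual F S) :=
    { toFun := fun v =>
        { toFun := fun s => om J s.1 v
          map_add' := fun a b => om_add_left _ _ _
          map_smul' := fun c a => om_smul_left _ _ _ }
      map_add' := fun v w => by
        ext s
        exact om_add_right _ _ _
      map_smul' := fun c v => by
        ext s
        exact om_smul_right _ _ _ }
  have h1 := LinearMap.finrank_range_add_finrank_ker f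
  have h2 : LinearMap.ker f = orth J S := by
    ext v
    rw [LinearMap.mem_ker, mem_orth]
    constructor
    · intro h s hs
      exact LinearMap.congr_fun h ⟨s, hs⟩
    · intro h
      ext s
      exact h s.1 s.2
  rw [h2, finrank_fin_fun] at h1
  have h3 : finrank F (LinearMap.range f) ≤ finrank F (Dual F S) := Submodule.finrank_le _
  rw [Subspace.dual_finrank_eq] at h3
  omega

/-- the dimension of the orthogonal complement is at most the complementary dimension -/
theorem orth_le (hJ : Jᵀ = -J) (hdet : IsUnit J.det) (S : Submodule F (Fin n → F)) :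
    finrank F S + finrank F (orth J S) ≤ n := by
  let f : S →ₗ[F] (Dual F ((Fin n → F) ⧸ orth J S)) :=
    { toFun := fun s => (orth J S).liftQ
        { toFun := fun v => om J s.1 v
          map_add' := fun a b => om_add_right _ _ _
          map_smul' := fun c a => om_smul_right _ _ _ } (by
            intro v hv
            exact hv s.1 s.2)
      map_add' := fun a b => by
        apply LinearMap.ext
        intro q
        obtain ⟨v, rfl⟩ := Submodule.Quotient.mk_surjective _ q
        exact om_add_left _ _ _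
      map_smul' := fun c a => by
        apply LinearMap.ext
        intro q
        obtain ⟨v, rfl⟩ := Submodule.Quotient.mk_surjective _ q
        exact om_smul_left _ _ _ }
  have h1 : Function.Injective f := by
    rw [injective_iff_map_eq_zero]
    intro s hs
    apply Subtype.ext
    refine om_nondeg hdet fun u => ?_
    have h2 := LinearMap.congr_fun hs (Submodule.Quotient.mk u)
    have h3 : om J s.1 u = 0 := h2
    rw [om_swap hJ, h3, neg_zero]
  have h2 := LinearMap.finrank_le_finrank_of_injective h1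
  rw [Subspace.dual_finrank_eq] at h2
  have h3 := Submodule.finrank_quotient_add_finrank (orth J S)
  rw [finrank_fin_fun] at h3
  omega

/-- **isotropic subspaces** -/
theorem iso_codim (hJ : Jᵀ = -J) (hdet : IsUnit J.det) {𝔫 : Submodule F (Matrix (Fin n) (Fin n) F)} (h𝔫 : 𝔫 ≤ spS J)
    {S : Submodule F (Fin n → F)} (hS : S ≠ ⊥) (hiso : ∀ a ∈ S, ∀ b ∈ S, om J a b = 0)
    (hst : ∀ X ∈ 𝔫, ∀ s ∈ S, X *ᵥ s ∈ S) : n - 1 + finrank F 𝔫 ≤ finrank F (spS J) := by
  obtain ⟨v, hvS, hv0⟩ := (Submodule.ne_bot_iff S).1 hS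
  by_cases hcase : S ≤ Submodule.span F {v}
  · -- a line
    obtain ⟨u, hu⟩ : ∃ u, om J u v = 1 := by
      obtain ⟨y, hy⟩ : ∃ y, om J y v ≠ 0 := by
        by_contra hcon
        push Not at hcon
        exact hv0 (om_nondeg hdet hcon)
      exact ⟨(om J y v)⁻¹ • y, by rw [om_smul_left, inv_mul_cancel₀ hy]⟩
    have h1 := count (f1 J u) h𝔫 fun w => pr_mem hJ w u
    have h2 : 𝔫.comap (f1 J u) ≤ S := by
      intro w hw
      have h3 : pr J w u *ᵥ v ∈ S := hst _ hw v hvS
      rw [pr_mulVec, hu, one_smul] at h3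
      have h4 := hiso v hvS _ h3
      rw [om_add_right, om_smul_right, om_swap hJ v w, om_swap hJ v u, hu] at h4
      have h5 : (2 : F) * om J w v = 0 := by linear_combination -h4
      have h6 := (mul_eq_zero.1 h5).resolve_left two_ne_zero
      rw [h6, zero_smul, add_zero] at h3
      exact h3
    have h3 := Submodule.finrank_mono (h2.trans hcase)
    have h4 : finrank F (Submodule.span F {v}) ≤ 1 := (finrank_span_le_card ({v} : Set (Fin n → F))).trans (by simp)
    have h5 := Submodule.finrank_mono h𝔫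
    rw [finrank_fin_fun] at h1
    omega
  · obtain ⟨v', hv'S, hv'⟩ := Set.not_subset.1 hcase
    have hind : v ∉ Submodule.span F {v'} := by
      intro h
      obtain ⟨c, hc⟩ := Submodule.mem_span_singleton.1 h
      apply hv'
      have hc0 : c ≠ 0 := by
        rintro rfl
        rw [zero_smul] at hc
        exact hv0 hc.symm
      refine Submodule.mem_span_singleton.2 ⟨c⁻¹, ?_⟩
      rw [← hc, smul_smul, inv_mul_cancel₀ hc0, one_smul]
    obtain ⟨u, hu1, hu2⟩ := exists_sep hJ hdet hind
    obtain ⟨u', hu1', hu2'⟩ := exists_sep hJ hdet hv'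
    have h1 := count (f2 J u u') h𝔫 fun w => (spS J).add_mem (pr_mem hJ w.1 u) (pr_mem hJ w.2 u')
    have h2 : 𝔫.comap (f2 J u u') ≤ (LinearMap.range (S.subtype.prodMap S.subtype)) ⊔ Submodule.span F {((-u' : Fin n → F), u)} := by
      intro w hw
      obtain ⟨w, w'⟩ := w
      have h3 : (pr J w u + pr J w' u') *ᵥ v ∈ S := hst _ hw v hvS
      have h4 : (pr J w u + pr J w' u') *ᵥ v' ∈ S := hst _ hw v' hv'S
      rw [add_mulVec, pr_mulVec, pr_mulVec, hu1, hu2', one_smul, zero_smul, zero_add] at h3
      rw [add_mulVec, pr_mulVec, pr_mulVec, hu2, hu1', one_smul, zero_smul, zero_add] at h4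
      have e1 := hiso v hvS _ h3
      have e2 := hiso v' hv'S _ h3
      have e3 := hiso v' hv'S _ h4
      simp only [om_add_right, om_smul_right] at e1 e2 e3
      rw [om_swap hJ v w, om_swap hJ v u, hu1, om_swap hJ v u', hu2'] at e1
      rw [om_swap hJ v' w, om_swap hJ v' u, hu2, om_swap hJ v' u', hu1'] at e2
      rw [om_swap hJ v' w', om_swap hJ v' u, hu2, om_swap hJ v' u', hu1'] at e3
      have f1' : om J w v = 0 := by
        have h5 : (2 : F) * om J w v = 0 := by linear_combination -e1
        exact (mul_eq_zero.1 h5).resolve_left two_ne_zero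
      have f3' : om J w' v' = 0 := by
        have h5 : (2 : F) * om J w' v' = 0 := by linear_combination -e3
        exact (mul_eq_zero.1 h5).resolve_left two_ne_zero
      have f2' : om J w v' = -om J w' v := by linear_combination -e2
      rw [f1', zero_smul, add_zero] at h3
      rw [f3', zero_smul, add_zero, f2'] at h4
      refine Submodule.mem_sup.2 ⟨(w + om J w' v • u', -om J w' v • u + w'), ⟨(⟨_, h3⟩, ⟨_, h4⟩), rfl⟩,
        (om J w' v) • ((-u' : Fin n → F), u), Submodule.smul_mem _ _ (Submodule.mem_span_singleton_self _), ?_⟩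
      refine Prod.ext ?_ ?_
      · show w + om J w' v • u' + om J w' v • (-u') = w
        rw [smul_neg]
        abel
      · show -om J w' v • u + w' + om J w' v • u = w'
        rw [neg_smul]
        abel
    have h3 := Submodule.finrank_mono h2
    have h4 : finrank F ((LinearMap.range (S.subtype.prodMap S.subtype)) ⊔ Submodule.span F {((-u' : Fin n → F), u)} :
        Submodule F ((Fin n → F) × (Fin n → F))) ≤ finrank F S + finrank F S + 1 := by
      refine (Submodule.finrank_add_le_finrank_add_finrank _ _).trans ?_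
      have h5 : finrank F (Submodule.span F {((-u' : Fin n → F), u)}) ≤ 1 :=
        (finrank_span_le_card ({((-u' : Fin n → F), u)} : Set ((Fin n → F) × (Fin n → F)))).trans (by simp)
      have h6 := LinearMap.finrank_range_le (S.subtype.prodMap S.subtype)
      rw [finrank_prod] at h6
      omega
    have h7 : S ≤ orth J S := fun a ha s hs => hiso s hs a ha
    have h8 := Submodule.finrank_mono h7
    have h9 := orth_le hJ hdet S
    have h10 := Submodule.finrank_mono h𝔫
    rw [finrank_prod, finrank_fin_fun] at h1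
    omega

/-- **nondegenerate subspaces** -/
theorem nondeg_codim (hJ : Jᵀ = -J) (hdet : IsUnit J.det) {𝔫 : Submodule F (Matrix (Fin n) (Fin n) F)} (h𝔫 : 𝔫 ≤ spS J)
    {S : Submodule F (Fin n → F)} (hS : S ≠ ⊥) (hS' : orth J S ≠ ⊥) (hnd : ∀ a ∈ S, (∀ b ∈ S, om J b a = 0) → a = 0)
    (hst : ∀ X ∈ 𝔫, ∀ s ∈ S, X *ᵥ s ∈ S) : n + finrank F 𝔫 ≤ finrank F (spS J) := by
  have horth : ∀ {a b}, a ∈ S → b ∈ orth J S → om J b a = 0 := fun {a b} ha hb => by
    rw [om_swap hJ, hb a ha, neg_zero]
  have hnd' : ∀ b ∈ orth J S, b ∈ S → b = 0 := fun b hb hbS => hnd b hbS hb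
  -- the orthogonal complement is nondegenerate
  have hsum : ∀ b ∈ orth J S, (∀ c ∈ orth J S, om J c b = 0) → b = 0 := by
    intro b hb hbc
    have h1 : (S ⊔ orth J S : Submodule F (Fin n → F)) = ⊤ := by
      apply Submodule.eq_top_of_finrank_eq
      rw [finrank_fin_fun]
      have h2 := Submodule.finrank_sup_add_finrank_inf_eq S (orth J S)
      have h3 : S ⊓ orth J S = ⊥ := by
        rw [Submodule.eq_bot_iff]
        intro x hx
        exact hnd' x hx.2 hx.1
      rw [h3, finrank_bot] at h2
      have h4 := orth_ge (J := J) S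
      have h5 := orth_le hJ hdet S
      omega
    refine om_nondeg hdet fun u => ?_
    have hu : u ∈ (S ⊔ orth J S : Submodule F (Fin n → F)) := by rw [h1]; exact Submodule.mem_top
    obtain ⟨s, hs, c, hc, rfl⟩ := Submodule.mem_sup.1 hu
    rw [om_add_left, hb s hs, hbc c hc, add_zero]
  have pair : ∀ {T : Submodule F (Fin n → F)}, T ≠ ⊥ → (∀ a ∈ T, (∀ b ∈ T, om J b a = 0) → a = 0) →
      ∃ a ∈ T, ∃ a' ∈ T, om J a a' = 1 := by
    intro T hT hT'
    obtain ⟨a', ha', ha0⟩ := (Submodule.ne_bot_iff T).1 hT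
    obtain ⟨a, ha, hne⟩ : ∃ a ∈ T, om J a a' ≠ 0 := by
      by_contra hcon
      push Not at hcon
      exact ha0 (hT' a' ha' hcon)
    exact ⟨(om J a a')⁻¹ • a, T.smul_mem _ ha, a', ha', by rw [om_smul_left, inv_mul_cancel₀ hne]⟩
  have main : ∀ {T T' : Submodule F (Fin n → F)} (a a' : Fin n → F), a ∈ T → a' ∈ T → om J a a' = 1 →
      (∀ b ∈ T', om J b a = 0 ∧ om J b a' = 0) → (∀ b ∈ T', b ∈ T → b = 0) → (∀ X ∈ 𝔫, ∀ s ∈ T, X *ᵥ s ∈ T) →
      2 * finrank F T' + finrank F 𝔫 ≤ finrank F (spS J) := by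
    intro T T' a a' ha ha' haa hT' hTT hTst
    have h1 := count (f2 J a a' ∘ₗ (T'.subtype.prodMap T'.subtype)) h𝔫
      fun w => (spS J).add_mem (pr_mem hJ w.1.1 a) (pr_mem hJ w.2.1 a')
    have h2 : 𝔫.comap (f2 J a a' ∘ₗ (T'.subtype.prodMap T'.subtype)) = ⊥ := by
      rw [Submodule.eq_bot_iff]
      rintro ⟨⟨b, hb⟩, ⟨b', hb'⟩⟩ hw
      have hw' : pr J b a + pr J b' a' ∈ 𝔫 := hw
      have h3 := hTst _ hw' a ha
      have h4 := hTst _ hw' a' ha'
      rw [add_mulVec, pr_mulVec, pr_mulVec, om_self hJ, om_swap hJ a' a, haa, (hT' b hb).1, (hT' b' hb').1, zero_smul,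
        zero_smul, zero_smul, add_zero, add_zero, zero_add, neg_smul, one_smul] at h3
      rw [add_mulVec, pr_mulVec, pr_mulVec, om_self hJ, haa, (hT' b hb).2, (hT' b' hb').2, zero_smul, zero_smul,
        zero_smul, add_zero, add_zero, add_zero, one_smul] at h4
      have h5 := hTT b hb h4
      have h6 := hTT b' hb' (by simpa using T.neg_mem h3)
      simp only [Prod.mk_eq_zero]
      exact ⟨Subtype.ext h5, Subtype.ext h6⟩
    rw [h2, finrank_bot, finrank_prod] at h1
    omega
  obtain ⟨a, ha, a', ha', haa⟩ := pair hS hnd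
  obtain ⟨b, hb, b', hb', hbb⟩ := pair hS' hsum
  have k1 := main (T := S) (T' := orth J S) a a' ha ha' haa (fun c hc => ⟨horth ha hc, horth ha' hc⟩) hnd' hst
  have k2 := main (T := orth J S) (T' := S) b b' hb hb' hbb (fun c hc => ⟨hb c hc, hb' c hc⟩)
    (fun c hc hc' => hnd' c hc' hc) (by
      intro X hX c hc s hs
      have h1 := h𝔫 hX
      rw [mem_spS] at h1
      have h2 : om J s (X *ᵥ c) = -om J (X *ᵥ s) c := by
        have h4 : J * X = -(Xᵀ * J) := by rw [eq_neg_iff_add_eq_zero, add_comm]; exact h1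
        unfold om
        rw [mulVec_mulVec, h4, neg_mulVec, dotProduct_neg, dotProduct_mulVec, ← vecMul_vecMul, vecMul_transpose,
          ← dotProduct_mulVec]
      rw [h2, hc _ (hst X hX s hs), neg_zero])
  have k3 := orth_ge (J := J) S
  omega

end Pool.Agent.Helper880_LF
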