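import Pool.Agent.Helper880_LF.Step

/-!
# Ultraproducts of the Lie algebras of subtorsors
-/

set_option autoImplicit false
set_option linter.unusedSectionVars false
set_option linter.unusedVariables false

open Matrix Module Filter

namespace Pool.Agent.Helper880_LF

open Pool.Agent.Y118.UL (mk mk_eq mk_eq_zero mk_ne_zero mk_surj ev_ge eval_mk rep qc qc_mk algebraMap_eq U)
open Pool.Agent.Y118.HX (gm gm_apply gm_mul gm_one gm_surj gm_eq gm_neg gm_transpose gm_smul dm dm_mul)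
open Pool.Agent.TH119.DR Pool.Agent.TH119.MX Pool.Agent.TH127.PT Pool.Agent.Y123.ST Pool.Agent.Y123.GN

variable {n : ℕ}

theorem gm_ev {K : Type} [Field K] {F G : ℕ → Matrix (Fin n) (Fin n) K} :
    gm F = gm G ↔ ∀ᶠ t in (hyperfilter ℕ : Filter ℕ), F t = G t := by
  refine ⟨gm_eq, fun h => ?_⟩
  ext i j
  rw [gm_apply, gm_apply, mk_eq]
  filter_upwards [h] with t ht
  rw [ht]

theorem gm_add {K : Type} [Field K] (F G : ℕ → Matrix (Fin n) (Fin n) K) : gm (fun t => F t + G t) = gm F + gm G := by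
  ext i j
  rw [gm_apply, Matrix.add_apply, gm_apply, gm_apply, ← map_add]
  rfl

theorem gm_sub {K : Type} [Field K] (F G : ℕ → Matrix (Fin n) (Fin n) K) : gm (fun t => F t - G t) = gm F - gm G := by
  ext i j
  rw [gm_apply, Matrix.sub_apply, gm_apply, gm_apply, ← map_sub]
  rfl

theorem gm_pow {K : Type} [Field K] (F : ℕ → Matrix (Fin n) (Fin n) K) (J : ℕ) : gm (fun t => F t ^ J) = gm F ^ J := by
  induction J with
  | zero =>
    simp only [pow_zero]
    exact gm_one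
  | succ J ih =>
    simp only [pow_succ]
    rw [gm_mul, ih]

theorem gm_zero {K : Type} [Field K] : gm (fun _ => (0 : Matrix (Fin n) (Fin n) K)) = 0 := by
  ext i j
  rw [gm_apply, Matrix.zero_apply]
  exact map_zero (mk K)

/-- the ultraproduct of subspaces -/
def Lst (L : ℕ → Submodule ℂ (Fin n × Fin n → ℂ)) : Submodule (U ℂ) (Matrix (Fin n) (Fin n) (U ℂ)) where
  carrier := {Y | ∃ F : ℕ → Matrix (Fin n) (Fin n) ℂ, gm F = Y ∧ ∀ k, fl (F k) ∈ L k}
  zero_mem' := ⟨fun _ => 0, gm_zero, fun k => by rw [fl_zero]; exact (L k).zero_mem⟩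
  add_mem' := by
    rintro _ _ ⟨F, rfl, hF⟩ ⟨G, rfl, hG⟩
    exact ⟨fun t => F t + G t, gm_add F G, fun k => by rw [fl_add]; exact (L k).add_mem (hF k) (hG k)⟩
  smul_mem' := by
    rintro z _ ⟨F, rfl, hF⟩
    obtain ⟨c, rfl⟩ := mk_surj z
    exact ⟨fun t => c t • F t, gm_smul c F, fun k => by rw [fl_smul]; exact (L k).smul_mem _ (hF k)⟩

theorem mem_Lst {L : ℕ → Submodule ℂ (Fin n × Fin n → ℂ)} {F : ℕ → Matrix (Fin n) (Fin n) ℂ} :
    gm F ∈ Lst L ↔ ∀ᶠ k in (hyperfilter ℕ : Filter ℕ), fl (F k) ∈ L k := by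
  classical
  constructor
  · rintro ⟨G, hG, hGL⟩
    filter_upwards [gm_ev.1 hG] with k hk
    rw [← hk]
    exact hGL k
  · intro h
    refine ⟨fun k => if fl (F k) ∈ L k then F k else 0, gm_ev.2 ?_, fun k => ?_⟩
    · filter_upwards [h] with k hk
      rw [if_pos hk]
    · by_cases hk : fl (F k) ∈ L k
      · simp only [if_pos hk]
        exact hk
      · simp only [if_neg hk]
        rw [fl_zero]
        exact (L k).zero_mem

/-- duality -/
theorem Lst_dual {L : ℕ → Submodule ℂ (Fin n × Fin n → ℂ)} {Y : Matrix (Fin n) (Fin n) (U ℂ)}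
    (h : ∀ φ : ℕ → Matrix (Fin n) (Fin n) ℂ, (∀ k, ∀ Z : Matrix (Fin n) (Fin n) ℂ, fl Z ∈ L k → vx (φ k) Z = 0) →
      vx (gm φ) Y = 0) : Y ∈ Lst L := by
  classical
  obtain ⟨F, rfl⟩ := gm_surj Y
  rw [mem_Lst]
  by_contra hcon
  rw [← Ultrafilter.eventually_not] at hcon
  have h1 : ∀ k, ∃ φ : Matrix (Fin n) (Fin n) ℂ, (∀ Z : Matrix (Fin n) (Fin n) ℂ, fl Z ∈ L k → vx φ Z = 0) ∧
      (fl (F k) ∉ L k → vx φ (F k) ≠ 0) := by
    intro k
    by_cases hk : fl (F k) ∈ L k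
    · refine ⟨0, fun Z _ => ?_, fun h => absurd hk h⟩
      unfold vx
      simp
    · obtain ⟨f, hf1, hf2⟩ := Submodule.exists_le_ker_of_notMem hk
      have h2 : ∀ Z : Matrix (Fin n) (Fin n) ℂ, vx (Matrix.of fun i j => f (Pi.single (i, j) 1)) Z = f (fl Z) := by
        intro Z
        rw [func_eq f (fl Z), Fintype.sum_prod_type]
        rfl
      refine ⟨Matrix.of fun i j => f (Pi.single (i, j) 1), fun Z hZ => ?_, fun _ => ?_⟩
      · rw [h2]
        exact hf2 hZ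
      · rw [h2]
        exact hf1
  choose φ hφ1 hφ2 using h1
  have h3 := h φ hφ1
  have h4 : vx (gm φ) (gm F) = mk ℂ (fun k => vx (φ k) (F k)) := by
    unfold vx
    rw [Pool.Agent.Y118.HX.mk_sum]
    refine Finset.sum_congr rfl fun i _ => ?_
    rw [Pool.Agent.Y118.HX.mk_sum]
    refine Finset.sum_congr rfl fun j _ => ?_
    rw [Pool.Agent.Y118.HX.mk_mul']
    rfl
  rw [h4, mk_eq_zero] at h3
  obtain ⟨k, hk1, hk2⟩ := (h3.and hcon).exists
  exact hφ2 k hk2 hk1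

section
variable {A : Type} [Fintype A] {K : ℕ → Subfield ℂ} {D : ℕ} (hK : ∀ k, FiniteDimensional ℚ (K k)) (hD : ∀ k, finrank ℚ (K k) ≤ D)
  {T : ℕ → Set (Matrix (Fin n) (Fin n) ℂ)} (hT : ∀ k, IsSubtorsor (K k) (T k)) {c : ℕ → Matrix (Fin n) (Fin n) ℂ}
  (hc : ∀ k, c k ∈ T k)
include hK hD hT hc

/-- first order variation modulo the Lie algebras -/
theorem stepL {J : ℕ} (hJ : 1 ≤ J) (L : ℕ → Submodule ℂ (Fin n × Fin n → ℂ)) (M S M' : A → ℕ → Matrix (Fin n) (Fin n) ℂ)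
    (h : ∀ᶠ k in (hyperfilter ℕ : Filter ℕ), ∀ X ∈ T k,
      fl (∑ a, M a k * ((X * (c k)⁻¹) ^ J * S a k * (c k * X⁻¹) ^ J) * M' a k) ∈ L k)
    (δ : Derivation (U ℚ) (U ℂ) (U ℂ)) :
    ∑ a, gm (M a) * ((dm δ (gm c) * (gm c)⁻¹) * gm (S a) - gm (S a) * (dm δ (gm c) * (gm c)⁻¹)) * gm (M' a) ∈ Lst L := by
  classical
  refine Lst_dual fun φ hφ => ?_
  let Good : ℕ → Prop := fun k => ∀ X ∈ T k,
      fl (∑ a, M a k * ((X * (c k)⁻¹) ^ J * S a k * (c k * X⁻¹) ^ J) * M' a k) ∈ L k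
  have h1 := stepU (A := A) hK hD hT hc hJ (fun a k => if Good k then M a k else 0) S M' φ (by
    intro k X hX
    by_cases hk : Good k
    · simp only [if_pos hk]
      exact hφ k _ (hk X hX)
    · simp only [if_neg hk]
      unfold Gx vx
      simp) δ
  have h2 : ∀ a, gm (fun k => if Good k then M a k else 0) = gm (M a) := by
    intro a
    rw [gm_ev]
    filter_upwards [h] with k hk
    rw [if_pos]
    exact hk
  simp only [h2] at h1
  exact h1

/-- **normality** -/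
theorem normL (δ : Derivation (U ℚ) (U ℂ) (U ℂ)) {Y : Matrix (Fin n) (Fin n) (U ℂ)} (hY : Y ∈ Lst fun k => LL (T k)) :
    (dm δ (gm c) * (gm c)⁻¹) * Y - Y * (dm δ (gm c) * (gm c)⁻¹) ∈ Lst fun k => LL (T k) := by
  obtain ⟨F, rfl, hF⟩ := hY
  have h1 := stepL (A := Unit) hK hD hT hc le_rfl (fun k => LL (T k)) (fun _ _ => 1) (fun _ k => F k) (fun _ _ => 1)
    (Filter.Eventually.of_forall fun k X hX => by
      simp only [Finset.univ_unique, Finset.sum_singleton, pow_one, Matrix.one_mul, Matrix.mul_one]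
      have h2 := quot_LL (hT k) (hc k) hX (hF k)
      have h3 : X * (c k)⁻¹ * F k * (c k * X⁻¹) = X * ((c k)⁻¹ * F k * c k) * X⁻¹ := by simp only [Matrix.mul_assoc]
      rw [h3]
      exact h2) δ
  simp only [Finset.univ_unique, Finset.sum_singleton] at h1
  have h4 : gm (fun _ : ℕ => (1 : Matrix (Fin n) (Fin n) ℂ)) = 1 := gm_one
  rw [h4, Matrix.one_mul, Matrix.mul_one] at h1
  exact h1

/-- **commutators** -/
theorem commL (δ δ' : Derivation (U ℚ) (U ℂ) (U ℂ)) {s : Matrix (Fin n) (Fin n) (U ℂ)}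
    (hs : ∀ Y ∈ Lst fun k => LL (T k), Y * s - s * Y ∈ Lst fun k => LL (T k)) :
    (dm δ (gm c) * (gm c)⁻¹ * (dm δ' (gm c) * (gm c)⁻¹) - dm δ' (gm c) * (gm c)⁻¹ * (dm δ (gm c) * (gm c)⁻¹)) * s -
      s * (dm δ (gm c) * (gm c)⁻¹ * (dm δ' (gm c) * (gm c)⁻¹) - dm δ' (gm c) * (gm c)⁻¹ * (dm δ (gm c) * (gm c)⁻¹)) ∈
      Lst fun k => LL (T k) := by
  classical
  obtain ⟨J, hJ1, hcomm⟩ := comm_rel (n * n)
  set w := dm δ (gm c) * (gm c)⁻¹ with hw
  set w' := dm δ' (gm c) * (gm c)⁻¹ with hw'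
  obtain ⟨sk, rfl⟩ := gm_surj s
  obtain ⟨wk, hwk⟩ := gm_surj w
  -- the elements of the normaliser
  have hsk : ∀ᶠ k in (hyperfilter ℕ : Filter ℕ), ∀ Y : Matrix (Fin n) (Fin n) ℂ, fl Y ∈ LL (T k) →
      fl (Y * sk k - sk k * Y) ∈ LL (T k) := by
    by_contra hcon
    rw [← Ultrafilter.eventually_not] at hcon
    have h1 : ∀ k, ∃ Y : Matrix (Fin n) (Fin n) ℂ, fl Y ∈ LL (T k) ∧
        ((¬ ∀ Y : Matrix (Fin n) (Fin n) ℂ, fl Y ∈ LL (T k) → fl (Y * sk k - sk k * Y) ∈ LL (T k)) →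
          fl (Y * sk k - sk k * Y) ∉ LL (T k)) := by
      intro k
      by_cases hk : ∀ Y : Matrix (Fin n) (Fin n) ℂ, fl Y ∈ LL (T k) → fl (Y * sk k - sk k * Y) ∈ LL (T k)
      · exact ⟨0, by rw [fl_zero]; exact (LL (T k)).zero_mem, fun h => absurd hk h⟩
      · have hk' := hk
        push Not at hk'
        obtain ⟨Y, h1, h2⟩ := hk'
        exact ⟨Y, h1, fun _ => h2⟩
    choose Y hY1 hY2 using h1
    have h3 := hs (gm Y) ⟨Y, rfl, hY1⟩
    rw [← gm_mul, ← gm_mul, ← gm_sub, mem_Lst] at h3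
    obtain ⟨k, hk1, hk2⟩ := (h3.and hcon).exists
    exact hY2 k hk2 hk1
  have hrel : ∀ᶠ k in (hyperfilter ℕ : Filter ℕ), ∀ X ∈ T k, ∀ Y ∈ T k,
      fl ((X * (c k)⁻¹) ^ J * ((Y * (c k)⁻¹) ^ J * sk k * (c k * Y⁻¹) ^ J) * (c k * X⁻¹) ^ J -
        (Y * (c k)⁻¹) ^ J * ((X * (c k)⁻¹) ^ J * sk k * (c k * X⁻¹) ^ J) * (c k * Y⁻¹) ^ J) ∈ LL (T k) := by
    filter_upwards [hsk] with k hk
    have hcount : ((K k : Subfield ℂ) : Set ℂ).Countable := by
      have := hK k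
      refine (Algebraic.countable ℚ ℂ).mono fun x hx => ?_
      have h2 : IsAlgebraic ℚ (⟨x, hx⟩ : K k) := Algebra.IsAlgebraic.isAlgebraic _
      exact h2.algebraMap (A := ℂ)
    exact hcomm (Fin n) (by rw [Fintype.card_fin]) (K k) hcount (T k) (c k) (sk k) (hT k) (hc k) hk
  -- the first variation
  have hone : gm (fun _ : ℕ => (1 : Matrix (Fin n) (Fin n) ℂ)) = 1 := gm_one
  have key1 : ∀ Y : ℕ → Matrix (Fin n) (Fin n) ℂ, (∀ k, Y k ∈ T k) →
      gm (fun k => wk k * ((Y k * (c k)⁻¹) ^ J * sk k * (c k * (Y k)⁻¹) ^ J) -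
        ((Y k * (c k)⁻¹) ^ J * sk k * (c k * (Y k)⁻¹) ^ J) * wk k -
        (Y k * (c k)⁻¹) ^ J * (wk k * sk k - sk k * wk k) * (c k * (Y k)⁻¹) ^ J) ∈ Lst fun k => LL (T k) := by
    intro Y hY
    have h1 := stepL (A := Fin 2) hK hD hT hc hJ1 (fun k => LL (T k))
      (fun a k => if a = 0 then 1 else -(Y k * (c k)⁻¹) ^ J)
      (fun a k => if a = 0 then (Y k * (c k)⁻¹) ^ J * sk k * (c k * (Y k)⁻¹) ^ J else sk k)
      (fun a k => if a = 0 then 1 else (c k * (Y k)⁻¹) ^ J) (by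
        filter_upwards [hrel] with k hk X hX
        have h2 := hk X hX (Y k) (hY k)
        rw [Fin.sum_univ_two]
        simp only [if_true, if_false, Matrix.one_mul, Matrix.mul_one,
          show ((1 : Fin 2) = 0) = False from by simp, Matrix.neg_mul]
        rw [← sub_eq_add_neg]
        exact h2) δ
    rw [Fin.sum_univ_two] at h1
    simp only [if_true, show ((1 : Fin 2) = 0) = False from by simp, if_false] at h1
    rw [hone, Matrix.one_mul, Matrix.mul_one, ← hw, ← hwk, gm_neg, Matrix.neg_mul, Matrix.neg_mul,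
      ← sub_eq_add_neg] at h1
    simp only [← gm_mul, ← gm_sub] at h1
    exact h1
  have hrel2 : ∀ᶠ k in (hyperfilter ℕ : Filter ℕ), ∀ Y ∈ T k,
      fl (wk k * ((Y * (c k)⁻¹) ^ J * sk k * (c k * Y⁻¹) ^ J) -
        ((Y * (c k)⁻¹) ^ J * sk k * (c k * Y⁻¹) ^ J) * wk k -
        (Y * (c k)⁻¹) ^ J * (wk k * sk k - sk k * wk k) * (c k * Y⁻¹) ^ J) ∈ LL (T k) := by
    by_contra hcon
    rw [← Ultrafilter.eventually_not] at hcon
    have h1 : ∀ k, ∃ Y ∈ T k, ((¬ ∀ Y ∈ T k, fl (wk k * ((Y * (c k)⁻¹) ^ J * sk k * (c k * Y⁻¹) ^ J) -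
        ((Y * (c k)⁻¹) ^ J * sk k * (c k * Y⁻¹) ^ J) * wk k -
        (Y * (c k)⁻¹) ^ J * (wk k * sk k - sk k * wk k) * (c k * Y⁻¹) ^ J) ∈ LL (T k)) →
          fl (wk k * ((Y * (c k)⁻¹) ^ J * sk k * (c k * Y⁻¹) ^ J) -
        ((Y * (c k)⁻¹) ^ J * sk k * (c k * Y⁻¹) ^ J) * wk k -
        (Y * (c k)⁻¹) ^ J * (wk k * sk k - sk k * wk k) * (c k * Y⁻¹) ^ J) ∉ LL (T k)) := by
      intro k
      by_cases hk : ∀ Y ∈ T k, fl (wk k * ((Y * (c k)⁻¹) ^ J * sk k * (c k * Y⁻¹) ^ J) -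
        ((Y * (c k)⁻¹) ^ J * sk k * (c k * Y⁻¹) ^ J) * wk k -
        (Y * (c k)⁻¹) ^ J * (wk k * sk k - sk k * wk k) * (c k * Y⁻¹) ^ J) ∈ LL (T k)
      · exact ⟨c k, hc k, fun h => absurd hk h⟩
      · have hk' := hk
        push Not at hk'
        obtain ⟨Y, h1, h2⟩ := hk'
        exact ⟨Y, h1, fun _ => h2⟩
    choose Y hY1 hY2 using h1
    have h3 := key1 Y hY1
    rw [mem_Lst] at h3
    obtain ⟨k, hk1, hk2⟩ := (h3.and hcon).exists
    exact hY2 k hk2 hk1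
  -- the second variation
  have h1 := stepL (A := Fin 3) hK hD hT hc hJ1 (fun k => LL (T k))
      (fun a k => if a = 0 then wk k else -1)
      (fun a k => if a = 2 then wk k * sk k - sk k * wk k else sk k)
      (fun a k => if a = 1 then wk k else 1) (by
        filter_upwards [hrel2] with k hk X hX
        have h2 := hk X hX
        rw [Fin.sum_univ_three]
        simp only [if_true, show ((1 : Fin 3) = 0) = False from by simp, show ((2 : Fin 3) = 0) = False from by simp,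
          show ((0 : Fin 3) = 2) = False from by simp, show ((0 : Fin 3) = 1) = False from by simp,
          show ((1 : Fin 3) = 2) = False from by simp, show ((2 : Fin 3) = 1) = False from by simp, if_false,
          Matrix.mul_one, Matrix.neg_mul, Matrix.one_mul]
        rw [← sub_eq_add_neg, ← sub_eq_add_neg]
        exact h2) δ'
  rw [Fin.sum_univ_three] at h1
  simp only [if_true, show ((1 : Fin 3) = 0) = False from by simp, show ((2 : Fin 3) = 0) = False from by simp,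
          show ((0 : Fin 3) = 2) = False from by simp, show ((0 : Fin 3) = 1) = False from by simp,
          show ((1 : Fin 3) = 2) = False from by simp, show ((2 : Fin 3) = 1) = False from by simp, if_false] at h1
  have hneg : gm (fun _ : ℕ => (-1 : Matrix (Fin n) (Fin n) ℂ)) = -1 := by
    have := gm_neg (fun _ : ℕ => (1 : Matrix (Fin n) (Fin n) ℂ))
    rw [hone] at this
    exact this
  rw [hone, hneg, hwk, gm_sub, gm_mul, gm_mul, hwk, ← hw'] at h1
  have h2 : w * (w' * gm sk - gm sk * w') * 1 + -1 * (w' * gm sk - gm sk * w') * w +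
      -1 * (w' * (w * gm sk - gm sk * w) - (w * gm sk - gm sk * w) * w') * 1 =
      (w * w' - w' * w) * gm sk - gm sk * (w * w' - w' * w) := by noncomm_ring
  rw [h2] at h1
  exact h1

end

end Pool.Agent.Helper880_LF
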