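import Pool.Agent.Helper880_LF.LL
import Pool.Agent.Helper880_LF.Int

/-!
# The Lie algebras of subtorsors through products of a generic symplectic matrix and a matrix with few constants
-/

set_option autoImplicit false
set_option linter.unusedSectionVars false
set_option linter.unusedVariables false

open Matrix Module Filter

namespace Pool.Agent.Helper880_LF

section alg
variable {F : Type} [Field F] [CharZero F] [IsAlgClosed F] {n : ℕ} {J : Matrix (Fin n) (Fin n) F}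

theorem map_mkQ {M : Type} [AddCommGroup M] [Module F M] [FiniteDimensional F M] {𝔰 𝔫 : Submodule F M} (h𝔫 : 𝔫 ≤ 𝔰) :
    finrank F (𝔰.map 𝔫.mkQ) + finrank F 𝔫 = finrank F 𝔰 := by
  have h6 := LinearMap.finrank_range_add_finrank_ker (𝔫.mkQ.domRestrict 𝔰)
  have h7 : LinearMap.range (𝔫.mkQ.domRestrict 𝔰) = 𝔰.map 𝔫.mkQ := by
    ext x
    constructor
    · rintro ⟨y, rfl⟩
      exact ⟨y.1, y.2, rfl⟩
    · rintro ⟨y, hy, rfl⟩
      exact ⟨⟨y, hy⟩, rfl⟩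
  have h8 : LinearMap.ker (𝔫.mkQ.domRestrict 𝔰) = 𝔫.comap 𝔰.subtype := by
    ext x
    rw [LinearMap.mem_ker, LinearMap.domRestrict_apply, Submodule.mkQ_apply, Submodule.Quotient.mk_eq_zero,
      Submodule.mem_comap]
    rfl
  rw [h7, h8] at h6
  have h9 : finrank F (𝔫.comap 𝔰.subtype) = finrank F 𝔫 :=
    (Submodule.comapSubtypeEquivOfLe h𝔫).finrank_eq
  rw [h9] at h6
  exact h6

/-- the normaliser of a space of matrices -/
def nrm (W : Submodule F (Matrix (Fin n) (Fin n) F)) : Submodule F (Matrix (Fin n) (Fin n) F) where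
  carrier := {X | ∀ Y ∈ W, X * Y - Y * X ∈ W}
  zero_mem' := by
    intro Y _
    rw [Matrix.zero_mul, Matrix.mul_zero, sub_zero]
    exact W.zero_mem
  add_mem' := by
    intro X X' hX hX' Y hY
    have : (X + X') * Y - Y * (X + X') = (X * Y - Y * X) + (X' * Y - Y * X') := by
      rw [Matrix.add_mul, Matrix.mul_add]
      abel
    rw [this]
    exact W.add_mem (hX Y hY) (hX' Y hY)
  smul_mem' := by
    intro c X hX Y hY
    rw [Matrix.smul_mul, Matrix.mul_smul, ← smul_sub]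
    exact W.smul_mem c (hX Y hY)

theorem mem_nrm {W : Submodule F (Matrix (Fin n) (Fin n) F)} {X : Matrix (Fin n) (Fin n) F} :
    X ∈ nrm W ↔ ∀ Y ∈ W, X * Y - Y * X ∈ W := Iff.rfl

/-- **the algebraic core** -/
theorem alg_core (hn : 2 ≤ n) (hJ : Jᵀ = -J) (hdet : IsUnit J.det)
    (𝒬 : Submodule F (Matrix (Fin n) (Fin n) F × Matrix (Fin n) (Fin n) F)) (h1 : ∀ p ∈ 𝒬, p.1 ∈ spS J)
    (h2 : ∀ A ∈ spS J, ∃ E, (A, E) ∈ 𝒬) (𝒩 : Submodule F (Matrix (Fin n) (Fin n) F)) (h𝒩 : ∀ p ∈ 𝒬, p.2 ∈ 𝒩)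
    (hone : (1 : Matrix (Fin n) (Fin n) F) ∈ 𝒩) (hdim : finrank F 𝒩 ≤ n - 1) (W : Submodule F (Matrix (Fin n) (Fin n) F))
    (hF1 : ∀ p ∈ 𝒬, ∀ Y ∈ W, (p.1 + p.2) * Y - Y * (p.1 + p.2) ∈ W)
    (hF2 : ∀ p ∈ 𝒬, ∀ q ∈ 𝒬, ∀ s, (∀ Y ∈ W, Y * s - s * Y ∈ W) →
      ((p.1 + p.2) * (q.1 + q.2) - (q.1 + q.2) * (p.1 + p.2)) * s -
        s * ((p.1 + p.2) * (q.1 + q.2) - (q.1 + q.2) * (p.1 + p.2)) ∈ W) : spS J ≤ W := by
  have hne : (1 : Matrix (Fin n) (Fin n) F) ≠ 0 := by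
    intro h
    have h3 := congrFun (congrFun h ⟨0, by omega⟩) ⟨0, by omega⟩
    rw [Matrix.one_apply_eq, Matrix.zero_apply] at h3
    exact one_ne_zero h3
  -- the normaliser
  have honeN : (1 : Matrix (Fin n) (Fin n) F) ∈ nrm W := by
    intro Y _
    rw [Matrix.one_mul, Matrix.mul_one, sub_self]
    exact W.zero_mem
  have hsup : spS J ≤ nrm W ⊔ 𝒩 := by
    intro A hA
    obtain ⟨E, hE⟩ := h2 A hA
    refine Submodule.mem_sup.2 ⟨A + E, fun Y hY => hF1 _ hE Y hY, -E, 𝒩.neg_mem (h𝒩 _ hE), by abel⟩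
  have hcod : finrank F (spS J) ≤ finrank F (spS J ⊓ nrm W : Submodule F _) + (n - 2) := by
    have k1 := Submodule.finrank_sup_add_finrank_inf_eq (spS J) (nrm W)
    have k2 := Submodule.finrank_sup_add_finrank_inf_eq (nrm W) 𝒩
    have k3 : (spS J ⊔ nrm W : Submodule F _) ≤ nrm W ⊔ 𝒩 := sup_le hsup le_sup_left
    have k4 := Submodule.finrank_mono k3
    have k5 : 1 ≤ finrank F (nrm W ⊓ 𝒩 : Submodule F _) := by
      rw [Nat.one_le_iff_ne_zero, Ne, Submodule.finrank_eq_zero]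
      intro h
      have h3 : (1 : Matrix (Fin n) (Fin n) F) ∈ nrm W ⊓ 𝒩 := ⟨honeN, hone⟩
      rw [h] at h3
      exact hne ((Submodule.mem_bot F).1 h3)
    omega
  have hN : spS J ≤ nrm W := by
    refine (lie_full hJ hdet (𝔫 := spS J ⊓ nrm W) inf_le_left ?_ hcod hn).trans inf_le_right
    rintro x ⟨hx1, hx2⟩ y ⟨hy1, hy2⟩
    refine ⟨comm_mem hJ hx1 hy1, fun Y hY => ?_⟩
    have h3 : (x * y - y * x) * Y - Y * (x * y - y * x) =
        (x * (y * Y - Y * y) - (y * Y - Y * y) * x) - (y * (x * Y - Y * x) - (x * Y - Y * x) * y) := by noncomm_ring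
    rw [h3]
    exact W.sub_mem (hx2 _ (hy2 Y hY)) (hy2 _ (hx2 Y hY))
  -- the directions without constants
  let 𝔪 : Submodule F (Matrix (Fin n) (Fin n) F) :=
    { carrier := {A | ∃ z : F, (A, z • (1 : Matrix (Fin n) (Fin n) F)) ∈ 𝒬}
      zero_mem' := ⟨0, by rw [zero_smul]; exact 𝒬.zero_mem⟩
      add_mem' := by
        rintro A B ⟨z, hz⟩ ⟨z', hz'⟩
        refine ⟨z + z', ?_⟩
        rw [add_smul]
        exact 𝒬.add_mem hz hz'
      smul_mem' := by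
        rintro c A ⟨z, hz⟩
        refine ⟨c * z, ?_⟩
        rw [mul_smul]
        exact 𝒬.smul_mem c hz }
  have h𝔪 : 𝔪 ≤ spS J := by
    rintro A ⟨z, hz⟩
    exact h1 _ hz
  have hcod2 : finrank F (spS J) ≤ finrank F 𝔪 + (n - 2) := by
    let S1 : Submodule F (Matrix (Fin n) (Fin n) F) := Submodule.span F {1}
    let h : 𝒬 →ₗ[F] (Matrix (Fin n) (Fin n) F) ⧸ 𝔪 := 𝔪.mkQ ∘ₗ (LinearMap.fst F _ _) ∘ₗ 𝒬.subtype
    let g : 𝒬 →ₗ[F] (Matrix (Fin n) (Fin n) F) ⧸ S1 := S1.mkQ ∘ₗ (LinearMap.snd F _ _) ∘ₗ 𝒬.subtype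
    have hker : LinearMap.ker g ≤ LinearMap.ker h := by
      intro p hp
      rw [LinearMap.mem_ker] at hp ⊢
      have hp' : S1.mkQ p.1.2 = 0 := hp
      rw [Submodule.mkQ_apply, Submodule.Quotient.mk_eq_zero] at hp'
      obtain ⟨z, hz⟩ := Submodule.mem_span_singleton.1 hp'
      show 𝔪.mkQ p.1.1 = 0
      rw [Submodule.mkQ_apply, Submodule.Quotient.mk_eq_zero]
      refine ⟨z, ?_⟩
      rw [hz]
      exact p.2
    have r1 := LinearMap.finrank_range_add_finrank_ker h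
    have r2 := LinearMap.finrank_range_add_finrank_ker g
    have r3 := Submodule.finrank_mono hker
    have r4 : LinearMap.range g ≤ 𝒩.map S1.mkQ := by
      rintro _ ⟨p, rfl⟩
      exact ⟨p.1.2, h𝒩 _ p.2, rfl⟩
    have r5 : (spS J).map 𝔪.mkQ ≤ LinearMap.range h := by
      rintro _ ⟨A, hA, rfl⟩
      obtain ⟨E, hE⟩ := h2 A hA
      exact ⟨⟨(A, E), hE⟩, rfl⟩
    have r6 := Submodule.finrank_mono r4
    have r7 := Submodule.finrank_mono r5
    have r8 := map_mkQ (M := Matrix (Fin n) (Fin n) F) h𝔪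
    have hS1 : S1 ≤ 𝒩 := by
      rw [Submodule.span_singleton_le_iff_mem]
      exact hone
    have r9 := map_mkQ (M := Matrix (Fin n) (Fin n) F) hS1
    have r10 : finrank F S1 = 1 := finrank_span_singleton hne
    omega
  obtain ⟨A, ⟨z, hA⟩, B, ⟨z', hB⟩, hAB⟩ := NC hJ hdet h𝔪 hcod2 hn
  have hAsp : A ∈ spS J := h1 _ hA
  have hBsp : B ∈ spS J := h1 _ hB
  have hC : (A + z • (1 : Matrix (Fin n) (Fin n) F)) * (B + z' • (1 : Matrix (Fin n) (Fin n) F)) -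
      (B + z' • (1 : Matrix (Fin n) (Fin n) F)) * (A + z • (1 : Matrix (Fin n) (Fin n) F)) = A * B - B * A := by
    simp only [Matrix.add_mul, Matrix.mul_add, Matrix.smul_mul, Matrix.mul_smul, Matrix.one_mul, Matrix.mul_one, smul_add]
    rw [smul_comm z z']
    abel
  obtain ⟨s, hs, hs0⟩ : ∃ s ∈ spS J, (A * B - B * A) * s - s * (A * B - B * A) ≠ 0 := by
    by_contra hcon
    push Not at hcon
    have h3 := simple hJ hdet (𝔞 := Submodule.span F {A * B - B * A}) (fun x hx y hy => by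
      obtain ⟨c, rfl⟩ := Submodule.mem_span_singleton.1 hy
      have h4 := hcon x hx
      rw [Matrix.mul_smul, Matrix.smul_mul, ← smul_sub]
      have h5 : x * (A * B - B * A) - (A * B - B * A) * x = 0 := by
        rw [← neg_sub, h4, neg_zero]
      rw [h5, smul_zero]
      exact Submodule.zero_mem _) (Submodule.mem_span_singleton_self _) (comm_mem hJ hAsp hBsp) hAB
    obtain ⟨a, ha⟩ := Submodule.mem_span_singleton.1 (h3 hAsp)
    obtain ⟨b, hb⟩ := Submodule.mem_span_singleton.1 (h3 hBsp)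
    apply hAB
    have h4 : ∀ Y : Matrix (Fin n) (Fin n) F, (a • Y) * (b • Y) - (b • Y) * (a • Y) = 0 := by
      intro Y
      rw [Matrix.smul_mul, Matrix.mul_smul, Matrix.smul_mul, Matrix.mul_smul, smul_comm a b, sub_self]
    have h5 := h4 (A * B - B * A)
    rw [ha, hb] at h5
    exact h5
  have hsW := hF2 _ hA _ hB s fun Y hY => by
    have h3 := W.neg_mem (hN hs Y hY)
    rwa [neg_sub] at h3
  simp only at hsW
  rw [hC] at hsW
  exact simple hJ hdet (fun x hx y hy => hN hx y hy) hsW (comm_mem hJ (comm_mem hJ hAsp hBsp) hs) hs0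

end alg

open Pool.Agent.Y118.UL (mk mk_eq mk_eq_zero mk_ne_zero mk_surj ev_ge eval_mk rep qc qc_mk algebraMap_eq U)
open Pool.Agent.Y118.HX (gm gm_apply gm_mul gm_one gm_surj gm_eq gm_neg gm_transpose gm_smul gm_map gm_unit dm dm_mul
  dm_const dm_transpose Generic der_uv)
open Pool.Agent.Y119.HY (cm)
open Pool.Agent.TH119.DR Pool.Agent.TH119.MX Pool.Agent.TH127.PT Pool.Agent.Y123.ST Pool.Agent.Y123.GN

variable {n : ℕ}

/-- **The core theorem.** -/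
theorem core (hn : 2 ≤ n) {J : Matrix (Fin n) (Fin n) ℚ} (hJ : (cm J)ᵀ = -cm J) (hJd : (cm J).det ≠ 0)
    {z : ℕ → Matrix (Fin n) (Fin n) ℂ} (hz : ∀ k, (z k)ᵀ * cm J * z k = cm J)
    (hgen : Generic (U ℚ) ((gm fun _ => J).map (algebraMap (U ℚ) (U ℂ))) (gm z))
    {K : ℕ → Subfield ℂ} {D : ℕ} (hK : ∀ k, FiniteDimensional ℚ (K k)) (hD : ∀ k, finrank ℚ (K k) ≤ D)
    {C : ℕ → Matrix (Fin n) (Fin n) ℂ} (hC : ∀ k, (C k).det ≠ 0)
    (𝒩 : Submodule (U ℂ) (Matrix (Fin n) (Fin n) (U ℂ))) (hone : (1 : Matrix (Fin n) (Fin n) (U ℂ)) ∈ 𝒩)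
    (hdim : finrank (U ℂ) 𝒩 ≤ n - 1) (h𝒩 : ∀ δ : Derivation (U ℚ) (U ℂ) (U ℂ), (gm C)⁻¹ * dm δ (gm C) ∈ 𝒩)
    {T : ℕ → Set (Matrix (Fin n) (Fin n) ℂ)} (hT : ∀ k, IsSubtorsor (K k) (T k)) (hc : ∀ k, C k * z k ∈ T k) :
    ∀ᶠ k in (hyperfilter ℕ : Filter ℕ), ∀ X ∈ spS (cm J), fl (C k * X * (C k)⁻¹) ∈ LL (T k) := by
  classical
  set x := gm z with hx
  set Cs := gm C with hCs
  set JU : Matrix (Fin n) (Fin n) (U ℂ) := gm (fun _ => cm J) with hJU
  have hJU' : (gm fun _ => J).map (algebraMap (U ℚ) (U ℂ)) = JU := gm_map _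
  rw [hJU'] at hgen
  have hJs : JUᵀ = -JU := by
    rw [hJU, ← gm_transpose, ← gm_neg]
    congr 1
    funext _
    exact hJ
  have hJu : IsUnit JU.det := gm_unit fun _ => hJd
  have hxJ : xᵀ * JU * x = JU := by
    rw [hx, hJU, ← gm_transpose, ← gm_mul, ← gm_mul]
    congr 1
    funext k
    exact hz k
  have hxu : IsUnit x.det := gm_unit fun k => by
    intro h0
    have h1 := congrArg Matrix.det (hz k)
    rw [det_mul, h0, mul_zero] at h1
    exact hJd h1.symm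
  have hCu : IsUnit Cs.det := gm_unit hC
  have hxx : x * x⁻¹ = 1 := mul_nonsing_inv _ hxu
  have hxx' : x⁻¹ * x = 1 := nonsing_inv_mul _ hxu
  have hCC : Cs * Cs⁻¹ = 1 := mul_nonsing_inv _ hCu
  have hCC' : Cs⁻¹ * Cs = 1 := nonsing_inv_mul _ hCu
  have hJx : JU * x⁻¹ = xᵀ * JU := by
    calc JU * x⁻¹ = (xᵀ * JU * x) * x⁻¹ := by rw [hxJ]
      _ = xᵀ * JU := by rw [Matrix.mul_assoc, hxx, Matrix.mul_one]
  -- the derivations
  let 𝒬 : Submodule (U ℂ) (Matrix (Fin n) (Fin n) (U ℂ) × Matrix (Fin n) (Fin n) (U ℂ)) :=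
    { carrier := {p | ∃ δ : Derivation (U ℚ) (U ℂ) (U ℂ), dm δ x = p.1 * x ∧ dm δ Cs = Cs * p.2}
      zero_mem' := ⟨0, by
        constructor
        · ext i j
          simp [dm]
        · ext i j
          simp [dm]⟩
      add_mem' := by
        rintro p q ⟨δ, h1, h2⟩ ⟨δ', h1', h2'⟩
        refine ⟨δ + δ', ?_, ?_⟩
        · have h3 : dm (δ + δ') x = dm δ x + dm δ' x := by
            ext i j
            simp [dm]
          rw [h3, h1, h1', Prod.fst_add, Matrix.add_mul]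
        · have h3 : dm (δ + δ') Cs = dm δ Cs + dm δ' Cs := by
            ext i j
            simp [dm]
          rw [h3, h2, h2', Prod.snd_add, Matrix.mul_add]
      smul_mem' := by
        rintro a p ⟨δ, h1, h2⟩
        refine ⟨a • δ, ?_, ?_⟩
        · have h3 : dm (a • δ) x = a • dm δ x := by
            ext i j
            simp [dm]
          rw [h3, h1, Prod.smul_fst, Matrix.smul_mul]
        · have h3 : dm (a • δ) Cs = a • dm δ Cs := by
            ext i j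
            simp [dm]
          rw [h3, h2, Prod.smul_snd, Matrix.mul_smul] }
  have hP1 : ∀ p ∈ 𝒬, p.1 ∈ spS JU := by
    rintro p ⟨δ, h1, -⟩
    rw [mem_spS]
    have h2 := congrArg (dm δ) hxJ
    have h3 : dm δ JU = 0 := by
      rw [← hJU']
      exact dm_const δ _
    rw [dm_mul, dm_mul, h3, Matrix.mul_zero, add_zero, dm_transpose, h1, transpose_mul] at h2
    have h4 : xᵀ * (p.1ᵀ * JU + JU * p.1) * x = 0 := by
      rw [← h2]
      simp only [Matrix.mul_add, Matrix.add_mul, Matrix.mul_assoc]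
    have hxt : IsUnit xᵀ.det := by rw [det_transpose]; exact hxu
    calc p.1ᵀ * JU + JU * p.1 = (xᵀ⁻¹ * xᵀ) * (p.1ᵀ * JU + JU * p.1) * (x * x⁻¹) := by
          rw [nonsing_inv_mul _ hxt, hxx, Matrix.one_mul, Matrix.mul_one]
      _ = xᵀ⁻¹ * (xᵀ * (p.1ᵀ * JU + JU * p.1) * x) * x⁻¹ := by simp only [Matrix.mul_assoc]
      _ = 0 := by rw [h4, Matrix.mul_zero, Matrix.zero_mul]
  have hP2 : ∀ A ∈ spS JU, ∃ E, (A, E) ∈ 𝒬 := by
    intro A hA
    let 𝔞 : Submodule (U ℂ) (Matrix (Fin n) (Fin n) (U ℂ)) :=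
      { carrier := {A | ∃ δ : Derivation (U ℚ) (U ℂ) (U ℂ), dm δ x = A * x}
        zero_mem' := ⟨0, by
          ext i j
          simp [dm]⟩
        add_mem' := by
          rintro p q ⟨δ, h1⟩ ⟨δ', h1'⟩
          refine ⟨δ + δ', ?_⟩
          have h3 : dm (δ + δ') x = dm δ x + dm δ' x := by
            ext i j
            simp [dm]
          rw [h3, h1, h1', Matrix.add_mul]
        smul_mem' := by
          rintro a p ⟨δ, h1⟩
          refine ⟨a • δ, ?_⟩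
          have h3 : dm (a • δ) x = a • dm δ x := by
            ext i j
            simp [dm]
          rw [h3, h1, Matrix.smul_mul] }
    have h1 : A ∈ 𝔞 := by
      refine mem_of_pr hJs hJu (fun u v => ?_) hA
      obtain ⟨δ, hδ⟩ := der_uv hJs hxJ hgen (x⁻¹ *ᵥ u) (x⁻¹ *ᵥ v)
      refine ⟨δ, ?_⟩
      have h2 : x * ((vecMulVec (x⁻¹ *ᵥ u) (x⁻¹ *ᵥ v) + vecMulVec (x⁻¹ *ᵥ v) (x⁻¹ *ᵥ u)) * JU) * x⁻¹ = pr JU u v := by
        have h3 : ∀ a b : Fin n → U ℂ, x * (vecMulVec (x⁻¹ *ᵥ a) (x⁻¹ *ᵥ b) * JU) * x⁻¹ = vecMulVec a b * JU := by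
          intro a b
          calc x * (vecMulVec (x⁻¹ *ᵥ a) (x⁻¹ *ᵥ b) * JU) * x⁻¹ =
              (x * vecMulVec (x⁻¹ *ᵥ a) (x⁻¹ *ᵥ b)) * (JU * x⁻¹) := by simp only [Matrix.mul_assoc]
            _ = (x * vecMulVec (x⁻¹ *ᵥ a) (x⁻¹ *ᵥ b) * xᵀ) * JU := by
              rw [hJx]
              simp only [Matrix.mul_assoc]
            _ = vecMulVec a b * JU := by
              rw [mul_vecMulVec, vecMulVec_mul, mulVec_mulVec, hxx, one_mulVec, vecMul_transpose, mulVec_mulVec, hxx,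
                one_mulVec]
        rw [Matrix.add_mul, Matrix.mul_add, Matrix.add_mul, h3, h3, ← Matrix.add_mul]
        rfl
      rw [hδ, ← h2, Matrix.mul_assoc (x * _), hxx', Matrix.mul_one]
    obtain ⟨δ, hδ⟩ := h1
    refine ⟨Cs⁻¹ * dm δ Cs, δ, hδ, ?_⟩
    show dm δ Cs = Cs * (Cs⁻¹ * dm δ Cs)
    rw [← Matrix.mul_assoc, hCC, Matrix.one_mul]
  -- the subspace
  let L : Submodule (U ℂ) (Matrix (Fin n) (Fin n) (U ℂ)) := Lst fun k => LL (T k)
  let W : Submodule (U ℂ) (Matrix (Fin n) (Fin n) (U ℂ)) :=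
    { carrier := {Y | Cs * Y * Cs⁻¹ ∈ L}
      zero_mem' := by
        show Cs * 0 * Cs⁻¹ ∈ L
        rw [Matrix.mul_zero, Matrix.zero_mul]
        exact L.zero_mem
      add_mem' := by
        intro a b ha hb
        show Cs * (a + b) * Cs⁻¹ ∈ L
        rw [Matrix.mul_add, Matrix.add_mul]
        exact L.add_mem ha hb
      smul_mem' := by
        intro c a ha
        show Cs * (c • a) * Cs⁻¹ ∈ L
        rw [Matrix.mul_smul, Matrix.smul_mul]
        exact L.smul_mem c ha }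
  have hcx : gm (fun k => C k * z k) = Cs * x := gm_mul _ _
  have hw : ∀ p ∈ 𝒬, ∃ δ : Derivation (U ℚ) (U ℂ) (U ℂ),
      dm δ (gm fun k => C k * z k) * (gm fun k => C k * z k)⁻¹ = Cs * (p.1 + p.2) * Cs⁻¹ := by
    rintro p ⟨δ, h1, h2⟩
    refine ⟨δ, ?_⟩
    rw [hcx, dm_mul, h1, h2, Matrix.mul_inv_rev]
    calc (Cs * p.2 * x + Cs * (p.1 * x)) * (x⁻¹ * Cs⁻¹) = Cs * (p.2 * (x * x⁻¹) + p.1 * (x * x⁻¹)) * Cs⁻¹ := by
          simp only [Matrix.add_mul, Matrix.mul_add, Matrix.mul_assoc]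
      _ = Cs * (p.1 + p.2) * Cs⁻¹ := by rw [hxx, Matrix.mul_one, Matrix.mul_one, add_comm p.2]
  have conj_comm : ∀ X Y : Matrix (Fin n) (Fin n) (U ℂ), Cs * (X * Y - Y * X) * Cs⁻¹ =
      (Cs * X * Cs⁻¹) * (Cs * Y * Cs⁻¹) - (Cs * Y * Cs⁻¹) * (Cs * X * Cs⁻¹) := by
    intro X Y
    have h1 : ∀ X Y : Matrix (Fin n) (Fin n) (U ℂ), (Cs * X * Cs⁻¹) * (Cs * Y * Cs⁻¹) = Cs * (X * Y) * Cs⁻¹ := by
      intro X Y
      calc (Cs * X * Cs⁻¹) * (Cs * Y * Cs⁻¹) = Cs * X * (Cs⁻¹ * Cs) * Y * Cs⁻¹ := by simp only [Matrix.mul_assoc]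
        _ = Cs * (X * Y) * Cs⁻¹ := by
          rw [hCC', Matrix.mul_one]
          simp only [Matrix.mul_assoc]
    rw [h1, h1, Matrix.mul_sub, Matrix.sub_mul]
  have hmain : spS JU ≤ W := by
    refine alg_core hn hJs hJu 𝒬 hP1 hP2 𝒩 ?_ hone hdim W ?_ ?_
    · rintro p ⟨δ, -, h2⟩
      have h3 := h𝒩 δ
      rw [h2, ← Matrix.mul_assoc, hCC', Matrix.one_mul] at h3
      exact h3
    · intro p hp Y hY
      obtain ⟨δ, hδ⟩ := hw p hp
      show Cs * _ * Cs⁻¹ ∈ L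
      rw [conj_comm, ← hδ]
      exact normL hK hD hT hc δ hY
    · intro p hp q hq s hs
      obtain ⟨δ, hδ⟩ := hw p hp
      obtain ⟨δ', hδ'⟩ := hw q hq
      show Cs * _ * Cs⁻¹ ∈ L
      rw [conj_comm, conj_comm, ← hδ, ← hδ']
      refine commL hK hD hT hc δ δ' fun Y hY => ?_
      have h1 : Y = Cs * (Cs⁻¹ * Y * Cs) * Cs⁻¹ := by
        calc Y = (Cs * Cs⁻¹) * Y * (Cs * Cs⁻¹) := by rw [hCC, Matrix.one_mul, Matrix.mul_one]
          _ = _ := by simp only [Matrix.mul_assoc]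
      rw [h1, ← conj_comm]
      refine hs _ ?_
      show Cs * (Cs⁻¹ * Y * Cs) * Cs⁻¹ ∈ L
      rw [← h1]
      exact hY
  -- back to the components
  by_contra hcon
  rw [← Ultrafilter.eventually_not] at hcon
  have h1 : ∀ k, ∃ X ∈ spS (cm J), (¬ ∀ X ∈ spS (cm J), fl (C k * X * (C k)⁻¹) ∈ LL (T k)) →
      fl (C k * X * (C k)⁻¹) ∉ LL (T k) := by
    intro k
    by_cases hk : ∀ X ∈ spS (cm J), fl (C k * X * (C k)⁻¹) ∈ LL (T k)
    · exact ⟨0, (spS (cm J)).zero_mem, fun h => absurd hk h⟩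
    · have hk' := hk
      push Not at hk'
      obtain ⟨Y, h1, h2⟩ := hk'
      exact ⟨Y, h1, fun _ => h2⟩
  choose X hX1 hX2 using h1
  have h2 : gm X ∈ spS JU := by
    rw [mem_spS, hJU, ← gm_transpose, ← gm_mul, ← gm_mul, ← gm_add, ← gm_zero]
    congr 1
    funext k
    exact hX1 k
  have h3 : Cs * gm X * Cs⁻¹ ∈ L := hmain h2
  have h4 : Cs⁻¹ = gm fun k => (C k)⁻¹ := by
    refine Matrix.inv_eq_right_inv ?_
    rw [hCs, ← gm_mul, ← gm_one]
    congr 1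
    funext k
    exact mul_nonsing_inv _ (isUnit_iff_ne_zero.2 (hC k))
  rw [h4, hCs, ← gm_mul, ← gm_mul] at h3
  have h5 := mem_Lst.1 h3
  obtain ⟨k, hk1, hk2⟩ := (h5.and hcon).exists
  exact hX2 k hk2 hk1

end Pool.Agent.Helper880_LF
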