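import Pool.Agent.Helper880_LF.LL
import Pool.Agent.Helper880_LF.Core

/-!
# The algebraic core for a block
-/

set_option autoImplicit false
set_option linter.unusedSectionVars false
set_option linter.unusedVariables false

open Matrix Module Filter

namespace Pool.Agent.Helper880_LF.NB

open Pool.Agent.Helper880_LF

variable {F : Type} [Field F] [CharZero F] [IsAlgClosed F] {n : ℕ} {J : Matrix (Fin n) (Fin n) F}
variable {B : Type} [Fintype B] [DecidableEq B]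

theorem cod_sup {M : Type} [AddCommGroup M] [Module F M] [FiniteDimensional F M] {S Nr 𝒩 : Submodule F M} {r : ℕ}
    (h : S ≤ Nr ⊔ 𝒩) {e : M} (he : e ≠ 0) (he1 : e ∈ Nr) (he2 : e ∈ 𝒩) (hd : finrank F 𝒩 ≤ r + 1) :
    finrank F S ≤ finrank F (S ⊓ Nr : Submodule F M) + r := by
  have k1 := Submodule.finrank_sup_add_finrank_inf_eq S Nr
  have k2 := Submodule.finrank_sup_add_finrank_inf_eq Nr 𝒩
  have k3 : (S ⊔ Nr : Submodule F M) ≤ Nr ⊔ 𝒩 := sup_le h le_sup_left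
  have k4 := Submodule.finrank_mono k3
  have k5 : 1 ≤ finrank F (Nr ⊓ 𝒩 : Submodule F M) := by
    rw [Nat.one_le_iff_ne_zero, Ne, Submodule.finrank_eq_zero]
    intro h
    have h3 : e ∈ Nr ⊓ 𝒩 := ⟨he1, he2⟩
    rw [h] at h3
    exact he ((Submodule.mem_bot F).1 h3)
  omega

/-- the normaliser of a space of matrices -/
def nrm (W : Submodule F (Matrix B B F)) : Submodule F (Matrix B B F) where
  carrier := {X | ∀ Y ∈ W, X * Y - Y * X ∈ W}
  zero_mem' := by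
    intro Y _
    rw [Matrix.zero_mul, Matrix.mul_zero, sub_zero]
    exact W.zero_mem
  add_mem' := by
    intro X X' hX hX' Y hY
    have : (X + X') * Y - Y * (X + X') = (X * Y - Y * X) + (X' * Y - Y * X') := by
      rw [Matrix.add_mul, Matrix.mul_add]
      abel
    rw [this]
    exact W.add_mem (hX Y hY) (hX' Y hY)
  smul_mem' := by
    intro c X hX Y hY
    rw [Matrix.smul_mul, Matrix.mul_smul, ← smul_sub]
    exact W.smul_mem c (hX Y hY)

/-- **the algebraic core** -/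
theorem alg_core (hn : 2 ≤ n) (hJ : Jᵀ = -J) (hdet : IsUnit J.det)
    (ι : Matrix (Fin n) (Fin n) F →ₗ[F] Matrix B B F) (hinj : Function.Injective ι)
    (hmul : ∀ X Y, ι (X * Y) = ι X * ι Y)
    (𝒬 : Submodule F (Matrix (Fin n) (Fin n) F × Matrix B B F)) (h1 : ∀ p ∈ 𝒬, p.1 ∈ spS J)
    (h2 : ∀ A ∈ spS J, ∃ E, (A, E) ∈ 𝒬) (𝒩 : Submodule F (Matrix B B F)) (h𝒩 : ∀ p ∈ 𝒬, p.2 ∈ 𝒩)
    (hone : (1 : Matrix B B F) ∈ 𝒩) (hdim : finrank F 𝒩 ≤ n - 1) (W : Submodule F (Matrix B B F))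
    (hF1 : ∀ p ∈ 𝒬, ∀ Y ∈ W, (ι p.1 + p.2) * Y - Y * (ι p.1 + p.2) ∈ W)
    (hF2 : ∀ p ∈ 𝒬, ∀ q ∈ 𝒬, ∀ s, (∀ Y ∈ W, Y * s - s * Y ∈ W) →
      ((ι p.1 + p.2) * (ι q.1 + q.2) - (ι q.1 + q.2) * (ι p.1 + p.2)) * s -
        s * ((ι p.1 + p.2) * (ι q.1 + q.2) - (ι q.1 + q.2) * (ι p.1 + p.2)) ∈ W) : ∀ A ∈ spS J, ι A ∈ W := by
  have hne : (1 : Matrix B B F) ≠ 0 := by
    intro h
    have h3 : ι 1 = 0 := by rw [← Matrix.mul_one (ι 1), h, Matrix.mul_zero]
    have h4 : (1 : Matrix (Fin n) (Fin n) F) = 0 := hinj (by rw [h3, map_zero])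
    have h5 := congrFun (congrFun h4 ⟨0, by omega⟩) ⟨0, by omega⟩
    rw [Matrix.one_apply_eq, Matrix.zero_apply] at h5
    exact one_ne_zero h5
  have hcom : ∀ X Y, ι (X * Y - Y * X) = ι X * ι Y - ι Y * ι X := fun X Y => by rw [map_sub, hmul, hmul]
  -- the normaliser
  have honeN : (1 : Matrix B B F) ∈ nrm W := by
    intro Y _
    rw [Matrix.one_mul, Matrix.mul_one, sub_self]
    exact W.zero_mem
  have hsup : (spS J).map ι ≤ nrm W ⊔ 𝒩 := by
    rintro _ ⟨A, hA, rfl⟩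
    obtain ⟨E, hE⟩ := h2 A hA
    refine Submodule.mem_sup.2 ⟨ι A + E, fun Y hY => hF1 _ hE Y hY, -E, 𝒩.neg_mem (h𝒩 _ hE), by abel⟩
  have hcod : finrank F (spS J) ≤ finrank F (spS J ⊓ (nrm W).comap ι : Submodule F _) + (n - 2) := by
    have k1 := cod_sup (r := n - 2) hsup hne honeN hone (by omega)
    have k2 : ((spS J).map ι ⊓ nrm W : Submodule F (Matrix B B F)) = (spS J ⊓ (nrm W).comap ι).map ι := by
      ext x
      constructor
      · rintro ⟨⟨y, hy, rfl⟩, hx⟩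
        exact ⟨y, ⟨hy, hx⟩, rfl⟩
      · rintro ⟨y, ⟨hy1, hy2⟩, rfl⟩
        exact ⟨⟨y, hy1, rfl⟩, hy2⟩
    have k3 := fun p : Submodule F (Matrix (Fin n) (Fin n) F) => (Submodule.equivMapOfInjective ι hinj p).finrank_eq
    rw [k2, ← k3, ← k3] at k1
    exact k1
  have hN : spS J ≤ (nrm W).comap ι := by
    refine (lie_full hJ hdet (𝔫 := spS J ⊓ (nrm W).comap ι) inf_le_left ?_ hcod hn).trans inf_le_right
    rintro x ⟨hx1, hx2⟩ y ⟨hy1, hy2⟩
    refine ⟨comm_mem hJ hx1 hy1, ?_⟩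
    show ι (x * y - y * x) ∈ nrm W
    rw [hcom]
    intro Y hY
    have h3 : (ι x * ι y - ι y * ι x) * Y - Y * (ι x * ι y - ι y * ι x) =
        (ι x * (ι y * Y - Y * ι y) - (ι y * Y - Y * ι y) * ι x) -
          (ι y * (ι x * Y - Y * ι x) - (ι x * Y - Y * ι x) * ι y) := by noncomm_ring
    rw [h3]
    exact W.sub_mem (hx2 _ (hy2 Y hY)) (hy2 _ (hx2 Y hY))
  -- the directions without constants
  let 𝔪 : Submodule F (Matrix (Fin n) (Fin n) F) :=
    { carrier := {A | ∃ z : F, (A, z • (1 : Matrix B B F)) ∈ 𝒬}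
      zero_mem' := ⟨0, by rw [zero_smul]; exact 𝒬.zero_mem⟩
      add_mem' := by
        rintro A B ⟨z, hz⟩ ⟨z', hz'⟩
        refine ⟨z + z', ?_⟩
        rw [add_smul]
        exact 𝒬.add_mem hz hz'
      smul_mem' := by
        rintro c A ⟨z, hz⟩
        refine ⟨c * z, ?_⟩
        rw [mul_smul]
        exact 𝒬.smul_mem c hz }
  have h𝔪 : 𝔪 ≤ spS J := by
    rintro A ⟨z, hz⟩
    exact h1 _ hz
  have hcod2 : finrank F (spS J) ≤ finrank F 𝔪 + (n - 2) := by
    let S1 : Submodule F (Matrix B B F) := Submodule.span F {1}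
    let h : 𝒬 →ₗ[F] (Matrix (Fin n) (Fin n) F) ⧸ 𝔪 := 𝔪.mkQ ∘ₗ (LinearMap.fst F _ _) ∘ₗ 𝒬.subtype
    let g : 𝒬 →ₗ[F] (Matrix B B F) ⧸ S1 := S1.mkQ ∘ₗ (LinearMap.snd F _ _) ∘ₗ 𝒬.subtype
    have hker : LinearMap.ker g ≤ LinearMap.ker h := by
      intro p hp
      rw [LinearMap.mem_ker] at hp ⊢
      have hp' : S1.mkQ p.1.2 = 0 := hp
      rw [Submodule.mkQ_apply, Submodule.Quotient.mk_eq_zero] at hp'
      obtain ⟨z, hz⟩ := Submodule.mem_span_singleton.1 hp'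
      show 𝔪.mkQ p.1.1 = 0
      rw [Submodule.mkQ_apply, Submodule.Quotient.mk_eq_zero]
      refine ⟨z, ?_⟩
      rw [hz]
      exact p.2
    have r1 := LinearMap.finrank_range_add_finrank_ker h
    have r2 := LinearMap.finrank_range_add_finrank_ker g
    have r3 := Submodule.finrank_mono hker
    have r4 : LinearMap.range g ≤ 𝒩.map S1.mkQ := by
      rintro _ ⟨p, rfl⟩
      exact ⟨p.1.2, h𝒩 _ p.2, rfl⟩
    have r5 : (spS J).map 𝔪.mkQ ≤ LinearMap.range h := by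
      rintro _ ⟨A, hA, rfl⟩
      obtain ⟨E, hE⟩ := h2 A hA
      exact ⟨⟨(A, E), hE⟩, rfl⟩
    have r6 := Submodule.finrank_mono r4
    have r7 := Submodule.finrank_mono r5
    have r8 := map_mkQ (M := Matrix (Fin n) (Fin n) F) h𝔪
    have hS1 : S1 ≤ 𝒩 := by
      rw [Submodule.span_singleton_le_iff_mem]
      exact hone
    have r9 := map_mkQ (M := Matrix B B F) hS1
    have r10 : finrank F S1 = 1 := finrank_span_singleton hne
    omega
  obtain ⟨A, ⟨z, hA⟩, B', ⟨z', hB⟩, hAB⟩ := NC hJ hdet h𝔪 hcod2 hn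
  have hAsp : A ∈ spS J := h1 _ hA
  have hBsp : B' ∈ spS J := h1 _ hB
  have hC : (ι A + z • (1 : Matrix B B F)) * (ι B' + z' • (1 : Matrix B B F)) -
      (ι B' + z' • (1 : Matrix B B F)) * (ι A + z • (1 : Matrix B B F)) = ι (A * B' - B' * A) := by
    rw [hcom]
    simp only [Matrix.add_mul, Matrix.mul_add, Matrix.smul_mul, Matrix.mul_smul, Matrix.one_mul, Matrix.mul_one, smul_add]
    rw [smul_comm z z']
    abel
  obtain ⟨s, hs, hs0⟩ : ∃ s ∈ spS J, (A * B' - B' * A) * s - s * (A * B' - B' * A) ≠ 0 := by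
    by_contra hcon
    push Not at hcon
    have h3 := simple hJ hdet (𝔞 := Submodule.span F {A * B' - B' * A}) (fun x hx y hy => by
      obtain ⟨c, rfl⟩ := Submodule.mem_span_singleton.1 hy
      have h4 := hcon x hx
      rw [Matrix.mul_smul, Matrix.smul_mul, ← smul_sub]
      have h5 : x * (A * B' - B' * A) - (A * B' - B' * A) * x = 0 := by
        rw [← neg_sub, h4, neg_zero]
      rw [h5, smul_zero]
      exact Submodule.zero_mem _) (Submodule.mem_span_singleton_self _) (comm_mem hJ hAsp hBsp) hAB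
    obtain ⟨a, ha⟩ := Submodule.mem_span_singleton.1 (h3 hAsp)
    obtain ⟨b, hb⟩ := Submodule.mem_span_singleton.1 (h3 hBsp)
    apply hAB
    have h4 : ∀ Y : Matrix (Fin n) (Fin n) F, (a • Y) * (b • Y) - (b • Y) * (a • Y) = 0 := by
      intro Y
      rw [Matrix.smul_mul, Matrix.mul_smul, Matrix.smul_mul, Matrix.mul_smul, smul_comm a b, sub_self]
    have h5 := h4 (A * B' - B' * A)
    rw [ha, hb] at h5
    exact h5
  have hsW := hF2 _ hA _ hB (ι s) fun Y hY => by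
    have h3 := W.neg_mem (hN hs Y hY)
    rwa [neg_sub] at h3
  simp only at hsW
  rw [hC, ← hcom] at hsW
  have hstab : ∀ x ∈ spS J, ∀ y ∈ W.comap ι, x * y - y * x ∈ W.comap ι := by
    intro x hx y hy
    show ι (x * y - y * x) ∈ W
    rw [hcom]
    exact hN hx _ hy
  exact simple hJ hdet hstab hsW (comm_mem hJ (comm_mem hJ hAsp hBsp) hs) hs0

end Pool.Agent.Helper880_LF.NB
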