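import Pool.Agent.Helper880_LF.Ud

/-!
# Ultraproducts of matrices with any index type
-/

set_option autoImplicit false
set_option linter.unusedSectionVars false
set_option linter.unusedVariables false

open Matrix Module Filter

namespace Pool.Agent.Helper880_LF.NB

open Pool.Agent.Y118.UL (mk mk_eq mk_eq_zero mk_ne_zero mk_surj ev_ge eval_mk rep qc qc_mk algebraMap_eq U)
open Pool.Agent.Y119.HY (cm)

variable {B : Type} {K : Type} [Field K]

/-- the ultraproduct of matrices -/
noncomputable def gm (F : ℕ → Matrix B B K) : Matrix B B (U K) := Matrix.of fun i j => mk K (fun t => F t i j)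

theorem gm_apply (F : ℕ → Matrix B B K) (i j : B) : gm F i j = mk K (fun t => F t i j) := rfl

theorem mk_sum {ι : Type} (s : Finset ι) (f : ι → ℕ → K) : mk K (fun t => ∑ i ∈ s, f i t) = ∑ i ∈ s, mk K (f i) := by
  rw [← map_sum]
  congr 1
  funext t
  rw [Finset.sum_apply]

theorem mk_mul' (f g : ℕ → K) : mk K (fun t => f t * g t) = mk K f * mk K g := by
  rw [← map_mul]
  rfl

theorem gm_mul [Fintype B] (F G : ℕ → Matrix B B K) : gm (fun t => F t * G t) = gm F * gm G := by
  ext i j
  rw [gm_apply, Matrix.mul_apply]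
  simp only [Matrix.mul_apply, gm_apply]
  rw [mk_sum]
  exact Finset.sum_congr rfl fun l _ => mk_mul' _ _

theorem gm_transpose (F : ℕ → Matrix B B K) : gm (fun t => (F t).transpose) = (gm F).transpose := rfl

theorem gm_smul (c : ℕ → K) (F : ℕ → Matrix B B K) : gm (fun t => c t • F t) = mk K c • gm F := by
  ext i j
  rw [gm_apply, Matrix.smul_apply, gm_apply, smul_eq_mul, ← mk_mul']
  rfl

theorem gm_neg (F : ℕ → Matrix B B K) : gm (fun t => -F t) = -gm F := by
  ext i j
  rw [gm_apply, Matrix.neg_apply, gm_apply, ← map_neg]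
  rfl

theorem gm_add (F G : ℕ → Matrix B B K) : gm (fun t => F t + G t) = gm F + gm G := by
  ext i j
  rw [gm_apply, Matrix.add_apply, gm_apply, gm_apply, ← map_add]
  rfl

theorem gm_sub (F G : ℕ → Matrix B B K) : gm (fun t => F t - G t) = gm F - gm G := by
  ext i j
  rw [gm_apply, Matrix.sub_apply, gm_apply, gm_apply, ← map_sub]
  rfl

theorem gm_zero : gm (fun _ => (0 : Matrix B B K)) = 0 := by
  ext i j
  rw [gm_apply, Matrix.zero_apply]
  exact map_zero (mk K)

theorem gm_one [DecidableEq B] : gm (fun _ => (1 : Matrix B B K)) = 1 := by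
  ext i j
  show mk K (fun _ => (1 : Matrix B B K) i j) = (1 : Matrix B B (U K)) i j
  by_cases h : i = j
  · subst h
    have h1 : (fun _ : ℕ => (1 : Matrix B B K) i i) = 1 := by
      funext t
      exact Matrix.one_apply_eq i
    rw [h1]
    exact (map_one (mk K)).trans (Matrix.one_apply_eq i).symm
  · have h1 : (fun _ : ℕ => (1 : Matrix B B K) i j) = 0 := by
      funext t
      exact Matrix.one_apply_ne h
    rw [h1]
    exact (map_zero (mk K)).trans (Matrix.one_apply_ne h).symm

theorem gm_pow [Fintype B] [DecidableEq B] (F : ℕ → Matrix B B K) (J : ℕ) : gm (fun t => F t ^ J) = gm F ^ J := by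
  induction J with
  | zero =>
    simp only [pow_zero]
    exact gm_one
  | succ J ih =>
    simp only [pow_succ]
    rw [gm_mul, ih]

theorem gm_unit [Fintype B] [DecidableEq B] {F : ℕ → Matrix B B K} (h : ∀ t, (F t).det ≠ 0) : IsUnit (gm F).det := by
  have h1 : gm F * gm (fun t => (F t)⁻¹) = 1 := by
    rw [← gm_mul, ← gm_one]
    congr 1
    funext t
    exact Matrix.mul_nonsing_inv _ (isUnit_iff_ne_zero.2 (h t))
  exact Matrix.isUnit_det_of_right_inverse h1

theorem gm_surj (g : Matrix B B (U K)) : ∃ F : ℕ → Matrix B B K, gm F = g := by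
  choose f hf using fun i j => mk_surj (g i j)
  refine ⟨fun t => Matrix.of fun i j => f i j t, ?_⟩
  ext i j
  rw [gm_apply, ← hf i j]
  rfl

theorem gm_eq [Finite B] {F G : ℕ → Matrix B B K} (h : gm F = gm G) :
    ∀ᶠ t in (hyperfilter ℕ : Filter ℕ), F t = G t := by
  have h1 : ∀ i j, ∀ᶠ t in (hyperfilter ℕ : Filter ℕ), F t i j = G t i j := fun i j => by
    have h2 := congrFun (congrFun h i) j
    rw [gm_apply, gm_apply, mk_eq] at h2
    exact h2
  have h2 : ∀ᶠ t in (hyperfilter ℕ : Filter ℕ), ∀ i j, F t i j = G t i j :=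
    Filter.eventually_all.2 fun i => Filter.eventually_all.2 fun j => h1 i j
  filter_upwards [h2] with t ht
  ext i j
  exact ht i j

theorem gm_ev [Finite B] {F G : ℕ → Matrix B B K} :
    gm F = gm G ↔ ∀ᶠ t in (hyperfilter ℕ : Filter ℕ), F t = G t := by
  refine ⟨gm_eq, fun h => ?_⟩
  ext i j
  rw [gm_apply, gm_apply, mk_eq]
  filter_upwards [h] with t ht
  rw [ht]

theorem gm_map (F : ℕ → Matrix B B ℚ) : (gm F).map (algebraMap (U ℚ) (U ℂ)) =
    gm fun t => (F t).map (algebraMap ℚ ℂ) := by
  ext i j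
  rw [Matrix.map_apply, gm_apply, gm_apply, algebraMap_eq, qc_mk]
  rfl

variable {k Ω : Type} [Field k] [Field Ω] [Algebra k Ω]

/-- a derivation applied to a matrix -/
def dm (D : Derivation k Ω Ω) (M : Matrix B B Ω) : Matrix B B Ω := M.map D

theorem dm_mul [Fintype B] (D : Derivation k Ω Ω) (M N : Matrix B B Ω) : dm D (M * N) = dm D M * N + M * dm D N := by
  ext i j
  rw [Matrix.add_apply, Matrix.mul_apply, Matrix.mul_apply]
  unfold dm
  rw [Matrix.map_apply, Matrix.mul_apply, map_sum, ← Finset.sum_add_distrib]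
  refine Finset.sum_congr rfl fun l _ => ?_
  rw [Derivation.leibniz, Matrix.map_apply, Matrix.map_apply, smul_eq_mul, smul_eq_mul]
  ring

theorem dm_smul (D : Derivation k Ω Ω) (c : Ω) (M : Matrix B B Ω) : dm D (c • M) = D c • M + c • dm D M := by
  ext i j
  unfold dm
  rw [Matrix.map_apply, Matrix.smul_apply, Matrix.add_apply, Matrix.smul_apply, Matrix.smul_apply, Matrix.map_apply,
    smul_eq_mul, Derivation.leibniz]
  simp only [smul_eq_mul]
  ring

theorem dm_transpose (D : Derivation k Ω Ω) (M : Matrix B B Ω) : dm D M.transpose = (dm D M).transpose := rfl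

theorem dm_const (D : Derivation k Ω Ω) (M : Matrix B B k) : dm D (M.map (algebraMap k Ω)) = 0 := by
  ext i j
  unfold dm
  simp

end Pool.Agent.Helper880_LF.NB
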