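import Pool.Agent.Helper880_LF.GAlg
import Pool.Agent.Helper880_LF.GInt

/-!
# The Lie algebras of subtorsors through products of generic symplectic matrices and a matrix with few constants
-/

set_option autoImplicit false
set_option linter.unusedSectionVars false
set_option linter.unusedVariables false

open Matrix Module Filter

namespace Pool.Agent.Helper880_LF.NB

open Pool.Agent.Helper880_LF
open Pool.Agent.Y118.UL (mk mk_eq mk_eq_zero mk_ne_zero mk_surj ev_ge eval_mk rep qc qc_mk algebraMap_eq U)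
open Pool.Agent.Y118.HX (ex_der transv)
open Pool.Agent.Y119.HY (cm)
open Pool.Agent.TH119.DR Pool.Agent.TH119.MX Pool.Agent.TH127.PT Pool.Agent.Y123.ST Pool.Agent.Y123.GN

section der
variable {k Ω : Type} [Field k] [Field Ω] [Algebra k Ω] {n N : ℕ}

/-- generic points of a product of symplectic groups -/
def GenericN (k : Type) [Field k] [Algebra k Ω] (J x : Fin N → Matrix (Fin n) (Fin n) Ω) : Prop :=
  ∀ P : MvPolynomial (Fin N × Fin n × Fin n) k, MvPolynomial.aeval (fun s => x s.1 s.2.1 s.2.2) P = 0 →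
    ∀ g : Fin N → Matrix (Fin n) (Fin n) Ω, (∀ j, (g j)ᵀ * J j * g j = J j) →
      MvPolynomial.aeval (fun s => g s.1 s.2.1 s.2.2) P = 0

/-- derivations in the direction of a square -/
theorem der_uu [CharZero Ω] {J x : Fin N → Matrix (Fin n) (Fin n) Ω} (hJ : ∀ j, (J j)ᵀ = -J j)
    (hx : ∀ j, (x j)ᵀ * J j * x j = J j) (hg : GenericN k J x) (i : Fin N) (u : Fin n → Ω) :
    ∃ D : Derivation k Ω Ω, dm D (x i) = x i * (vecMulVec u u * J i) ∧ ∀ j, j ≠ i → dm D (x j) = 0 := by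
  classical
  set y : Fin N → Matrix (Fin n) (Fin n) Ω := fun j => if j = i then x i * (vecMulVec u u * J i) else 0 with hy
  have hyi : y i = x i * (vecMulVec u u * J i) := if_pos rfl
  have hyj : ∀ j, j ≠ i → y j = 0 := fun j h => if_neg h
  obtain ⟨D, hD⟩ := ex_der (k := k) (fun s : Fin N × Fin n × Fin n => x s.1 s.2.1 s.2.2) (fun s => y s.1 s.2.1 s.2.2) (by
    intro P hP
    -- the polynomial in one variable
    set q : Polynomial Ω := MvPolynomial.aeval (fun s : Fin N × Fin n × Fin n =>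
      Polynomial.C (x s.1 s.2.1 s.2.2) + Polynomial.X * Polynomial.C (y s.1 s.2.1 s.2.2)) P with hq
    have h1 : ∀ s : Ω, q.eval s = 0 := by
      intro s
      have h2 := hg P hP (fun j => x j + s • y j) (by
        intro j
        by_cases h : j = i
        · subst h
          rw [hyi]
          exact transv (hJ _) (hx _) u s
        · rw [hyj j h, smul_zero, add_zero]
          exact hx j)
      have h3 : ((Polynomial.aeval s : Polynomial Ω →ₐ[Ω] Ω).restrictScalars k).comp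
          (MvPolynomial.aeval (fun p : Fin N × Fin n × Fin n =>
          Polynomial.C (x p.1 p.2.1 p.2.2) + Polynomial.X * Polynomial.C (y p.1 p.2.1 p.2.2))) =
          MvPolynomial.aeval (fun p : Fin N × Fin n × Fin n => (x p.1 + s • y p.1) p.2.1 p.2.2) := by
        refine MvPolynomial.algHom_ext fun p => ?_
        rw [AlgHom.comp_apply, MvPolynomial.aeval_X, MvPolynomial.aeval_X]
        simp
        exact mul_comm _ _
      have h4 := AlgHom.congr_fun h3 P
      rw [h2] at h4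
      exact h4
    have hq0 : q = 0 := Polynomial.funext fun s => by rw [h1, Polynomial.eval_zero]
    -- the map to the dual numbers
    have h5 : ((Polynomial.aeval (TrivSqZeroExt.inr 1 : TrivSqZeroExt Ω Ω) :
        Polynomial Ω →ₐ[Ω] TrivSqZeroExt Ω Ω).restrictScalars k).comp (MvPolynomial.aeval (fun p : Fin N × Fin n × Fin n =>
          Polynomial.C (x p.1 p.2.1 p.2.2) + Polynomial.X * Polynomial.C (y p.1 p.2.1 p.2.2))) =
        MvPolynomial.aeval (fun p : Fin N × Fin n × Fin n =>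
          (TrivSqZeroExt.inl (x p.1 p.2.1 p.2.2) + TrivSqZeroExt.inr (y p.1 p.2.1 p.2.2) : TrivSqZeroExt Ω Ω)) := by
      refine MvPolynomial.algHom_ext fun p => ?_
      rw [AlgHom.comp_apply, MvPolynomial.aeval_X, MvPolynomial.aeval_X]
      ext
      · simp [TrivSqZeroExt.algebraMap_eq_inl]
      · simp [TrivSqZeroExt.algebraMap_eq_inl]
    have h6 := AlgHom.congr_fun h5 P
    rw [← h6, AlgHom.comp_apply, ← hq, hq0, map_zero])
  refine ⟨D, ?_, fun j hj => ?_⟩
  · rw [← hyi]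
    ext a b
    exact hD (i, a, b)
  · rw [← hyj j hj]
    ext a b
    exact hD (j, a, b)

/-- derivations in all directions of a block -/
theorem der_sp [CharZero Ω] {J x : Fin N → Matrix (Fin n) (Fin n) Ω} (hJ : ∀ j, (J j)ᵀ = -J j)
    (hJd : ∀ j, IsUnit (J j).det) (hx : ∀ j, (x j)ᵀ * J j * x j = J j) (hg : GenericN k J x) (i : Fin N)
    {A : Matrix (Fin n) (Fin n) Ω} (hA : A ∈ spS (J i)) :
    ∃ D : Derivation k Ω Ω, dm D (x i) = A * x i ∧ ∀ j, j ≠ i → dm D (x j) = 0 := by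
  have hxu : IsUnit (x i).det := by
    rw [isUnit_iff_ne_zero]
    intro h0
    have h1 := congrArg Matrix.det (hx i)
    rw [det_mul, h0, mul_zero] at h1
    exact (hJd i).ne_zero h1.symm
  have hxx : x i * (x i)⁻¹ = 1 := mul_nonsing_inv _ hxu
  have hxx' : (x i)⁻¹ * x i = 1 := nonsing_inv_mul _ hxu
  have hJx : J i * (x i)⁻¹ = (x i)ᵀ * J i := by
    calc J i * (x i)⁻¹ = ((x i)ᵀ * J i * x i) * (x i)⁻¹ := by rw [hx i]
      _ = (x i)ᵀ * J i := by rw [Matrix.mul_assoc, hxx, Matrix.mul_one]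
  let 𝔞 : Submodule Ω (Matrix (Fin n) (Fin n) Ω) :=
    { carrier := {A | ∃ δ : Derivation k Ω Ω, dm δ (x i) = A * x i ∧ ∀ j, j ≠ i → dm δ (x j) = 0}
      zero_mem' := ⟨0, by
        constructor
        · ext a b
          simp [dm]
        · intro j _
          ext a b
          simp [dm]⟩
      add_mem' := by
        rintro p q ⟨δ, h1, h2⟩ ⟨δ', h1', h2'⟩
        have h3 : ∀ M : Matrix (Fin n) (Fin n) Ω, dm (δ + δ') M = dm δ M + dm δ' M := by
          intro M
          ext a b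
          simp [dm]
        refine ⟨δ + δ', ?_, fun j hj => ?_⟩
        · rw [h3, h1, h1', Matrix.add_mul]
        · rw [h3, h2 j hj, h2' j hj, add_zero]
      smul_mem' := by
        rintro a p ⟨δ, h1, h2⟩
        have h3 : ∀ M : Matrix (Fin n) (Fin n) Ω, dm (a • δ) M = a • dm δ M := by
          intro M
          ext a b
          simp [dm]
        refine ⟨a • δ, ?_, fun j hj => ?_⟩
        · rw [h3, h1, Matrix.smul_mul]
        · rw [h3, h2 j hj, smul_zero] }
  show A ∈ 𝔞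
  refine mem_of_pr (hJ i) (hJd i) (fun u v => ?_) hA
  have key : ∀ w : Fin n → Ω, vecMulVec w w * J i ∈ 𝔞 := by
    intro w
    obtain ⟨δ, hδ, hδ'⟩ := der_uu hJ hx hg i ((x i)⁻¹ *ᵥ w)
    refine ⟨δ, ?_, hδ'⟩
    have h3 : x i * (vecMulVec ((x i)⁻¹ *ᵥ w) ((x i)⁻¹ *ᵥ w) * J i) * (x i)⁻¹ = vecMulVec w w * J i := by
      calc x i * (vecMulVec ((x i)⁻¹ *ᵥ w) ((x i)⁻¹ *ᵥ w) * J i) * (x i)⁻¹ =
          (x i * vecMulVec ((x i)⁻¹ *ᵥ w) ((x i)⁻¹ *ᵥ w)) * (J i * (x i)⁻¹) := by simp only [Matrix.mul_assoc]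
        _ = (x i * vecMulVec ((x i)⁻¹ *ᵥ w) ((x i)⁻¹ *ᵥ w) * (x i)ᵀ) * J i := by
          rw [hJx]
          simp only [Matrix.mul_assoc]
        _ = vecMulVec w w * J i := by
          rw [mul_vecMulVec, vecMulVec_mul, mulVec_mulVec, hxx, one_mulVec, vecMul_transpose, mulVec_mulVec, hxx,
            one_mulVec]
    rw [hδ, ← h3, Matrix.mul_assoc (x i * _), hxx', Matrix.mul_one]
  have h4 : pr (J i) u v = vecMulVec (u + v) (u + v) * J i - vecMulVec u u * J i - vecMulVec v v * J i := by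
    unfold pr
    rw [← Matrix.sub_mul, ← Matrix.sub_mul]
    congr 1
    rw [vecMulVec_add, add_vecMulVec, add_vecMulVec]
    abel
  rw [h4]
  exact 𝔞.sub_mem (𝔞.sub_mem (key _) (key _)) (key _)

end der

section core
variable {n N : ℕ}

/-- the embedding of a block -/
noncomputable def ib {F : Type} [Field F] (i : Fin N) :
    Matrix (Fin n) (Fin n) F →ₗ[F] Matrix (Fin n × Fin N) (Fin n × Fin N) F where
  toFun X := blockDiagonal (Pi.single i X)
  map_add' X Y := by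
    rw [Pi.single_add]
    exact blockDiagonal_add _ _
  map_smul' z X := by
    rw [Pi.single_smul]
    exact blockDiagonal_smul _ _

theorem ib_apply {F : Type} [Field F] (i : Fin N) (X : Matrix (Fin n) (Fin n) F) :
    ib i X = blockDiagonal (Pi.single i X) := rfl

theorem ib_inj {F : Type} [Field F] (i : Fin N) : Function.Injective (ib (F := F) (n := n) i) := by
  intro X Y h
  have h1 : (Pi.single i X : Fin N → Matrix (Fin n) (Fin n) F) = Pi.single i Y := blockDiagonal_injective h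
  exact Pi.single_injective i h1

theorem ib_mul {F : Type} [Field F] (i : Fin N) (X Y : Matrix (Fin n) (Fin n) F) : ib i (X * Y) = ib i X * ib i Y := by
  rw [ib_apply, ib_apply, ib_apply, ← blockDiagonal_mul]
  congr 1
  funext j
  by_cases h : j = i
  · subst h
    rw [Pi.single_eq_same, Pi.single_eq_same, Pi.single_eq_same]
  · rw [Pi.single_eq_of_ne h, Pi.single_eq_of_ne h, Pi.single_eq_of_ne h, Matrix.mul_zero]

theorem gm_ib (i : Fin N) (X : ℕ → Matrix (Fin n) (Fin n) ℂ) : gm (fun k => ib i (X k)) = ib i (gm X) := by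
  refine Matrix.ext fun a b => ?_
  rw [gm_apply]
  simp only [ib_apply, blockDiagonal_apply]
  by_cases h : a.2 = b.2
  · simp only [if_pos h]
    by_cases h2 : a.2 = i
    · rw [h2]
      simp only [Pi.single_eq_same]
      rfl
    · simp only [Pi.single_eq_of_ne h2]
      exact map_zero (mk ℂ)
  · simp only [if_neg h]
    exact map_zero (mk ℂ)

theorem gm_bd (X : ℕ → Fin N → Matrix (Fin n) (Fin n) ℂ) :
    gm (fun k => blockDiagonal (X k)) = blockDiagonal fun j => gm fun k => X k j := by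
  refine Matrix.ext fun a b => ?_
  rw [gm_apply]
  simp only [blockDiagonal_apply]
  by_cases h : a.2 = b.2
  · simp only [if_pos h]
    rfl
  · simp only [if_neg h]
    exact map_zero (mk ℂ)

theorem dm_bd {k Ω : Type} [Field k] [Field Ω] [Algebra k Ω] (δ : Derivation k Ω Ω) (X : Fin N → Matrix (Fin n) (Fin n) Ω) :
    dm δ (blockDiagonal X) = blockDiagonal fun j => dm δ (X j) := by
  unfold dm
  rw [blockDiagonal_map _ _ (map_zero δ)]

/-- **The core theorem.** -/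
theorem core (hn : 2 ≤ n) {J : Fin N → Matrix (Fin n) (Fin n) ℚ} (hJ : ∀ j, (cm (J j))ᵀ = -cm (J j))
    (hJd : ∀ j, (cm (J j)).det ≠ 0) {z : ℕ → Fin N → Matrix (Fin n) (Fin n) ℂ}
    (hz : ∀ k j, (z k j)ᵀ * cm (J j) * z k j = cm (J j))
    (hgen : GenericN (U ℚ) (fun j => gm fun _ => cm (J j)) (fun j => gm fun k => z k j))
    {K : ℕ → Subfield ℂ} {D : ℕ} (hK : ∀ k, FiniteDimensional ℚ (K k)) (hD : ∀ k, finrank ℚ (K k) ≤ D)
    {C : ℕ → Matrix (Fin n × Fin N) (Fin n × Fin N) ℂ} (hC : ∀ k, (C k).det ≠ 0)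
    (𝒩 : Submodule (U ℂ) (Matrix (Fin n × Fin N) (Fin n × Fin N) (U ℂ)))
    (hone : (1 : Matrix (Fin n × Fin N) (Fin n × Fin N) (U ℂ)) ∈ 𝒩)
    (hdim : finrank (U ℂ) 𝒩 ≤ n - 1) (h𝒩 : ∀ δ : Derivation (U ℚ) (U ℂ) (U ℂ), (gm C)⁻¹ * dm δ (gm C) ∈ 𝒩)
    {T : ℕ → Set (Matrix (Fin n × Fin N) (Fin n × Fin N) ℂ)} (hT : ∀ k, IsSubtorsor (K k) (T k))
    {V : ℕ → Matrix (Fin n × Fin N) (Fin n × Fin N) ℚ} (hV : ∀ k, (V k).det ≠ 0)
    (hc : ∀ k, C k * blockDiagonal (z k) * (V k).map (algebraMap ℚ ℂ) ∈ T k) :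
    ∀ᶠ k in (hyperfilter ℕ : Filter ℕ), ∀ i, ∀ X ∈ spS (cm (J i)), fl (C k * ib i X * (C k)⁻¹) ∈ LL (T k) := by
  classical
  set x : Fin N → Matrix (Fin n) (Fin n) (U ℂ) := fun j => gm fun k => z k j with hx
  set Cs := gm C with hCs
  set JU : Fin N → Matrix (Fin n) (Fin n) (U ℂ) := fun j => gm (fun _ => cm (J j)) with hJU
  have hJU' : ∀ j, (gm fun _ => J j).map (algebraMap (U ℚ) (U ℂ)) = JU j := fun j => gm_map _
  have hJs : ∀ j, (JU j)ᵀ = -JU j := by
    intro j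
    rw [hJU]
    simp only
    rw [← gm_transpose, ← gm_neg]
    congr 1
    funext _
    exact hJ j
  have hJu : ∀ j, IsUnit (JU j).det := fun j => gm_unit fun _ => hJd j
  have hxJ : ∀ j, (x j)ᵀ * JU j * x j = JU j := by
    intro j
    rw [hx, hJU]
    simp only
    rw [← gm_transpose, ← gm_mul, ← gm_mul]
    congr 1
    funext k
    exact hz k j
  have hxu : ∀ j, IsUnit (x j).det := fun j => gm_unit fun k => by
    intro h0
    have h1 := congrArg Matrix.det (hz k j)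
    rw [det_mul, h0, mul_zero] at h1
    exact hJd j h1.symm
  have hCu : IsUnit Cs.det := gm_unit hC
  have hxx : ∀ j, x j * (x j)⁻¹ = 1 := fun j => mul_nonsing_inv _ (hxu j)
  have hCC : Cs * Cs⁻¹ = 1 := mul_nonsing_inv _ hCu
  have hCC' : Cs⁻¹ * Cs = 1 := nonsing_inv_mul _ hCu
  have hbx : blockDiagonal x * blockDiagonal (fun j => (x j)⁻¹) = 1 := by
    rw [← blockDiagonal_mul]
    have : (fun j => x j * (x j)⁻¹) = 1 := funext hxx
    rw [this, blockDiagonal_one]
  have hbi : (blockDiagonal x)⁻¹ = blockDiagonal (fun j => (x j)⁻¹) := inv_eq_right_inv hbx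
  -- the derivations
  let 𝒬 : Fin N → Submodule (U ℂ) (Matrix (Fin n) (Fin n) (U ℂ) × Matrix (Fin n × Fin N) (Fin n × Fin N) (U ℂ)) := fun i =>
    { carrier := {p | ∃ δ : Derivation (U ℚ) (U ℂ) (U ℂ), (dm δ (x i) = p.1 * x i ∧ ∀ j, j ≠ i → dm δ (x j) = 0) ∧
        dm δ Cs = Cs * p.2}
      zero_mem' := ⟨0, by
        refine ⟨⟨?_, fun j _ => ?_⟩, ?_⟩
        · ext a b
          simp [dm]
        · ext a b
          simp [dm]
        · refine Matrix.ext fun a b => ?_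
          simp [dm]⟩
      add_mem' := by
        rintro p q ⟨δ, ⟨h1, h1b⟩, h2⟩ ⟨δ', ⟨h1', h1b'⟩, h2'⟩
        refine ⟨δ + δ', ⟨?_, fun j hj => ?_⟩, ?_⟩
        · have h3 : dm (δ + δ') (x i) = dm δ (x i) + dm δ' (x i) := by
            ext a b
            simp [dm]
          rw [h3, h1, h1', Prod.fst_add, Matrix.add_mul]
        · have h3 : dm (δ + δ') (x j) = dm δ (x j) + dm δ' (x j) := by
            ext a b
            simp [dm]
          rw [h3, h1b j hj, h1b' j hj, add_zero]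
        · have h3 : dm (δ + δ') Cs = dm δ Cs + dm δ' Cs := by
            refine Matrix.ext fun a b => ?_
            simp [dm]
          rw [h3, h2, h2', Prod.snd_add, Matrix.mul_add]
      smul_mem' := by
        rintro a p ⟨δ, ⟨h1, h1b⟩, h2⟩
        refine ⟨a • δ, ⟨?_, fun j hj => ?_⟩, ?_⟩
        · have h3 : dm (a • δ) (x i) = a • dm δ (x i) := by
            ext a b
            simp [dm]
          rw [h3, h1, Prod.smul_fst, Matrix.smul_mul]
        · have h3 : dm (a • δ) (x j) = a • dm δ (x j) := by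
            ext a b
            simp [dm]
          rw [h3, h1b j hj, smul_zero]
        · have h3 : dm (a • δ) Cs = a • dm δ Cs := by
            refine Matrix.ext fun a b => ?_
            simp [dm]
          rw [h3, h2, Prod.smul_snd, Matrix.mul_smul] }
  have hP1 : ∀ i, ∀ p ∈ 𝒬 i, p.1 ∈ spS (JU i) := by
    rintro i p ⟨δ, ⟨h1, -⟩, -⟩
    rw [mem_spS]
    have h2 := congrArg (dm δ) (hxJ i)
    have h3 : dm δ (JU i) = 0 := by
      rw [← hJU']
      exact dm_const δ _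
    rw [dm_mul, dm_mul, h3, Matrix.mul_zero, add_zero, dm_transpose, h1, transpose_mul] at h2
    have h4 : (x i)ᵀ * (p.1ᵀ * JU i + JU i * p.1) * x i = 0 := by
      rw [← h2]
      simp only [Matrix.mul_add, Matrix.add_mul, Matrix.mul_assoc]
    have hxt : IsUnit (x i)ᵀ.det := by rw [det_transpose]; exact hxu i
    calc p.1ᵀ * JU i + JU i * p.1 = ((x i)ᵀ⁻¹ * (x i)ᵀ) * (p.1ᵀ * JU i + JU i * p.1) * (x i * (x i)⁻¹) := by
          rw [nonsing_inv_mul _ hxt, hxx, Matrix.one_mul, Matrix.mul_one]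
      _ = (x i)ᵀ⁻¹ * ((x i)ᵀ * (p.1ᵀ * JU i + JU i * p.1) * x i) * (x i)⁻¹ := by simp only [Matrix.mul_assoc]
      _ = 0 := by rw [h4, Matrix.mul_zero, Matrix.zero_mul]
  have hP2 : ∀ i, ∀ A ∈ spS (JU i), ∃ E, (A, E) ∈ 𝒬 i := by
    intro i A hA
    obtain ⟨δ, hδ⟩ := der_sp hJs hJu hxJ hgen i hA
    refine ⟨Cs⁻¹ * dm δ Cs, δ, hδ, ?_⟩
    show dm δ Cs = Cs * (Cs⁻¹ * dm δ Cs)
    rw [← Matrix.mul_assoc, hCC, Matrix.one_mul]
  -- the subspace
  let L : Submodule (U ℂ) (Matrix (Fin n × Fin N) (Fin n × Fin N) (U ℂ)) := Lst fun k => LL (T k)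
  let W : Submodule (U ℂ) (Matrix (Fin n × Fin N) (Fin n × Fin N) (U ℂ)) :=
    { carrier := {Y | Cs * Y * Cs⁻¹ ∈ L}
      zero_mem' := by
        show Cs * 0 * Cs⁻¹ ∈ L
        rw [Matrix.mul_zero, Matrix.zero_mul]
        exact L.zero_mem
      add_mem' := by
        intro a b ha hb
        show Cs * (a + b) * Cs⁻¹ ∈ L
        rw [Matrix.mul_add, Matrix.add_mul]
        exact L.add_mem ha hb
      smul_mem' := by
        intro c a ha
        show Cs * (c • a) * Cs⁻¹ ∈ L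
        rw [Matrix.mul_smul, Matrix.smul_mul]
        exact L.smul_mem c ha }
  set Vs := (gm V).map (algebraMap (U ℚ) (U ℂ)) with hVs
  have hVs' : Vs = gm fun k => (V k).map (algebraMap ℚ ℂ) := gm_map V
  have hVu : IsUnit Vs.det := by
    rw [hVs']
    refine gm_unit fun k => ?_
    have h1 : ((V k).map (algebraMap ℚ ℂ)).det = algebraMap ℚ ℂ (V k).det := (RingHom.map_det (algebraMap ℚ ℂ) (V k)).symm
    rw [h1]
    exact (map_ne_zero _).2 (hV k)
  have hVV : Vs * Vs⁻¹ = 1 := mul_nonsing_inv _ hVu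
  have hcx : gm (fun k => C k * blockDiagonal (z k) * (V k).map (algebraMap ℚ ℂ)) = Cs * blockDiagonal x * Vs := by
    rw [gm_mul, gm_mul, gm_bd, hVs']
  have hw : ∀ i, ∀ p ∈ 𝒬 i, ∃ δ : Derivation (U ℚ) (U ℂ) (U ℂ),
      dm δ (gm fun k => C k * blockDiagonal (z k) * (V k).map (algebraMap ℚ ℂ)) *
        (gm fun k => C k * blockDiagonal (z k) * (V k).map (algebraMap ℚ ℂ))⁻¹ = Cs * (ib i p.1 + p.2) * Cs⁻¹ := by
    rintro i p ⟨δ, ⟨h1, h1b⟩, h2⟩
    refine ⟨δ, ?_⟩
    have h3 : dm δ (blockDiagonal x) = ib i p.1 * blockDiagonal x := by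
      rw [dm_bd, ib_apply, ← blockDiagonal_mul]
      congr 1
      funext j
      by_cases h : j = i
      · subst h
        rw [Pi.single_eq_same, h1]
      · rw [Pi.single_eq_of_ne h, h1b j h, Matrix.zero_mul]
    have hbu : blockDiagonal x * (blockDiagonal x)⁻¹ = 1 := by rw [hbi, hbx]
    have h4 : dm δ Vs = 0 := dm_const δ _
    rw [hcx, dm_mul, dm_mul, h3, h2, h4, Matrix.mul_zero, add_zero, Matrix.mul_inv_rev, Matrix.mul_inv_rev]
    calc (Cs * p.2 * blockDiagonal x + Cs * (ib i p.1 * blockDiagonal x)) * Vs * (Vs⁻¹ * ((blockDiagonal x)⁻¹ * Cs⁻¹)) =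
        (Cs * p.2 * blockDiagonal x + Cs * (ib i p.1 * blockDiagonal x)) * (Vs * Vs⁻¹) * ((blockDiagonal x)⁻¹ * Cs⁻¹) := by
          simp only [Matrix.mul_assoc]
      _ = Cs * (p.2 * (blockDiagonal x * (blockDiagonal x)⁻¹) + ib i p.1 * (blockDiagonal x * (blockDiagonal x)⁻¹)) * Cs⁻¹ := by
          rw [hVV, Matrix.mul_one]
          simp only [Matrix.add_mul, Matrix.mul_add, Matrix.mul_assoc]
      _ = Cs * (ib i p.1 + p.2) * Cs⁻¹ := by rw [hbu, Matrix.mul_one, Matrix.mul_one, add_comm p.2]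
  have conj_comm : ∀ X Y : Matrix (Fin n × Fin N) (Fin n × Fin N) (U ℂ), Cs * (X * Y - Y * X) * Cs⁻¹ =
      (Cs * X * Cs⁻¹) * (Cs * Y * Cs⁻¹) - (Cs * Y * Cs⁻¹) * (Cs * X * Cs⁻¹) := by
    intro X Y
    have h1 : ∀ X Y : Matrix (Fin n × Fin N) (Fin n × Fin N) (U ℂ),
        (Cs * X * Cs⁻¹) * (Cs * Y * Cs⁻¹) = Cs * (X * Y) * Cs⁻¹ := by
      intro X Y
      calc (Cs * X * Cs⁻¹) * (Cs * Y * Cs⁻¹) = Cs * X * (Cs⁻¹ * Cs) * Y * Cs⁻¹ := by simp only [Matrix.mul_assoc]
        _ = Cs * (X * Y) * Cs⁻¹ := by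
          rw [hCC', Matrix.mul_one]
          simp only [Matrix.mul_assoc]
    rw [h1, h1, Matrix.mul_sub, Matrix.sub_mul]
  have hmain : ∀ i, ∀ A ∈ spS (JU i), ib i A ∈ W := by
    intro i
    refine alg_core hn (hJs i) (hJu i) (ib i) (ib_inj i) (ib_mul i) (𝒬 i) (hP1 i) (hP2 i) 𝒩 ?_ hone hdim W ?_ ?_
    · rintro p ⟨δ, -, h2⟩
      have h3 := h𝒩 δ
      rw [h2, ← Matrix.mul_assoc, hCC', Matrix.one_mul] at h3
      exact h3
    · intro p hp Y hY
      obtain ⟨δ, hδ⟩ := hw i p hp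
      show Cs * _ * Cs⁻¹ ∈ L
      rw [conj_comm, ← hδ]
      exact normL hK hD hT hc δ hY
    · intro p hp q hq s hs
      obtain ⟨δ, hδ⟩ := hw i p hp
      obtain ⟨δ', hδ'⟩ := hw i q hq
      show Cs * _ * Cs⁻¹ ∈ L
      rw [conj_comm, conj_comm, ← hδ, ← hδ']
      refine commL hK hD hT hc δ δ' fun Y hY => ?_
      have h1 : Y = Cs * (Cs⁻¹ * Y * Cs) * Cs⁻¹ := by
        calc Y = (Cs * Cs⁻¹) * Y * (Cs * Cs⁻¹) := by rw [hCC, Matrix.one_mul, Matrix.mul_one]
          _ = _ := by simp only [Matrix.mul_assoc]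
      rw [h1, ← conj_comm]
      refine hs _ ?_
      show Cs * (Cs⁻¹ * Y * Cs) * Cs⁻¹ ∈ L
      rw [← h1]
      exact hY
  -- back to the components
  rw [Filter.eventually_all]
  intro i
  by_contra hcon
  rw [← Ultrafilter.eventually_not] at hcon
  have h1 : ∀ k, ∃ X ∈ spS (cm (J i)), (¬ ∀ X ∈ spS (cm (J i)), fl (C k * ib i X * (C k)⁻¹) ∈ LL (T k)) →
      fl (C k * ib i X * (C k)⁻¹) ∉ LL (T k) := by
    intro k
    by_cases hk : ∀ X ∈ spS (cm (J i)), fl (C k * ib i X * (C k)⁻¹) ∈ LL (T k)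
    · exact ⟨0, (spS (cm (J i))).zero_mem, fun h => absurd hk h⟩
    · have hk' := hk
      push Not at hk'
      obtain ⟨Y, h1, h2⟩ := hk'
      exact ⟨Y, h1, fun _ => h2⟩
  choose X hX1 hX2 using h1
  have h2 : gm X ∈ spS (JU i) := by
    rw [mem_spS, hJU]
    simp only
    rw [← gm_transpose, ← gm_mul, ← gm_mul, ← gm_add, ← gm_zero]
    congr 1
    funext k
    exact hX1 k
  have h3 : Cs * ib i (gm X) * Cs⁻¹ ∈ L := hmain i _ h2
  have h4 : Cs⁻¹ = gm fun k => (C k)⁻¹ := by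
    refine Matrix.inv_eq_right_inv ?_
    rw [hCs, ← gm_mul, ← gm_one]
    congr 1
    funext k
    exact mul_nonsing_inv _ (isUnit_iff_ne_zero.2 (hC k))
  rw [h4, hCs, ← gm_ib, ← gm_mul, ← gm_mul] at h3
  have h5 := mem_Lst.1 h3
  obtain ⟨k, hk1, hk2⟩ := (h5.and hcon).exists
  exact hX2 k hk2 hk1

end core

end Pool.Agent.Helper880_LF.NB
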