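import Pool.Agent.Helper880_LF.GCore
import Pool.Agent.Y118.HG.Gi
import Pool.Agent.Y118.HG.Nr
import Pool.Agent.Y118.HG.Kfin

/-!
# Generic points from sequences; the hyperelliptic case
-/

set_option autoImplicit false
set_option linter.unusedSectionVars false
set_option linter.unusedVariables false

open Matrix Module Filter

namespace Pool.Agent.Helper880_LF.NB

open Pool.Agent.Helper880_LF
open Pool.Agent.Y118.UL (mk mk_eq mk_eq_zero mk_ne_zero mk_surj ev_ge eval_mk rep qc qc_mk algebraMap_eq U)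
open Pool.Agent.Y118.HX (aeval_gm tdm)
open Pool.Agent.Y119.HY (cm)

variable {n N : ℕ}

/-- generic points from sequences -/
theorem gen_seq {J : Fin N → Matrix (Fin n) (Fin n) ℚ} {z : ℕ → Fin N → Matrix (Fin n) (Fin n) ℂ}
    (h : ∀ d : ℕ, ∀ᶠ k in (hyperfilter ℕ : Filter ℕ), ∀ P : MvPolynomial (Fin N × Fin n × Fin n) ℚ, P.totalDegree ≤ d →
      MvPolynomial.aeval (fun s => z k s.1 s.2.1 s.2.2) P = 0 → ∀ g : Fin N → Matrix (Fin n) (Fin n) ℂ,
      (∀ j, (g j)ᵀ * cm (J j) * g j = cm (J j)) → MvPolynomial.aeval (fun s => g s.1 s.2.1 s.2.2) P = 0) :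
    GenericN (U ℚ) (fun j => gm fun _ => cm (J j)) (fun j => gm fun k => z k j) := by
  intro P hP g hg
  obtain ⟨P0, rfl⟩ := rep P
  choose G hG using fun j => gm_surj (g j)
  have e1 : ∀ᶠ k in (hyperfilter ℕ : Filter ℕ), ∀ j, (G j k)ᵀ * cm (J j) * G j k = cm (J j) := by
    rw [Filter.eventually_all]
    intro j
    have h1 := hg j
    simp only at h1
    rw [← hG j, ← gm_transpose, ← gm_mul, ← gm_mul] at h1
    exact gm_eq h1
  have e2 : ∀ᶠ k in (hyperfilter ℕ : Filter ℕ), MvPolynomial.aeval (fun s : Fin N × Fin n × Fin n =>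
      z k s.1 s.2.1 s.2.2) (MvPolynomial.map (Pi.evalRingHom (fun _ => ℚ) k) P0) = 0 := by
    have h1 := aeval_gm P0 fun (s : Fin N × Fin n × Fin n) k => z k s.1 s.2.1 s.2.2
    have h2 : MvPolynomial.aeval (fun s : Fin N × Fin n × Fin n => mk ℂ fun k => z k s.1 s.2.1 s.2.2)
        (MvPolynomial.map (mk ℚ) P0) = 0 := hP
    rw [h2] at h1
    exact mk_eq_zero.1 h1.symm
  have h3 := aeval_gm P0 fun (s : Fin N × Fin n × Fin n) k => G s.1 k s.2.1 s.2.2
  have h4 : MvPolynomial.aeval (fun s : Fin N × Fin n × Fin n => g s.1 s.2.1 s.2.2) (MvPolynomial.map (mk ℚ) P0) =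
      mk ℂ (fun k => MvPolynomial.aeval (fun s : Fin N × Fin n × Fin n => G s.1 k s.2.1 s.2.2)
        (MvPolynomial.map (Pi.evalRingHom (fun _ => ℚ) k) P0)) := by
    rw [← h3]
    congr 2
    funext s
    rw [← hG s.1]
    rfl
  show MvPolynomial.aeval (fun s : Fin N × Fin n × Fin n => g s.1 s.2.1 s.2.2) (MvPolynomial.map (mk ℚ) P0) = 0
  rw [h4, mk_eq_zero]
  filter_upwards [e1, e2, h P0.totalDegree] with k h5 h6 h7
  exact h7 _ (tdm _ _) h6 (fun j => G j k) h5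

end Pool.Agent.Helper880_LF.NB

namespace Pool.Agent.Helper880_LF.NB

open Polynomial Topology
open Pool.Agent.Y118.HP Pool.Agent.Y118.HG Pool.Agent.Y113 Pool.Agent.Y37.GF

variable {n : ℕ}

/-- rational relations between the values hold on the product of the symplectic groups -/
theorem rel_hyp (hn : Even n) {a : Fin n → ℝ} (ha : StrictMono a) (ha0 : ∀ i, a i ≠ 0) {m : Fin (n + 1)} {f : ℚ[X]}
    (h0 : InGap a m 0) (hf : f.map (algebraMap ℚ ℝ) = ∏ i, (X - C (a i))) (hf0 : f.coeff 0 ≠ 0) (Δ : ZDat n a m f)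
    {G0 : ℕ} (hsep : ∀ {r : ℕ} (g : Fin r → ℕ), SepN G0 g → Sep a (fun l => (g l : ℝ))) (N d : ℕ) :
    ∃ E : ℕ, ∀ H t : ℕ, (H + 2) ^ E ≤ t → ∀ g : Fin N → ℕ, SepN G0 g → (∀ i, g i ≤ H) →
      ∀ P : MvPolynomial (Fin N × Fin n × Fin n) ℚ, P.totalDegree ≤ d →
      MvPolynomial.aeval (fun s => ((Ez Δ.Z (1 / ((t : ℝ) - g s.1)) s.2.1 s.2.2 : ℝ) : ℂ)) P = 0 →
      ∀ x : Fin N → Matrix (Fin n) (Fin n) ℂ, (∀ j, x j ∈ SpS ℂ n) →
        MvPolynomial.aeval (fun s => x s.1 s.2.1 s.2.2) P = 0 := by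
  classical
  obtain ⟨κ, _, k0, b, w, hb0, hbD, hw, hb⟩ := exists_basis1 hn d
  obtain ⟨E, hE⟩ := li_val hn ha ha0 h0 hf hf0 Δ hsep d k0 b w hb0 hbD hw hb N
  obtain ⟨ε, hε, hball⟩ := Metric.eventually_nhds_iff.1 (Ez_mem hn ha h0 hf Δ)
  obtain ⟨E1, hE1⟩ := small_arg 1 hε
  refine ⟨E + E1, fun H t ht g hg hgH P hPd hP0 x hx => ?_⟩
  have ht1 : (H + 2) ^ E ≤ t := (Nat.pow_le_pow_right (by omega) (by omega)).trans ht
  have ht2 : (H + 2) ^ E1 ≤ t := (Nat.pow_le_pow_right (by omega) (by omega)).trans ht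
  obtain ⟨-, hli⟩ := hE H t ht1
  have hind := hli g hg hgH
  have hreal : ∀ j, Ez Δ.Z (1 / ((t : ℝ) - g j)) ∈ SpS ℝ n := by
    intro j
    refine hball ?_
    rw [Real.dist_eq, sub_zero]
    have := (hE1 H t ht2 (g j) (hgH j)).2
    rwa [one_mul] at this
  -- the coefficients
  set sj : ((Fin N × Fin n × Fin n) →₀ ℕ) → Fin N → Fin n × Fin n → ℕ := fun s j p => s (j, p.1, p.2) with hsj
  set c : (Fin N → κ) → ℚ := fun e => ∑ s ∈ P.support, P.coeff s * ∏ j, w (sj s j) (e j) with hc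
  have h1 : ∀ s ∈ P.support, ∀ j, dg (sj s j) ≤ d := by
    intro s hs j
    have h2 := MvPolynomial.le_totalDegree hs
    have h3 : (s.sum fun _ e => e) = ∑ j, ∑ p : Fin n × Fin n, s (j, p) := by
      rw [Finsupp.sum_fintype _ _ (fun _ => rfl), Fintype.sum_prod_type]
    have h4 : dg (sj s j) ≤ ∑ j, ∑ p : Fin n × Fin n, s (j, p) :=
      Finset.single_le_sum (f := fun j => ∑ p : Fin n × Fin n, s (j, p)) (fun _ _ => Nat.zero_le _) (Finset.mem_univ j)
    omega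
  have key : ∀ y : Fin N → Matrix (Fin n) (Fin n) ℂ, (∀ j, y j ∈ SpS ℂ n) →
      MvPolynomial.aeval (fun s => y s.1 s.2.1 s.2.2) P = ∑ e, ((c e : ℚ) : ℂ) * ∏ j, mnm (y j) (b (e j)) := by
    intro y hy
    have h2 : ∀ s ∈ P.support, ∏ p : Fin N × Fin n × Fin n, y p.1 p.2.1 p.2.2 ^ s p =
        ∑ e : Fin N → κ, ((∏ j, w (sj s j) (e j) : ℚ) : ℂ) * ∏ j, mnm (y j) (b (e j)) := by
      intro s hs
      have h3 : ∏ p : Fin N × Fin n × Fin n, y p.1 p.2.1 p.2.2 ^ s p = ∏ j, mnm (y j) (sj s j) := by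
        rw [Fintype.prod_prod_type]
        rfl
      rw [h3, Finset.prod_congr rfl fun j _ => hw (sj s j) (h1 s hs j) (y j) (hy j), Finset.prod_univ_sum]
      rw [Fintype.piFinset_univ]
      refine Finset.sum_congr rfl fun e _ => ?_
      rw [Finset.prod_mul_distrib]
      push_cast
      rfl
    rw [MvPolynomial.aeval_def, MvPolynomial.eval₂_eq', Finset.sum_congr rfl fun s hs => by rw [h2 s hs], hc]
    push_cast
    simp only [Finset.mul_sum, Finset.sum_mul]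
    rw [Finset.sum_comm]
    refine Finset.sum_congr rfl fun e _ => Finset.sum_congr rfl fun s _ => ?_
    rw [eq_ratCast]
    ring
  have h5 : c = 0 := by
    have h6 := key (fun j => (Ez Δ.Z (1 / ((t : ℝ) - g j))).map (algebraMap ℝ ℂ)) (fun j => SpS_map _ (hreal j))
    have h7 : MvPolynomial.aeval (fun s : Fin N × Fin n × Fin n =>
        ((Ez Δ.Z (1 / ((t : ℝ) - g s.1))).map (algebraMap ℝ ℂ)) s.2.1 s.2.2) P = 0 := hP0
    rw [h7] at h6
    have h8 : ∑ e, c e • ∏ j, mnm (Ez Δ.Z (1 / ((t : ℝ) - g j))) (b (e j)) = 0 := by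
      have h9 : ((∑ e, c e • ∏ j, mnm (Ez Δ.Z (1 / ((t : ℝ) - g j))) (b (e j)) : ℝ) : ℂ) = 0 := by
        rw [h6]
        push_cast
        refine Finset.sum_congr rfl fun e _ => ?_
        rw [Rat.smul_def]
        push_cast
        congr 1
        refine Finset.prod_congr rfl fun j _ => ?_
        rw [mnm_map]
        rfl
      exact_mod_cast h9
    funext e
    exact Fintype.linearIndependent_iff.1 hind c h8 e
  rw [key x hx, h5]
  simp

end Pool.Agent.Helper880_LF.NB
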