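import Pool.Agent.Helper880_LF.GB

/-!
# First order variation of the relations of a subtorsor
-/

set_option autoImplicit false
set_option linter.unusedSectionVars false
set_option linter.unusedVariables false

open Matrix Module Filter

namespace Pool.Agent.Helper880_LF.NB

open Pool.Agent.Y118.UL (mk mk_eq mk_eq_zero mk_ne_zero mk_surj ev_ge eval_mk rep qc qc_mk algebraMap_eq U)
open Pool.Agent.TH119.DR Pool.Agent.TH119.MX Pool.Agent.TH127.PT Pool.Agent.Y123.ST Pool.Agent.Y123.GN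

variable {B : Type} [Fintype B] [DecidableEq B] {A : Type} [Fintype A]

/-- the expression -/
def Gx {R : Type} [CommRing R] (J : ℕ) (c' c : Matrix B B R) (M S M' : A → Matrix B B R)
    (X X' : Matrix B B R) : Matrix B B R :=
  ∑ a, M a * ((X * c') ^ J * S a * (c * X') ^ J) * M' a

theorem Gx_map {R R' : Type} [CommRing R] [CommRing R'] (h : R →+* R') (J : ℕ) (c' c : Matrix B B R)
    (M S M' : A → Matrix B B R) (X X' : Matrix B B R) :
    (Gx J c' c M S M' X X').map h = Gx J (c'.map h) (c.map h) (fun a => (M a).map h) (fun a => (S a).map h)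
      (fun a => (M' a).map h) (X.map h) (X'.map h) := by
  simp only [← RingHom.mapMatrix_apply, Gx, map_sum, map_mul, map_pow]

/-- the value of a functional -/
def vx {R : Type} [CommRing R] (φ G : Matrix B B R) : R := ∑ i, ∑ j, φ i j * G i j

theorem vx_map {R R' : Type} [CommRing R] [CommRing R'] (h : R →+* R') (φ G : Matrix B B R) :
    h (vx φ G) = vx (φ.map h) (G.map h) := by
  simp only [vx, map_sum, map_mul, Matrix.map_apply]

theorem vx_add {R : Type} [CommRing R] (φ G G' : Matrix B B R) : vx φ (G + G') = vx φ G + vx φ G' := by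
  simp only [vx, Matrix.add_apply, mul_add, Finset.sum_add_distrib]

theorem vx_smul {R : Type} [CommRing R] (z : R) (φ G : Matrix B B R) : vx φ (z • G) = z * vx φ G := by
  simp only [vx, Matrix.smul_apply, smul_eq_mul, Finset.mul_sum]
  refine Finset.sum_congr rfl fun i _ => Finset.sum_congr rfl fun j _ => ?_
  ring

/-! ### dual numbers -/

section dual
variable {Ω : Type} [Field Ω]

/-- infinitesimal matrices -/
def ir (Y : Matrix B B Ω) : Matrix B B (TrivSqZeroExt Ω Ω) := Y.map TrivSqZeroExt.inr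

theorem inl_inr (a b : Ω) : (il Ω a) * (TrivSqZeroExt.inr b : TrivSqZeroExt Ω Ω) = TrivSqZeroExt.inr (a * b) := by
  rw [il_apply, TrivSqZeroExt.inl_mul_inr, smul_eq_mul]

theorem inr_inl (a b : Ω) : (TrivSqZeroExt.inr b : TrivSqZeroExt Ω Ω) * (il Ω a) = TrivSqZeroExt.inr (b * a) := by
  rw [mul_comm, inl_inr, mul_comm]

theorem il_mul_ir (X Y : Matrix B B Ω) : X.map (il Ω) * ir Y = ir (X * Y) := by
  refine Matrix.ext fun i j => ?_
  show ∑ l, il Ω (X i l) * TrivSqZeroExt.inr (Y l j) = TrivSqZeroExt.inr (∑ l, X i l * Y l j)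
  rw [TrivSqZeroExt.inr_sum]
  exact Finset.sum_congr rfl fun l _ => inl_inr _ _

theorem ir_mul_il (X Y : Matrix B B Ω) : ir Y * X.map (il Ω) = ir (Y * X) := by
  refine Matrix.ext fun i j => ?_
  show ∑ l, TrivSqZeroExt.inr (Y i l) * il Ω (X l j) = TrivSqZeroExt.inr (∑ l, Y i l * X l j)
  rw [TrivSqZeroExt.inr_sum]
  exact Finset.sum_congr rfl fun l _ => inr_inl _ _

theorem ir_mul_ir (X Y : Matrix B B Ω) : ir X * ir Y = 0 := by
  ext i j
  · simp [ir, Matrix.mul_apply]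
  · simp [ir, Matrix.mul_apply]

theorem il_mul_il (X Y : Matrix B B Ω) : X.map (il Ω) * Y.map (il Ω) = (X * Y).map (il Ω) :=
  (Matrix.map_mul).symm

theorem ir_add (X Y : Matrix B B Ω) : ir (X + Y) = ir X + ir Y := by
  ext i j <;> simp [ir]

theorem ir_neg (X : Matrix B B Ω) : ir (-X) = -ir X := by
  ext i j <;> simp [ir]

theorem ir_sum (s : Finset A) (X : A → Matrix B B Ω) : ir (∑ a ∈ s, X a) = ∑ a ∈ s, ir (X a) := by
  classical
  induction s using Finset.induction_on with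
  | empty =>
    ext i j <;> simp [ir]
  | insert a s ha ih => rw [Finset.sum_insert ha, Finset.sum_insert ha, ir_add, ih]

theorem one_add_pow (w : Matrix B B Ω) (J : ℕ) : (1 + ir w) ^ J = 1 + ir ((J : Ω) • w) := by
  induction J with
  | zero =>
    rw [pow_zero, Nat.cast_zero, zero_smul]
    have : ir (0 : Matrix B B Ω) = 0 := by ext i j <;> simp [ir]
    rw [this, add_zero]
  | succ J ih =>
    rw [pow_succ, ih, Matrix.mul_add, Matrix.mul_one, Matrix.add_mul, Matrix.one_mul, ir_mul_ir, add_zero, add_assoc,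
      ← ir_add, Nat.cast_succ, add_smul, one_smul]

theorem map_fd {k : Type} [Field k] [Algebra k Ω] (δ : Derivation k Ω Ω) (X : Matrix B B Ω) :
    X.map (fd δ) = X.map (il Ω) + ir (dm δ X) := by
  ext i j <;> simp [ir, fd_apply, il_apply, dm]

theorem vx_ir (φ G : Matrix B B Ω) : vx (φ.map (il Ω)) (ir G) = TrivSqZeroExt.inr (vx φ G) := by
  unfold vx
  rw [TrivSqZeroExt.inr_sum]
  refine Finset.sum_congr rfl fun i _ => ?_
  rw [TrivSqZeroExt.inr_sum]
  exact Finset.sum_congr rfl fun j _ => inl_inr _ _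

end dual

/-! ### the generic point -/

/-- the variables -/
abbrev Iv (B : Type) : Type := (B × B) ⊕ (B × B)

noncomputable def Xg (B : Type) : Matrix B B (MvPolynomial (Iv B) (ℕ → ℂ)) :=
  Matrix.of fun i j => MvPolynomial.X (Sum.inl (i, j))

noncomputable def Xg' (B : Type) : Matrix B B (MvPolynomial (Iv B) (ℕ → ℂ)) :=
  Matrix.of fun i j => MvPolynomial.X (Sum.inr (i, j))

noncomputable def cg (F : ℕ → Matrix B B ℂ) : Matrix B B (MvPolynomial (Iv B) (ℕ → ℂ)) :=
  Matrix.of fun i j => MvPolynomial.C (fun k => F k i j)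

/-- the point -/
noncomputable def pt (X : Matrix B B ℂ) : Iv B → ℂ := Sum.elim (fun p => X p.1 p.2) (fun p => X⁻¹ p.1 p.2)

section
variable {K : ℕ → Subfield ℂ} {D : ℕ} (hK : ∀ k, FiniteDimensional ℚ (K k)) (hD : ∀ k, finrank ℚ (K k) ≤ D)
  {T : ℕ → Set (Matrix B B ℂ)} (hT : ∀ k, IsSubtorsor (K k) (T k)) {c : ℕ → Matrix B B ℂ}
  (hc : ∀ k, c k ∈ T k)
include hK hD hT hc

theorem gc_mul : gm c * gm (fun k => (c k)⁻¹) = 1 := by
  rw [← gm_mul, ← gm_one]
  congr 1
  funext k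
  exact mul_inv' (hT k) (hc k)

theorem gc_inv : (gm c)⁻¹ = gm (fun k => (c k)⁻¹) := Matrix.inv_eq_right_inv (gc_mul hK hD hT hc)

/-- **first order variation** -/
theorem stepU {J : ℕ} (hJ : 1 ≤ J) (M S M' : A → ℕ → Matrix B B ℂ) (φ : ℕ → Matrix B B ℂ)
    (h : ∀ k, ∀ X ∈ T k, vx (φ k) (Gx J (c k)⁻¹ (c k) (fun a => M a k) (fun a => S a k) (fun a => M' a k) X X⁻¹) = 0)
    (δ : Derivation (U ℚ) (U ℂ) (U ℂ)) :
    vx (gm φ) (∑ a, gm (M a) * ((dm δ (gm c) * (gm c)⁻¹) * gm (S a) - gm (S a) * (dm δ (gm c) * (gm c)⁻¹)) *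
      gm (M' a)) = 0 := by
  set P : MvPolynomial (Iv B) (ℕ → ℂ) := vx (cg φ) (Gx J (cg fun k => (c k)⁻¹) (cg c) (fun a => cg (M a))
    (fun a => cg (S a)) (fun a => cg (M' a)) (Xg B) (Xg' B)) with hP
  let 𝒳 : ℕ → Set (Iv B → ℂ) := fun k => {x | ∃ X ∈ T k, x = pt X}
  have hσinv : ∀ (σ : ℂ ≃+* ℂ) (X : Matrix B B ℂ), IsUnit X.det → (X.map σ)⁻¹ = X⁻¹.map σ := by
    intro σ X hX
    refine Matrix.inv_eq_right_inv ?_
    have h1 : (X * X⁻¹).map σ = X.map σ * X⁻¹.map σ := Matrix.map_mul (f := (σ : ℂ →+* ℂ))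
    rw [← h1, Matrix.mul_nonsing_inv _ hX]
    exact Matrix.map_one _ (map_zero σ) (map_one σ)
  have h𝒳 : ∀ k (σ : ℂ ≃+* ℂ), (∀ x ∈ K k, σ x = x) → ∀ x ∈ 𝒳 k, (fun i => σ (x i)) ∈ 𝒳 k := by
    rintro k σ hσ _ ⟨X, hX, rfl⟩
    refine ⟨X.map σ, aut_mem (hT k) hσ hX, ?_⟩
    funext i
    rcases i with p | p
    · rfl
    · show σ (X⁻¹ p.1 p.2) = (X.map σ)⁻¹ p.1 p.2
      rw [hσinv σ X (Tdet (hT k) hX)]
      rfl
  -- the values at the points
  have hPk : ∀ k, ∀ x ∈ 𝒳 k, MvPolynomial.eval x (MvPolynomial.map (Pi.evalRingHom (fun _ => ℂ) k) P) = 0 := by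
    rintro k _ ⟨X, hX, rfl⟩
    have h1 : MvPolynomial.eval (pt X) (MvPolynomial.map (Pi.evalRingHom (fun _ => ℂ) k) P) =
        ((MvPolynomial.eval (pt X)).comp (MvPolynomial.map (Pi.evalRingHom (fun _ => ℂ) k))) P := rfl
    have hcg : ∀ F : ℕ → Matrix B B ℂ, (cg F).map
        ((MvPolynomial.eval (pt X)).comp (MvPolynomial.map (Pi.evalRingHom (fun _ => ℂ) k))) = F k := by
      intro F
      ext i j
      simp [cg]
    have hXg : (Xg B).map ((MvPolynomial.eval (pt X)).comp (MvPolynomial.map (Pi.evalRingHom (fun _ => ℂ) k))) = X := by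
      ext i j
      simp [Xg, pt]
    have hXg' : (Xg' B).map ((MvPolynomial.eval (pt X)).comp (MvPolynomial.map (Pi.evalRingHom (fun _ => ℂ) k))) = X⁻¹ := by
      ext i j
      simp [Xg', pt]
    rw [h1, hP, vx_map, Gx_map]
    simp only [hcg, hXg, hXg']
    exact h k X hX
  have hy : ∀ k, (fun i => (fun (i : Iv B) (k : ℕ) => pt (c k) i) i k) ∈ 𝒳 k := fun k => ⟨c k, hc k, rfl⟩
  have hmain := pud hK hD (P := P) h𝒳 hPk (y := fun i k => pt (c k) i) hy δ
  -- the value in the dual numbers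
  set e : MvPolynomial (Iv B) (ℕ → ℂ) →+* TrivSqZeroExt (U ℂ) (U ℂ) :=
    MvPolynomial.eval₂Hom ((il (U ℂ)).comp (mk ℂ)) (fun i => fd δ (mk ℂ fun k => pt (c k) i)) with he
  have hmain' : e P = 0 := hmain
  have hcg : ∀ F : ℕ → Matrix B B ℂ, (cg F).map e = (gm F).map (il (U ℂ)) := by
    intro F
    refine Matrix.ext fun i j => ?_
    rw [Matrix.map_apply, cg, Matrix.of_apply, he, MvPolynomial.coe_eval₂Hom, MvPolynomial.eval₂_C]
    rfl
  have hXg : (Xg B).map e = (gm c).map (fd δ) := by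
    refine Matrix.ext fun i j => ?_
    rw [Matrix.map_apply, Xg, Matrix.of_apply, he, MvPolynomial.coe_eval₂Hom, MvPolynomial.eval₂_X]
    rfl
  have hXg' : (Xg' B).map e = (gm fun k => (c k)⁻¹).map (fd δ) := by
    refine Matrix.ext fun i j => ?_
    rw [Matrix.map_apply, Xg', Matrix.of_apply, he, MvPolynomial.coe_eval₂Hom, MvPolynomial.eval₂_X]
    rfl
  rw [hP, vx_map, Gx_map] at hmain'
  simp only [hcg, hXg, hXg'] at hmain'
  -- the computation
  set w := dm δ (gm c) * (gm c)⁻¹ with hw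
  have hcc : gm c * gm (fun k => (c k)⁻¹) = 1 := gc_mul hK hD hT hc
  have hinv := gc_inv hK hD hT hc
  have e1 : (gm c).map (fd δ) * (gm fun k => (c k)⁻¹).map (il (U ℂ)) = 1 + ir w := by
    rw [map_fd, Matrix.add_mul, il_mul_il, ir_mul_il, hcc, hw, hinv]
    congr 1
    exact Matrix.map_one _ (map_zero _) (map_one _)
  have e2 : (gm c).map (il (U ℂ)) * (gm fun k => (c k)⁻¹).map (fd δ) = 1 + ir (-w) := by
    rw [map_fd, Matrix.mul_add, il_mul_il, il_mul_ir, hcc]
    congr 1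
    · exact Matrix.map_one _ (map_zero _) (map_one _)
    · congr 1
      have h1 := congrArg (dm δ) hcc
      rw [dm_mul] at h1
      have h2 : dm δ (1 : Matrix B B (U ℂ)) = 0 := by
        ext i j
        unfold dm
        rw [Matrix.map_apply, Matrix.one_apply]
        split_ifs <;> simp
      rw [h2] at h1
      rw [hw, hinv]
      exact eq_neg_of_add_eq_zero_right h1
  rw [Gx, e1, e2, one_add_pow, one_add_pow] at hmain'
  have e3 : (∑ a, (gm (M a)).map (il (U ℂ)) * ((1 + ir ((J : U ℂ) • w)) * (gm (S a)).map (il (U ℂ)) *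
      (1 + ir ((J : U ℂ) • -w))) * (gm (M' a)).map (il (U ℂ))) =
      (∑ a, gm (M a) * gm (S a) * gm (M' a)).map (il (U ℂ)) +
      ir ((J : U ℂ) • ∑ a, gm (M a) * (w * gm (S a) - gm (S a) * w) * gm (M' a)) := by
    have h1 : (∑ a, gm (M a) * gm (S a) * gm (M' a)).map (il (U ℂ)) =
        ∑ a, (gm (M a) * gm (S a) * gm (M' a)).map (il (U ℂ)) := by
      simp only [← RingHom.mapMatrix_apply, map_sum]
    rw [h1, Finset.smul_sum, ir_sum, ← Finset.sum_add_distrib]
    refine Finset.sum_congr rfl fun a _ => ?_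
    have h2 : (1 + ir ((J : U ℂ) • w)) * (gm (S a)).map (il (U ℂ)) * (1 + ir ((J : U ℂ) • -w)) =
        (gm (S a)).map (il (U ℂ)) + ir ((J : U ℂ) • (w * gm (S a) - gm (S a) * w)) := by
      rw [Matrix.add_mul, Matrix.one_mul, ir_mul_il, Matrix.mul_add, Matrix.mul_one, Matrix.add_mul, il_mul_ir, ir_mul_ir,
        add_zero, add_assoc, ← ir_add]
      congr 2
      rw [Matrix.smul_mul, Matrix.mul_smul, Matrix.mul_neg, smul_neg, smul_sub, sub_eq_add_neg]
    rw [h2, Matrix.mul_add, Matrix.add_mul, il_mul_il, il_mul_il, il_mul_ir, ir_mul_il]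
    congr 2
    rw [Matrix.mul_smul, Matrix.smul_mul]
  rw [e3, vx_add, vx_ir, ← vx_map] at hmain'
  have h4 := congrArg TrivSqZeroExt.snd hmain'
  rw [TrivSqZeroExt.snd_add, il_apply, TrivSqZeroExt.snd_inl, TrivSqZeroExt.snd_inr, zero_add, TrivSqZeroExt.snd_zero,
    vx_smul] at h4
  refine (mul_eq_zero.1 h4).resolve_left ?_
  exact_mod_cast (by omega : J ≠ 0)

end

end Pool.Agent.Helper880_LF.NB
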