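import Pool.Agent.Helper880_LF.Cod
import Pool.Agent.H552R3.Tsen.Zero

/-!
# The symplectic Lie algebra of rank `n = 2g` has no proper subalgebras of codimension at most `n - 2`
-/

set_option autoImplicit false
set_option linter.unusedSectionVars false
set_option linter.unusedVariables false

open Matrix Module

namespace Pool.Agent.Helper880_LF

/-- the radical of an ideal stable under a derivation -/
theorem seid {R : Type} [CommRing R] [Algebra ℚ R] (δ : R → R) (hadd : ∀ a b, δ (a + b) = δ a + δ b)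
    (hmul : ∀ a b, δ (a * b) = a * δ b + b * δ a) {I : Ideal R} (hI : ∀ a ∈ I, δ a ∈ I) {f : R} {r : ℕ}
    (hf : f ^ r ∈ I) : (δ f) ^ (2 * r) ∈ I := by
  have hpow : ∀ (a : R) (k : ℕ), δ (a ^ (k + 1)) = ((k : R) + 1) * a ^ k * δ a := by
    intro a k
    induction k with
    | zero => simp
    | succ k ih =>
      rw [pow_succ, hmul, ih]
      push_cast
      ring
  have key : ∀ j, j ≤ r → f ^ (r - j) * (δ f) ^ (2 * j) ∈ I := by
    intro j
    induction j with
    | zero =>
      intro _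
      simpa using hf
    | succ j ih =>
      intro hj
      have h1 := ih (by omega)
      obtain ⟨s, hs⟩ : ∃ s, r - j = s + 1 := ⟨r - j - 1, by omega⟩
      have hs' : r - (j + 1) = s := by omega
      rw [hs] at h1
      rw [hs']
      have h2 := I.mul_mem_left (δ f) (hI _ h1)
      have h3 : ∃ y, δ (δ f ^ (2 * j)) * f ^ (s + 1) * δ f = y * (f ^ (s + 1) * δ f ^ (2 * j)) := by
        rcases j with _ | j
        · refine ⟨0, ?_⟩
          have h4 : δ (δ f ^ (2 * 0)) = 0 := by
            have h5 := hmul 1 1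
            have h6 : δ (1 : R) = 0 := by
              rw [mul_one, one_mul] at h5
              have h7 : δ (1 : R) + δ 1 = δ 1 + 0 := by rw [add_zero]; exact h5.symm
              exact add_left_cancel h7
            rw [mul_zero, pow_zero, h6]
          rw [h4]
          ring
        · refine ⟨((2 * j + 1 : ℕ) + 1 : R) * δ (δ f), ?_⟩
          have h4 : 2 * (j + 1) = (2 * j + 1) + 1 := by ring
          rw [h4, hpow]
          push_cast
          ring
      obtain ⟨y, hy⟩ := h3
      have h5 : δ f * δ (f ^ (s + 1) * δ f ^ (2 * j)) = y * (f ^ (s + 1) * δ f ^ (2 * j)) +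
          ((s : R) + 1) * (f ^ s * δ f ^ (2 * (j + 1))) := by
        rw [hmul, hpow, ← hy]
        ring
      rw [h5] at h2
      have h6 := (Submodule.add_mem_iff_right I (I.mul_mem_left y h1)).1 h2
      have h7 : algebraMap ℚ R ((s : ℚ) + 1)⁻¹ * (((s : R) + 1) * (f ^ s * δ f ^ (2 * (j + 1)))) =
          f ^ s * δ f ^ (2 * (j + 1)) := by
        have h8 : algebraMap ℚ R ((s : ℚ) + 1)⁻¹ * ((s : R) + 1) = 1 := by
          have h9 : ((s : R) + 1) = algebraMap ℚ R ((s : ℚ) + 1) := by simp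
          rw [h9, ← map_mul, inv_mul_cancel₀ (by positivity), map_one]
        rw [← mul_assoc, h8, one_mul]
      rw [← h7]
      exact I.mul_mem_left _ h6
  have := key r le_rfl
  simpa using this

variable {F : Type} [Field F] [CharZero F] {n : ℕ} {J : Matrix (Fin n) (Fin n) F}

/-- the quadratic form attached to a functional -/
noncomputable def qf (J : Matrix (Fin n) (Fin n) F) (ψ : Matrix (Fin n) (Fin n) F →ₗ[F] F) : MvPolynomial (Fin n) F :=
  ∑ i, ∑ j, MvPolynomial.C (ψ (pr J (Pi.single i 1) (Pi.single j 1))) * (MvPolynomial.X i * MvPolynomial.X j)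

theorem pr_expand (ψ : Matrix (Fin n) (Fin n) F →ₗ[F] F) (u v : Fin n → F) :
    ψ (pr J u v) = ∑ i, ∑ j, ψ (pr J (Pi.single i 1) (Pi.single j 1)) * (u i * v j) := by
  have hb : ∀ w : Fin n → F, w = ∑ i, w i • (Pi.single i (1 : F) : Fin n → F) := by
    intro w
    funext a
    simp [Finset.sum_apply, Pi.single_apply]
  have hl : ∀ (s : Finset (Fin n)) (f : Fin n → Fin n → F) (v : Fin n → F), pr J (∑ i ∈ s, f i) v = ∑ i ∈ s, pr J (f i) v := by
    intro s f v
    induction s using Finset.cons_induction with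
    | empty => simp [pr_zero_left]
    | cons a s ha ih => rw [Finset.sum_cons, Finset.sum_cons, pr_add_left, ih]
  have h1 : pr J u v = ∑ i, ∑ j, (u i * v j) • pr J (Pi.single i 1) (Pi.single j 1) := by
    conv_lhs => rw [hb u, hl]
    refine Finset.sum_congr rfl fun i _ => ?_
    rw [pr_symm]
    conv_lhs => rw [hb v, hl]
    refine Finset.sum_congr rfl fun j _ => ?_
    rw [pr_smul_left, pr_smul_right, pr_symm, smul_smul, mul_comm]
  rw [h1, map_sum]
  refine Finset.sum_congr rfl fun i _ => ?_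
  rw [map_sum]
  refine Finset.sum_congr rfl fun j _ => ?_
  rw [map_smul, smul_eq_mul, mul_comm]

theorem qf_eval (ψ : Matrix (Fin n) (Fin n) F →ₗ[F] F) (v : Fin n → F) : MvPolynomial.eval v (qf J ψ) = ψ (pr J v v) := by
  rw [pr_expand]
  unfold qf
  simp

/-- the derivation of the polynomial functions -/
noncomputable def dl (x : Matrix (Fin n) (Fin n) F) : Derivation F (MvPolynomial (Fin n) F) (MvPolynomial (Fin n) F) :=
  MvPolynomial.mkDerivation F fun i => ∑ j, MvPolynomial.C (x i j) * MvPolynomial.X j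

theorem dl_X (x : Matrix (Fin n) (Fin n) F) (i : Fin n) (v : Fin n → F) :
    MvPolynomial.eval v (dl x (MvPolynomial.X i)) = (x *ᵥ v) i := by
  unfold dl
  rw [MvPolynomial.mkDerivation_X]
  simp [mulVec, dotProduct]

theorem dl_qf (hJ : Jᵀ = -J) {x : Matrix (Fin n) (Fin n) F} (hx : x ∈ spS J) (ψ ψ' : Matrix (Fin n) (Fin n) F →ₗ[F] F)
    (hψ : ∀ y, ψ' y = ψ (x * y - y * x)) : dl x (qf J ψ) = qf J ψ' := by
  apply MvPolynomial.funext
  intro v
  rw [qf_eval, hψ, comm_pr hJ hx, map_add, pr_expand, pr_expand ψ v]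
  unfold qf
  rw [map_sum, map_sum, ← Finset.sum_add_distrib]
  refine Finset.sum_congr rfl fun i _ => ?_
  rw [map_sum, map_sum, ← Finset.sum_add_distrib]
  refine Finset.sum_congr rfl fun j _ => ?_
  rw [Derivation.leibniz, Derivation.leibniz]
  have h1 : dl x (MvPolynomial.C (ψ (pr J (Pi.single i 1) (Pi.single j 1)))) = 0 := Derivation.map_algebraMap _ _
  rw [h1, smul_zero, add_zero]
  simp only [smul_eq_mul, map_mul, map_add, MvPolynomial.eval_C, MvPolynomial.eval_X, dl_X]
  ring

section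
variable [IsAlgClosed F] {𝔫 : Submodule F (Matrix (Fin n) (Fin n) F)}

/-- a square in the subalgebra -/
theorem exists_sq (hJ : Jᵀ = -J) (h𝔫 : 𝔫 ≤ spS J) (hcod : finrank F (spS J) ≤ finrank F 𝔫 + (n - 2)) (hn : 2 ≤ n) :
    ∃ v : Fin n → F, v ≠ 0 ∧ pr J v v ∈ 𝔫 := by
  obtain ⟨W, hW⟩ := Submodule.exists_isCompl (spS J)
  have hinf : 𝔫 ⊓ W = ⊥ := by
    rw [eq_bot_iff]
    refine (inf_le_inf_right W h𝔫).trans ?_
    exact hW.disjoint.le_bot
  have hQd : finrank F ((Matrix (Fin n) (Fin n) F) ⧸ (𝔫 ⊔ W)) < n := by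
    have h1 := Submodule.finrank_quotient_add_finrank (𝔫 ⊔ W)
    have h2 := Submodule.finrank_sup_add_finrank_inf_eq 𝔫 W
    rw [hinf, finrank_bot, add_zero] at h2
    have h3 := Submodule.finrank_add_eq_of_isCompl hW
    omega
  let b := finBasis F ((Matrix (Fin n) (Fin n) F) ⧸ (𝔫 ⊔ W))
  let ψ : Fin (finrank F ((Matrix (Fin n) (Fin n) F) ⧸ (𝔫 ⊔ W))) → Matrix (Fin n) (Fin n) F →ₗ[F] F := fun i => (b.coord i) ∘ₗ (𝔫 ⊔ W).mkQ
  obtain ⟨v, hv0, hv⟩ := Pool.Agent.H552R3.Tsen.exists_common_zero (k := F) (fun i => qf J (ψ i)) (fun i => by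
    rw [qf_eval, pr_zero_left, map_zero]) (by rw [Fintype.card_fin, Fintype.card_fin]; exact hQd)
  refine ⟨v, hv0, ?_⟩
  have h1 : (𝔫 ⊔ W).mkQ (pr J v v) = 0 := by
    apply b.ext_elem
    intro i
    have h2 := hv i
    rw [qf_eval] at h2
    rw [map_zero]
    exact h2
  rw [Submodule.mkQ_apply, Submodule.Quotient.mk_eq_zero] at h1
  obtain ⟨a, ha, w, hw, haw⟩ := Submodule.mem_sup.1 h1
  have h3 : w ∈ spS J := by
    have h4 : w = pr J v v - a := by rw [← haw]; abel
    rw [h4]
    exact Submodule.sub_mem _ (pr_mem hJ v v) (h𝔫 ha)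
  have h5 : w = 0 := by
    have h6 : w ∈ spS J ⊓ W := ⟨h3, hw⟩
    rw [hW.disjoint.eq_bot] at h6
    exact (Submodule.mem_bot F).1 h6
  rw [h5, add_zero] at haw
  rw [← haw]
  exact ha

/-- the span of the squares is stable -/
theorem span_stable (hJ : Jᵀ = -J) (h𝔫 : 𝔫 ≤ spS J) (hbr : ∀ x ∈ 𝔫, ∀ y ∈ 𝔫, x * y - y * x ∈ 𝔫)
    {x : Matrix (Fin n) (Fin n) F} (hx : x ∈ 𝔫) {v : Fin n → F} (hv : pr J v v ∈ 𝔫) :
    x *ᵥ v ∈ Submodule.span F {w : Fin n → F | pr J w w ∈ 𝔫} := by
  by_contra hcon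
  obtain ⟨φ, hφ1, hφ2⟩ := Submodule.exists_le_ker_of_notMem hcon
  -- the linear form
  set ℓ : MvPolynomial (Fin n) F := ∑ i, MvPolynomial.C (φ (Pi.single i 1)) * MvPolynomial.X i with hℓ
  have hφs : ∀ w, φ w = ∑ i, φ (Pi.single i 1) * w i := by
    intro w
    conv_lhs => rw [LinearMap.pi_apply_eq_sum_univ φ w]
    refine Finset.sum_congr rfl fun i _ => ?_
    rw [smul_eq_mul, mul_comm]
    congr 2
    funext j
    simp [Pi.single_apply, eq_comm]
  have hℓe : ∀ w, MvPolynomial.eval w ℓ = φ w := by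
    intro w
    rw [hφs, hℓ]
    simp
  set I : Ideal (MvPolynomial (Fin n) F) :=
    Ideal.span {q | ∃ ψ : Matrix (Fin n) (Fin n) F →ₗ[F] F, (∀ y ∈ 𝔫, ψ y = 0) ∧ q = qf J ψ} with hI
  have hδI : ∀ a ∈ I, dl x a ∈ I := by
    intro a ha
    induction ha using Submodule.span_induction with
    | mem q hq =>
      obtain ⟨ψ, hψ, rfl⟩ := hq
      let ψ' : Matrix (Fin n) (Fin n) F →ₗ[F] F :=
        { toFun := fun y => ψ (x * y - y * x)
          map_add' := fun a b => by
            rw [← map_add, Matrix.mul_add, Matrix.add_mul]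
            congr 1
            abel
          map_smul' := fun c a => by
            rw [Matrix.mul_smul, Matrix.smul_mul, ← smul_sub, map_smul]
            rfl }
      rw [dl_qf hJ (h𝔫 hx) ψ ψ' (fun y => rfl)]
      exact Ideal.subset_span ⟨ψ', fun y hy => hψ _ (hbr x hx y hy), rfl⟩
    | zero => rw [map_zero]; exact I.zero_mem
    | add a b _ _ ha hb => rw [map_add]; exact I.add_mem ha hb
    | smul c a ha' ha =>
      rw [smul_eq_mul, Derivation.leibniz, smul_eq_mul, smul_eq_mul]
      exact I.add_mem (I.mul_mem_left _ ha) (I.mul_mem_right _ ha')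
  have hrad : ℓ ∈ I.radical := by
    rw [← MvPolynomial.vanishingIdeal_zeroLocus_eq_radical (K := F)]
    rw [MvPolynomial.mem_vanishingIdeal_iff]
    intro w hw
    have h1 : pr J w w ∈ 𝔫 := by
      by_contra hcon2
      obtain ⟨ψ, hψ1, hψ2⟩ := Submodule.exists_le_ker_of_notMem hcon2
      have h2 := hw (qf J ψ) (Ideal.subset_span ⟨ψ, fun y hy => hψ2 hy, rfl⟩)
      rw [MvPolynomial.aeval_eq_eval, qf_eval] at h2
      exact hψ1 h2
    rw [MvPolynomial.aeval_eq_eval, hℓe]
    exact hφ2 (Submodule.subset_span h1)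
  obtain ⟨r, hr⟩ := hrad
  have h3 := seid (fun a => dl x a) (fun a b => map_add _ _ _) (fun a b => by
    rw [Derivation.leibniz, smul_eq_mul, smul_eq_mul]) hδI hr
  -- evaluate at `v`
  have h4 : ∀ a ∈ I, MvPolynomial.eval v a = 0 := by
    intro a ha
    induction ha using Submodule.span_induction with
    | mem q hq =>
      obtain ⟨ψ, hψ, rfl⟩ := hq
      rw [qf_eval]
      exact hψ _ hv
    | zero => rw [map_zero]
    | add a b _ _ ha hb => rw [map_add, ha, hb, add_zero]
    | smul c a _ ha => rw [smul_eq_mul, map_mul, ha, mul_zero]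
  have h5 := h4 _ h3
  rw [map_pow] at h5
  have h7 : MvPolynomial.eval v (dl x ℓ) = 0 := by
    by_contra h8
    exact (pow_ne_zero _ h8) h5
  apply hφ1
  rw [hφs, ← h7, hℓ, map_sum, map_sum]
  refine Finset.sum_congr rfl fun i _ => ?_
  rw [Derivation.leibniz]
  have h1 : dl x (MvPolynomial.C (φ (Pi.single i 1))) = 0 := Derivation.map_algebraMap _ _
  rw [h1, smul_zero, add_zero, smul_eq_mul, map_mul, MvPolynomial.eval_C, dl_X]

/-- **subalgebras of small codimension** -/
theorem lie_full (hJ : Jᵀ = -J) (hdet : IsUnit J.det) (h𝔫 : 𝔫 ≤ spS J) (hbr : ∀ x ∈ 𝔫, ∀ y ∈ 𝔫, x * y - y * x ∈ 𝔫)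
    (hcod : finrank F (spS J) ≤ finrank F 𝔫 + (n - 2)) (hn : 2 ≤ n) : spS J ≤ 𝔫 := by
  -- two non-orthogonal squares
  have hpair : ∃ v w : Fin n → F, pr J v v ∈ 𝔫 ∧ pr J w w ∈ 𝔫 ∧ om J v w ≠ 0 := by
    by_contra hcon
    push Not at hcon
    set S := Submodule.span F {w : Fin n → F | pr J w w ∈ 𝔫} with hS
    obtain ⟨v, hv0, hv⟩ := exists_sq hJ h𝔫 hcod hn
    have hS0 : S ≠ ⊥ := by
      rw [Submodule.ne_bot_iff]
      exact ⟨v, Submodule.subset_span hv, hv0⟩
    have hiso : ∀ a ∈ S, ∀ b ∈ S, om J a b = 0 := by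
      intro a ha b hb
      induction ha using Submodule.span_induction with
      | mem a ha =>
        induction hb using Submodule.span_induction with
        | mem b hb => exact hcon a b ha hb
        | zero => exact om_zero_right _
        | add b c _ _ hb hc => rw [om_add_right, hb, hc, add_zero]
        | smul c b _ hb => rw [om_smul_right, hb, mul_zero]
      | zero => exact om_zero_left _
      | add a c _ _ ha hc => rw [om_add_left, ha, hc, add_zero]
      | smul c a _ ha => rw [om_smul_left, ha, mul_zero]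
    have hst : ∀ X ∈ 𝔫, ∀ s ∈ S, X *ᵥ s ∈ S := by
      intro X hX s hs
      induction hs using Submodule.span_induction with
      | mem s hs => exact span_stable hJ h𝔫 hbr hX hs
      | zero => rw [mulVec_zero]; exact S.zero_mem
      | add a b _ _ ha hb => rw [mulVec_add]; exact S.add_mem ha hb
      | smul c a _ ha => rw [mulVec_smul]; exact S.smul_mem c ha
    have := iso_codim hJ hdet h𝔫 hS0 hiso hst
    omega
  obtain ⟨v₀, w₀, hv₀, hw₀, hvw⟩ := hpair
  have hvw' : pr J v₀ w₀ ∈ 𝔫 := by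
    have h1 := hbr _ hv₀ _ hw₀
    rw [comm_pr hJ (pr_mem hJ v₀ v₀), pr_mulVec, ← two_smul F, pr_smul_left, pr_smul_left, pr_smul_right,
      pr_smul_right, pr_symm w₀ v₀, ← two_smul F, smul_smul, smul_smul] at h1
    exact smul_mem_iff' (mul_ne_zero (mul_ne_zero two_ne_zero two_ne_zero) hvw) h1
  -- a maximal subspace
  let 𝒮 : Set (Submodule F (Fin n → F)) := {E | v₀ ∈ E ∧ w₀ ∈ E ∧ ∀ a ∈ E, ∀ b ∈ E, pr J a b ∈ 𝔫}
  have hne : 𝒮.Nonempty := by
    refine ⟨Submodule.span F {v₀, w₀}, Submodule.subset_span (by simp), Submodule.subset_span (by simp), ?_⟩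
    intro a ha b hb
    rw [Submodule.mem_span_pair] at ha hb
    obtain ⟨a1, a2, rfl⟩ := ha
    obtain ⟨b1, b2, rfl⟩ := hb
    simp only [pr_add_left, pr_add_right, pr_smul_left, pr_smul_right]
    have hwv' : pr J w₀ v₀ ∈ 𝔫 := by rw [pr_symm]; exact hvw'
    exact 𝔫.add_mem (𝔫.smul_mem _ (𝔫.add_mem (𝔫.smul_mem _ hv₀) (𝔫.smul_mem _ hwv')))
      (𝔫.smul_mem _ (𝔫.add_mem (𝔫.smul_mem _ hvw') (𝔫.smul_mem _ hw₀)))
  obtain ⟨E, hE, hmax⟩ : ∃ E ∈ 𝒮, ∀ E' ∈ 𝒮, ¬ E < E' :=
    WellFounded.has_min (wellFounded_gt (α := Submodule F (Fin n → F))) 𝒮 hne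
  obtain ⟨hvE, hwE, hprE⟩ := hE
  have hstab : ∀ X ∈ 𝔫, ∀ v ∈ E, (∃ u ∈ E, om J u v ≠ 0) → X *ᵥ v ∈ E := by
    rintro X hX v hv ⟨u, hu, huv⟩
    set w := X *ᵥ v with hw
    have h1 : pr J v w ∈ 𝔫 := by
      have h2 := hbr X hX _ (hprE v hv v hv)
      rw [comm_pr hJ (h𝔫 hX), ← hw, pr_symm w v, ← two_smul F] at h2
      exact smul_mem_iff' (two_ne_zero (α := F)) h2
    have h2 : ∀ e ∈ E, om J e v ≠ 0 → pr J e w ∈ 𝔫 := by
      intro e he hev
      have h3 := hbr _ (hprE e he e he) _ h1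
      rw [comm_pr hJ (pr_mem hJ e e), pr_mulVec, pr_mulVec, ← two_smul F, ← two_smul F, pr_smul_left, pr_smul_left,
        pr_smul_right, pr_smul_right] at h3
      have h4 := (Submodule.add_mem_iff_left 𝔫 (𝔫.smul_mem _ (𝔫.smul_mem _ (hprE v hv e he)))).1 h3
      exact smul_mem_iff' hev (smul_mem_iff' (two_ne_zero (α := F)) h4)
    have h3 : ∀ e ∈ E, pr J e w ∈ 𝔫 := by
      intro e he
      by_cases hev : om J e v = 0
      · have h4 := h2 (e + u) (E.add_mem he hu) (by rw [om_add_left, hev, zero_add]; exact huv)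
        rw [pr_add_left] at h4
        exact (Submodule.add_mem_iff_left 𝔫 (h2 u hu huv)).1 h4
      · exact h2 e he hev
    have h4 : pr J w w ∈ 𝔫 := by
      have h5 := hbr _ (h3 u hu) _ h1
      rw [comm_pr hJ (pr_mem hJ u w), pr_mulVec, pr_mulVec, om_self hJ, zero_smul, zero_add, pr_add_left, pr_smul_left,
        pr_smul_left, pr_smul_right] at h5
      have h6 := (Submodule.add_mem_iff_left 𝔫 (𝔫.smul_mem _ h1)).1 h5
      have h7 := (Submodule.add_mem_iff_right 𝔫 (𝔫.smul_mem _ (h3 u hu))).1 h6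
      exact smul_mem_iff' huv h7
    by_contra hwE'
    refine hmax (E ⊔ Submodule.span F {w}) ⟨Submodule.mem_sup_left hvE, Submodule.mem_sup_left hwE, ?_⟩ ?_
    · intro a ha b hb
      obtain ⟨a1, ha1, a2, ha2, rfl⟩ := Submodule.mem_sup.1 ha
      obtain ⟨b1, hb1, b2, hb2, rfl⟩ := Submodule.mem_sup.1 hb
      obtain ⟨c, rfl⟩ := Submodule.mem_span_singleton.1 ha2
      obtain ⟨d, rfl⟩ := Submodule.mem_span_singleton.1 hb2
      simp only [pr_add_left, pr_add_right, pr_smul_left, pr_smul_right]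
      have hwb : pr J w b1 ∈ 𝔫 := by rw [pr_symm]; exact h3 b1 hb1
      exact 𝔫.add_mem (𝔫.add_mem (hprE a1 ha1 b1 hb1) (𝔫.smul_mem _ hwb))
        (𝔫.smul_mem _ (𝔫.add_mem (h3 a1 ha1) (𝔫.smul_mem _ h4)))
    · refine lt_of_le_of_ne le_sup_left fun heq => hwE' ?_
      rw [heq]
      exact Submodule.mem_sup_right (Submodule.mem_span_singleton_self w)
  have hwv : om J w₀ v₀ ≠ 0 := by
    rw [om_swap hJ]
    exact neg_ne_zero.2 hvw
  have hstab' : ∀ X ∈ 𝔫, ∀ v ∈ E, X *ᵥ v ∈ E := by
    intro X hX v hv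
    by_cases h : ∃ u ∈ E, om J u v ≠ 0
    · exact hstab X hX v hv h
    · push Not at h
      have h1 := hstab X hX (v + v₀) (E.add_mem hv hvE) ⟨w₀, hwE, by
        rw [om_add_right, h w₀ hwE, zero_add]
        exact hwv⟩
      have h2 := hstab X hX v₀ hvE ⟨w₀, hwE, hwv⟩
      rw [mulVec_add] at h1
      exact (Submodule.add_mem_iff_left E h2).1 h1
  have hE0 : E ≠ ⊥ := by
    rw [Submodule.ne_bot_iff]
    refine ⟨v₀, hvE, ?_⟩
    rintro rfl
    exact hwv (om_zero_right _)
  have horthst : ∀ X ∈ 𝔫, ∀ c ∈ orth J E, X *ᵥ c ∈ orth J E := by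
    intro X hX c hc s hs
    have h1 := h𝔫 hX
    rw [mem_spS] at h1
    have h2 : om J s (X *ᵥ c) = -om J (X *ᵥ s) c := by
      have h4 : J * X = -(Xᵀ * J) := by rw [eq_neg_iff_add_eq_zero, add_comm]; exact h1
      unfold om
      rw [mulVec_mulVec, h4, neg_mulVec, dotProduct_neg, dotProduct_mulVec, ← vecMul_vecMul, vecMul_transpose,
        ← dotProduct_mulVec]
    rw [h2, hc _ (hstab' X hX s hs), neg_zero]
  -- the radical
  by_cases hR : E ⊓ orth J E = ⊥
  · by_cases hE' : orth J E = ⊥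
    · have hEt : E = ⊤ := by
        apply Submodule.eq_top_of_finrank_eq
        rw [finrank_fin_fun]
        have h1 := orth_ge (J := J) E
        rw [hE', finrank_bot] at h1
        have h2 := orth_le hJ hdet E
        omega
      intro X hX
      refine mem_of_pr hJ hdet (fun u v => ?_) hX
      exact hprE u (by rw [hEt]; exact Submodule.mem_top) v (by rw [hEt]; exact Submodule.mem_top)
    · exfalso
      have := nondeg_codim hJ hdet h𝔫 hE0 hE' (fun a ha h => by
        have h1 : a ∈ E ⊓ orth J E := ⟨ha, h⟩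
        rw [hR] at h1
        exact (Submodule.mem_bot F).1 h1) hstab'
      omega
  · exfalso
    have := iso_codim hJ hdet h𝔫 hR (fun a ha b hb => hb.2 a ha.1)
      (fun X hX s hs => ⟨hstab' X hX s hs.1, horthst X hX s hs.2⟩)
    omega

end

/-- **subspaces of small codimension are not commutative** -/
theorem NC (hJ : Jᵀ = -J) (hdet : IsUnit J.det) {𝔪 : Submodule F (Matrix (Fin n) (Fin n) F)} (h𝔪 : 𝔪 ≤ spS J)
    (hcod : finrank F (spS J) ≤ finrank F 𝔪 + (n - 2)) (hn : 2 ≤ n) : ∃ A ∈ 𝔪, ∃ B ∈ 𝔪, A * B - B * A ≠ 0 := by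
  by_contra hcon
  push Not at hcon
  -- the dimension is at least `n - 1`
  have hpos : 0 < n := by omega
  set e : Fin n → F := Pi.single ⟨0, hpos⟩ 1 with he
  have he0 : e ≠ 0 := by
    intro h
    have := congrFun h ⟨0, hpos⟩
    rw [he, Pi.single_eq_same] at this
    exact one_ne_zero this
  obtain ⟨u, hu⟩ : ∃ u, om J u e = 1 := by
    obtain ⟨y, hy⟩ : ∃ y, om J y e ≠ 0 := by
      by_contra hcon
      push Not at hcon
      exact he0 (om_nondeg hdet hcon)
    exact ⟨(om J y e)⁻¹ • y, by rw [om_smul_left, inv_mul_cancel₀ hy]⟩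
  -- `w ↦ w u` is injective
  have h1 := count (f1 J u) (𝔫 := 𝔪) h𝔪 fun w => pr_mem hJ w u
  obtain ⟨X, hX, hX0⟩ : ∃ X ∈ 𝔪, X ≠ 0 := by
    by_contra hcon2
    push Not at hcon2
    have h2 : 𝔪 = ⊥ := by
      rw [Submodule.eq_bot_iff]
      exact hcon2
    have h3 : 𝔪.comap (f1 J u) = ⊥ := by
      rw [Submodule.eq_bot_iff]
      intro w hw
      have h4 : pr J w u ∈ 𝔪 := hw
      have h5 := hcon2 _ h4
      have h6 : pr J w u *ᵥ e = 0 := by rw [h5, zero_mulVec]
      rw [pr_mulVec, hu, one_smul] at h6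
      have h7 : pr J w u *ᵥ u = 0 := by rw [h5, zero_mulVec]
      rw [pr_mulVec, om_self hJ, zero_smul, zero_add] at h7
      have hu0 : u ≠ 0 := by
        rintro rfl
        rw [om_zero_left] at hu
        exact zero_ne_one hu
      have h8 : om J w u = 0 := (smul_eq_zero.1 h7).resolve_right hu0
      -- `w = - (w, e) u`
      have h9 : w = (-om J w e) • u := by
        rw [neg_smul]
        exact eq_neg_of_add_eq_zero_left h6
      have h10 : om J w e • u = 0 := by
        have h12 : om J w e = -om J w e := by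
          conv_lhs => rw [h9]
          rw [om_smul_left, hu, mul_one]
        have h13 : (2 : F) * om J w e = 0 := by linear_combination h12
        rw [(mul_eq_zero.1 h13).resolve_left two_ne_zero, zero_smul]
      rw [h9, neg_smul, h10, neg_zero]
    rw [h3, finrank_bot, h2, finrank_bot, finrank_fin_fun] at h1
    rw [h2, finrank_bot] at hcod
    omega
  -- a vector which is not an eigenvector
  obtain ⟨v, hv⟩ : ∃ v, X *ᵥ v ∉ Submodule.span F {v} := by
    by_contra hcon2
    push Not at hcon2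
    apply hX0
    have h2 : ∀ v, ∃ c : F, X *ᵥ v = c • v := by
      intro v
      obtain ⟨c, hc⟩ := Submodule.mem_span_singleton.1 (hcon2 v)
      exact ⟨c, hc.symm⟩
    have hXs := h𝔪 hX
    -- the eigenvalue is zero
    have h3 : ∀ v, X *ᵥ v = 0 := by
      obtain ⟨f, hf⟩ : ∃ f : (Fin n → F) →ₗ[F] (Fin n → F), ∀ v, f v = X *ᵥ v := ⟨Matrix.mulVecLin X, fun v => rfl⟩
      have h4 : ∀ v w, om J v (X *ᵥ w) + om J (X *ᵥ v) w = 0 := by
        intro v w
        rw [mem_spS] at hXs
        have h4 : J * X = -(Xᵀ * J) := by rw [eq_neg_iff_add_eq_zero, add_comm]; exact hXs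
        unfold om
        rw [mulVec_mulVec, h4, neg_mulVec, dotProduct_neg, dotProduct_mulVec, ← vecMul_vecMul, vecMul_transpose,
          ← dotProduct_mulVec]
        exact neg_add_cancel _
      intro v
      obtain ⟨c, hc⟩ := h2 v
      rw [hc]
      by_cases hv0 : v = 0
      · rw [hv0, smul_zero]
      · obtain ⟨y, hy⟩ : ∃ y, om J y v ≠ 0 := by
          by_contra hcon3
          push Not at hcon3
          exact hv0 (om_nondeg hdet hcon3)
        obtain ⟨d, hd⟩ := h2 y
        obtain ⟨s, hs⟩ := h2 (y + v)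
        have h5 : d • y + c • v = s • y + s • v := by
          rw [← hd, ← hc, ← mulVec_add, hs, smul_add]
        have h6 : (d - s) * om J y v = 0 := by
          have h7 := congrArg (fun z => om J z v) h5
          simp only [om_add_left, om_smul_left, om_self hJ, mul_zero, add_zero] at h7
          linear_combination h7
        have h7 : (c - s) * om J y v = 0 := by
          have h7 := congrArg (fun z => om J y z) h5
          simp only [om_add_right, om_smul_right, om_self hJ, mul_zero, zero_add] at h7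
          linear_combination h7
        have h8 : d = c := by
          have a1 := (mul_eq_zero.1 h6).resolve_right hy
          have a2 := (mul_eq_zero.1 h7).resolve_right hy
          linear_combination a1 - a2
        have h9 := h4 y v
        rw [hc, hd, om_smul_left, om_smul_right, h8] at h9
        have h10 : (2 * c) * om J y v = 0 := by linear_combination h9
        have h11 := (mul_eq_zero.1 h10).resolve_right hy
        have h12 := (mul_eq_zero.1 h11).resolve_left two_ne_zero
        rw [h12, zero_smul]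
    ext i j
    have h4 := congrFun (h3 (Pi.single j 1)) i
    rw [mulVec_single_one] at h4
    exact h4
  have h2 := count (f1 J v) (𝔫 := 𝔪) h𝔪 fun w => pr_mem hJ w v
  have h3 : 𝔪.comap (f1 J v) ≤ Submodule.span F {v} := by
    intro w hw
    have hw' : pr J w v ∈ 𝔪 := hw
    have h4 := hcon X hX _ hw'
    rw [comm_pr hJ (h𝔪 hX)] at h4
    obtain ⟨y, hy1, hy2⟩ := exists_sep hJ hdet hv
    have k1 : om J v y = 0 := by rw [om_swap hJ, hy2, neg_zero]
    have k2 : om J (X *ᵥ v) y = -1 := by rw [om_swap hJ, hy1]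
    have h5 : (pr J (X *ᵥ w) v + pr J w (X *ᵥ v)) *ᵥ y = 0 := by rw [h4, zero_mulVec]
    rw [add_mulVec, pr_mulVec, pr_mulVec, k1, k2, zero_smul, zero_add] at h5
    -- `w = (X w, y) v + (w, y) X v`
    have h6 : w = om J (X *ᵥ w) y • v + om J w y • (X *ᵥ v) := by
      have h7 : om J (X *ᵥ w) y • v + om J w y • (X *ᵥ v) - w = 0 := by
        rw [← h5, neg_smul, one_smul]
        abel
      exact (sub_eq_zero.1 h7).symm
    have h8 : om J w y = -om J w y := by
      conv_lhs => rw [h6]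
      rw [om_add_left, om_smul_left, om_smul_left, k1, k2]
      ring
    have h9 : om J w y = 0 := by
      have h10 : (2 : F) * om J w y = 0 := by linear_combination h8
      exact (mul_eq_zero.1 h10).resolve_left two_ne_zero
    rw [h6, h9, zero_smul, add_zero]
    exact Submodule.smul_mem _ _ (Submodule.mem_span_singleton_self v)
  have h4 := Submodule.finrank_mono h3
  have h5 : finrank F (Submodule.span F {v}) ≤ 1 := (finrank_span_le_card ({v} : Set (Fin n → F))).trans (by simp)
  rw [finrank_fin_fun] at h2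
  omega

end Pool.Agent.Helper880_LF
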