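import Mathlib

/-!
# The symplectic Lie algebra as the symmetric square
-/

set_option autoImplicit false
set_option linter.unusedSectionVars false
set_option linter.unusedVariables false

open Matrix Module

namespace Pool.Agent.Helper880_LF

variable {F : Type} [Field F] {n : ℕ}

/-- the symplectic form -/
def om (J : Matrix (Fin n) (Fin n) F) (u v : Fin n → F) : F := u ⬝ᵥ (J *ᵥ v)

/-- the product of two vectors -/
def pr (J : Matrix (Fin n) (Fin n) F) (u v : Fin n → F) : Matrix (Fin n) (Fin n) F :=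
  (vecMulVec u v + vecMulVec v u) * J

/-- the symplectic Lie algebra -/
def spS (J : Matrix (Fin n) (Fin n) F) : Submodule F (Matrix (Fin n) (Fin n) F) where
  carrier := {X | Xᵀ * J + J * X = 0}
  zero_mem' := by simp
  add_mem' := by
    intro X Y hX hY
    show (X + Y)ᵀ * J + J * (X + Y) = 0
    have hX' : Xᵀ * J + J * X = 0 := hX
    have hY' : Yᵀ * J + J * Y = 0 := hY
    rw [transpose_add, Matrix.add_mul, Matrix.mul_add]
    calc Xᵀ * J + Yᵀ * J + (J * X + J * Y) = (Xᵀ * J + J * X) + (Yᵀ * J + J * Y) := by abel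
      _ = 0 := by rw [hX', hY', add_zero]
  smul_mem' := by
    intro c X hX
    show (c • X)ᵀ * J + J * (c • X) = 0
    have hX' : Xᵀ * J + J * X = 0 := hX
    rw [transpose_smul, Matrix.smul_mul, Matrix.mul_smul, ← smul_add, hX', smul_zero]

variable {J : Matrix (Fin n) (Fin n) F}

theorem mem_spS {X : Matrix (Fin n) (Fin n) F} : X ∈ spS J ↔ Xᵀ * J + J * X = 0 := Iff.rfl

theorem pr_symm (u v : Fin n → F) : pr J u v = pr J v u := by
  unfold pr
  rw [add_comm]

theorem pr_add_left (u u' v : Fin n → F) : pr J (u + u') v = pr J u v + pr J u' v := by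
  unfold pr
  rw [add_vecMulVec, vecMulVec_add, ← Matrix.add_mul]
  congr 1
  abel

theorem pr_add_right (u v v' : Fin n → F) : pr J u (v + v') = pr J u v + pr J u v' := by
  rw [pr_symm, pr_add_left, pr_symm v, pr_symm v']

theorem pr_smul_left (c : F) (u v : Fin n → F) : pr J (c • u) v = c • pr J u v := by
  unfold pr
  rw [smul_vecMulVec, vecMulVec_smul, ← smul_add, Matrix.smul_mul]

theorem pr_smul_right (c : F) (u v : Fin n → F) : pr J u (c • v) = c • pr J u v := by
  rw [pr_symm, pr_smul_left, pr_symm v]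

theorem pr_zero_left (v : Fin n → F) : pr J 0 v = 0 := by
  have := pr_smul_left (J := J) 0 0 v
  rwa [zero_smul, zero_smul] at this

theorem om_add_left (u u' v : Fin n → F) : om J (u + u') v = om J u v + om J u' v := add_dotProduct _ _ _

theorem om_add_right (u v v' : Fin n → F) : om J u (v + v') = om J u v + om J u v' := by
  unfold om
  rw [mulVec_add, dotProduct_add]

theorem om_smul_left (c : F) (u v : Fin n → F) : om J (c • u) v = c * om J u v := smul_dotProduct _ _ _

theorem om_smul_right (c : F) (u v : Fin n → F) : om J u (c • v) = c * om J u v := by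
  unfold om
  rw [mulVec_smul, dotProduct_smul, smul_eq_mul]

theorem om_zero_left (v : Fin n → F) : om J 0 v = 0 := zero_dotProduct _

theorem om_zero_right (v : Fin n → F) : om J v 0 = 0 := by
  unfold om
  rw [mulVec_zero, dotProduct_zero]

theorem om_sub_left (u u' v : Fin n → F) : om J (u - u') v = om J u v - om J u' v := sub_dotProduct _ _ _

theorem pr_mulVec (u v w : Fin n → F) : pr J u v *ᵥ w = om J v w • u + om J u w • v := by
  unfold pr om
  rw [← mulVec_mulVec, add_mulVec]
  have h : ∀ a b c : Fin n → F, vecMulVec a b *ᵥ c = (b ⬝ᵥ c) • a := by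
    intro a b c
    funext i
    simp only [mulVec, vecMulVec_apply, dotProduct, Pi.smul_apply, smul_eq_mul, Finset.sum_mul]
    exact Finset.sum_congr rfl fun j _ => by ring
  rw [h, h]

section skew

variable (hJ : Jᵀ = -J)
include hJ

theorem om_swap (u v : Fin n → F) : om J u v = -om J v u := by
  unfold om
  rw [dotProduct_mulVec, ← mulVec_transpose, hJ, neg_mulVec, neg_dotProduct, dotProduct_comm]

theorem om_self [CharZero F] (u : Fin n → F) : om J u u = 0 := by
  have h := om_swap hJ u u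
  have h2 : (2 : F) * om J u u = 0 := by linear_combination h
  exact (mul_eq_zero.1 h2).resolve_left two_ne_zero

theorem pr_mem (u v : Fin n → F) : pr J u v ∈ spS J := by
  rw [mem_spS]
  unfold pr
  rw [transpose_mul, transpose_add, transpose_vecMulVec, transpose_vecMulVec, hJ, add_comm (vecMulVec v u)]
  simp only [Matrix.neg_mul, ← Matrix.mul_assoc]
  exact neg_add_cancel _

theorem comm_pr {X : Matrix (Fin n) (Fin n) F} (hX : X ∈ spS J) (u v : Fin n → F) :
    X * pr J u v - pr J u v * X = pr J (X *ᵥ u) v + pr J u (X *ᵥ v) := by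
  rw [mem_spS] at hX
  have h1 : J * X = -(Xᵀ * J) := by
    rw [eq_neg_iff_add_eq_zero, add_comm]
    exact hX
  unfold pr
  have h2 : ∀ a b : Fin n → F, vecMulVec a b * J * X = -(vecMulVec a (X *ᵥ b) * J) := by
    intro a b
    rw [Matrix.mul_assoc, h1, Matrix.mul_neg, ← Matrix.mul_assoc, vecMulVec_mul, vecMul_transpose]
  rw [Matrix.add_mul, Matrix.mul_add, Matrix.add_mul, h2, h2, ← Matrix.mul_assoc, ← Matrix.mul_assoc, mul_vecMulVec,
    mul_vecMulVec, Matrix.add_mul, Matrix.add_mul]
  abel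

theorem comm_mem {X Y : Matrix (Fin n) (Fin n) F} (hX : X ∈ spS J) (hY : Y ∈ spS J) : X * Y - Y * X ∈ spS J := by
  rw [mem_spS] at hX hY ⊢
  have h1 : Xᵀ * J = -(J * X) := by rw [eq_neg_iff_add_eq_zero]; exact hX
  have h2 : Yᵀ * J = -(J * Y) := by rw [eq_neg_iff_add_eq_zero]; exact hY
  rw [transpose_sub, transpose_mul, transpose_mul, Matrix.sub_mul, Matrix.mul_assoc, Matrix.mul_assoc, h1, h2,
    Matrix.mul_neg, Matrix.mul_neg, ← Matrix.mul_assoc, ← Matrix.mul_assoc, h1, h2, Matrix.mul_sub]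
  simp only [Matrix.neg_mul, Matrix.mul_assoc]
  abel

end skew

/-- nondegeneracy -/
theorem om_nondeg (hdet : IsUnit J.det) {v : Fin n → F} (h : ∀ u, om J u v = 0) : v = 0 := by
  have h1 : J *ᵥ v = 0 := by
    funext i
    have := h (Pi.single i 1)
    unfold om at this
    rw [single_one_dotProduct] at this
    exact this
  have h2 := congrArg (fun w => J⁻¹ *ᵥ w) h1
  simp only [mulVec_mulVec, nonsing_inv_mul _ hdet, one_mulVec, mulVec_zero] at h2
  exact h2

/-- functionals are given by the form -/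
theorem exists_om (hJ : Jᵀ = -J) (hdet : IsUnit J.det) (f : (Fin n → F) →ₗ[F] F) : ∃ y, ∀ w, f w = om J y w := by
  refine ⟨(J⁻¹)ᵀ *ᵥ (fun i => f (Pi.single i 1)), fun w => ?_⟩
  unfold om
  rw [mulVec_transpose, dotProduct_mulVec, vecMul_vecMul, nonsing_inv_mul _ hdet, vecMul_one]
  conv_lhs => rw [LinearMap.pi_apply_eq_sum_univ f w]
  simp only [dotProduct, smul_eq_mul]
  refine Finset.sum_congr rfl fun i _ => ?_
  rw [mul_comm]
  congr 2
  funext j
  simp [Pi.single_apply, eq_comm]

/-- dual vectors -/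
theorem exists_sep (hJ : Jᵀ = -J) (hdet : IsUnit J.det) {v v' : Fin n → F} (h : v ∉ Submodule.span F {v'}) :
    ∃ y, om J y v = 1 ∧ om J y v' = 0 := by
  obtain ⟨f, hf1, hf2⟩ := Submodule.exists_le_ker_of_notMem h
  obtain ⟨y, hy⟩ := exists_om hJ hdet f
  refine ⟨(f v)⁻¹ • y, ?_, ?_⟩
  · rw [om_smul_left, ← hy, inv_mul_cancel₀ hf1]
  · rw [om_smul_left, ← hy]
    have : f v' = 0 := hf2 (Submodule.mem_span_singleton_self v')
    rw [this, mul_zero]

/-- the elements of the symplectic Lie algebra are sums of products -/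
theorem mem_of_pr [CharZero F] (hJ : Jᵀ = -J) (hdet : IsUnit J.det) {𝔞 : Submodule F (Matrix (Fin n) (Fin n) F)}
    (h : ∀ u v, pr J u v ∈ 𝔞) {X : Matrix (Fin n) (Fin n) F} (hX : X ∈ spS J) : X ∈ 𝔞 := by
  rw [mem_spS] at hX
  set S := X * J⁻¹ with hS
  have hXS : X = S * J := by rw [hS, Matrix.mul_assoc, nonsing_inv_mul _ hdet, Matrix.mul_one]
  have hsym : Sᵀ = S := by
    have h1 : J * Sᵀ * J = J * S * J := by
      have h2 : Xᵀ * J = -(J * X) := by rw [eq_neg_iff_add_eq_zero]; exact hX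
      have h3 : Xᵀ = -(J * Sᵀ) := by
        rw [hXS, transpose_mul, hJ, Matrix.neg_mul]
      rw [h3, hXS, Matrix.neg_mul, neg_inj, ← Matrix.mul_assoc J] at h2
      exact h2
    have h4 := congrArg (fun Z => J⁻¹ * Z * J⁻¹) h1
    have h5 : ∀ Z : Matrix (Fin n) (Fin n) F, J⁻¹ * (J * Z * J) * J⁻¹ = Z := by
      intro Z
      calc J⁻¹ * (J * Z * J) * J⁻¹ = (J⁻¹ * J) * Z * (J * J⁻¹) := by simp only [Matrix.mul_assoc]
        _ = Z := by rw [nonsing_inv_mul _ hdet, mul_nonsing_inv _ hdet, Matrix.one_mul, Matrix.mul_one]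
    rw [h5, h5] at h4
    exact h4
  have h6 : S = ∑ i, ∑ j, S i j • vecMulVec (Pi.single i (1 : F)) (Pi.single j (1 : F)) := by
    ext a b
    simp only [Matrix.sum_apply, Matrix.smul_apply, vecMulVec_apply, Pi.single_apply, smul_eq_mul]
    rw [Finset.sum_eq_single a, Finset.sum_eq_single b]
    · simp
    · intro j _ hj
      rw [if_neg (Ne.symm hj)]
      simp
    · simp
    · intro i _ hi
      rw [if_neg (Ne.symm hi)]
      simp
    · simp
  have h7 : (2 : F) • X = ∑ i, ∑ j, S i j • pr J (Pi.single i (1 : F)) (Pi.single j (1 : F)) := by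
    have h8 : (2 : F) • S = ∑ i, ∑ j, S i j •
        (vecMulVec (Pi.single i (1 : F)) (Pi.single j (1 : F)) + vecMulVec (Pi.single j (1 : F)) (Pi.single i (1 : F))) := by
      have h9 : S = ∑ i, ∑ j, S i j • vecMulVec (Pi.single j (1 : F)) (Pi.single i (1 : F)) := by
        have h10 : Sᵀ = ∑ i, ∑ j, S i j • vecMulVec (Pi.single j (1 : F)) (Pi.single i (1 : F)) := by
          conv_lhs => rw [h6]
          simp only [transpose_sum, transpose_smul, transpose_vecMulVec]
        rw [← h10, hsym]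
      simp only [smul_add, Finset.sum_add_distrib]
      rw [← h6, ← h9, two_smul]
    rw [hXS]
    unfold pr
    rw [← Matrix.smul_mul, h8, Matrix.sum_mul]
    refine Finset.sum_congr rfl fun i _ => ?_
    rw [Matrix.sum_mul]
    refine Finset.sum_congr rfl fun j _ => ?_
    rw [Matrix.smul_mul]
  have h11 : (2 : F) • X ∈ 𝔞 := by
    rw [h7]
    exact Submodule.sum_mem _ fun i _ => Submodule.sum_mem _ fun j _ => Submodule.smul_mem _ _ (h _ _)
  have h12 := Submodule.smul_mem 𝔞 (2 : F)⁻¹ h11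
  rwa [smul_smul, inv_mul_cancel₀ two_ne_zero, one_smul] at h12

/-- polarisation -/
theorem pr_of_sq [CharZero F] {𝔞 : Submodule F (Matrix (Fin n) (Fin n) F)} {u v : Fin n → F} (h1 : pr J u u ∈ 𝔞)
    (h2 : pr J v v ∈ 𝔞) (h3 : pr J (u + v) (u + v) ∈ 𝔞) : pr J u v ∈ 𝔞 := by
  have h4 : (2 : F) • pr J u v = pr J (u + v) (u + v) - pr J u u - pr J v v := by
    rw [pr_add_left, pr_add_right, pr_add_right, pr_symm v u, two_smul]
    abel
  have h5 : (2 : F) • pr J u v ∈ 𝔞 := by
    rw [h4]
    exact Submodule.sub_mem _ (Submodule.sub_mem _ h3 h1) h2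
  have h12 := Submodule.smul_mem 𝔞 (2 : F)⁻¹ h5
  rwa [smul_smul, inv_mul_cancel₀ two_ne_zero, one_smul] at h12

theorem smul_mem_iff' {V : Type} [AddCommGroup V] [Module F V] {𝔞 : Submodule F V} {c : F} (hc : c ≠ 0) {x : V}
    (h : c • x ∈ 𝔞) : x ∈ 𝔞 := (Submodule.smul_mem_iff 𝔞 hc).1 h

/-- **simplicity** -/
theorem simple [CharZero F] (hJ : Jᵀ = -J) (hdet : IsUnit J.det) {𝔞 : Submodule F (Matrix (Fin n) (Fin n) F)}
    (hst : ∀ x ∈ spS J, ∀ y ∈ 𝔞, x * y - y * x ∈ 𝔞) {a : Matrix (Fin n) (Fin n) F} (ha : a ∈ 𝔞) (hasp : a ∈ spS J)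
    (ha0 : a ≠ 0) : spS J ≤ 𝔞 := by
  -- a vector
  obtain ⟨v, hv⟩ : ∃ v, om J v (a *ᵥ v) ≠ 0 := by
    by_contra hcon
    push Not at hcon
    apply ha0
    have h1 : ∀ u v, om J u (a *ᵥ v) = 0 := by
      intro u v
      have h2 := hcon (u + v)
      rw [mulVec_add, om_add_left, om_add_right, om_add_right, hcon, hcon, zero_add, add_zero] at h2
      have h3 : om J v (a *ᵥ u) = om J u (a *ᵥ v) := by
        rw [mem_spS] at hasp
        have h4 : J * a = -(aᵀ * J) := by rw [eq_neg_iff_add_eq_zero, add_comm]; exact hasp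
        unfold om
        rw [mulVec_mulVec, h4, neg_mulVec, dotProduct_neg, dotProduct_mulVec, ← vecMul_vecMul, vecMul_transpose,
          ← dotProduct_mulVec]
        have h5 := om_swap hJ (a *ᵥ v) u
        unfold om at h5
        rw [h5, neg_neg]
      rw [h3] at h2
      have h6 : (2 : F) * om J u (a *ᵥ v) = 0 := by linear_combination h2
      exact (mul_eq_zero.1 h6).resolve_left two_ne_zero
    ext i j
    have h7 : a *ᵥ (Pi.single j 1) = 0 := om_nondeg hdet fun u => h1 u _
    have h8 := congrFun h7 i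
    rw [mulVec_single_one] at h8
    exact h8
  have hvv : pr J v v ∈ 𝔞 := by
    have h1 := hst _ (pr_mem hJ v v) _ (hst _ (pr_mem hJ v v) _ ha)
    have h2 : pr J v v * a - a * pr J v v = -((2 : F) • pr J (a *ᵥ v) v) := by
      have h3 := comm_pr hJ hasp v v
      rw [pr_symm v (a *ᵥ v), ← two_smul F] at h3
      rw [← h3]
      abel
    rw [h2] at h1
    have h4 : pr J v v * -((2 : F) • pr J (a *ᵥ v) v) - -((2 : F) • pr J (a *ᵥ v) v) * pr J v v =
        (-(4 * om J v (a *ᵥ v))) • pr J v v := by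
      have h5 := comm_pr hJ (pr_mem hJ v v) (a *ᵥ v) v
      rw [pr_mulVec, pr_mulVec, om_self hJ, zero_smul, add_zero, pr_symm (a *ᵥ v) 0, pr_zero_left, add_zero,
        ← two_smul F, pr_smul_left, pr_smul_left] at h5
      rw [Matrix.mul_neg, Matrix.neg_mul, Matrix.mul_smul, Matrix.smul_mul, sub_neg_eq_add, neg_add_eq_sub,
        ← smul_sub]
      have h6 : pr J (a *ᵥ v) v * pr J v v - pr J v v * pr J (a *ᵥ v) v =
          -((2 : F) • om J v (a *ᵥ v) • pr J v v) := by
        rw [← h5]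
        abel
      rw [h6, smul_neg, smul_smul, smul_smul, neg_smul]
      congr 2
      ring
    rw [h4] at h1
    exact smul_mem_iff' (neg_ne_zero.2 (mul_ne_zero (by norm_num : (4 : F) ≠ 0) hv)) h1
  have hv0 : v ≠ 0 := by
    rintro rfl
    rw [om_zero_left] at hv
    exact hv rfl
  -- the vectors which are not orthogonal to `v`
  have hno : ∀ u, om J u v ≠ 0 → pr J u u ∈ 𝔞 := by
    intro u hu
    have h1 := hst _ (pr_mem hJ u u) _ hvv
    rw [comm_pr hJ (pr_mem hJ u u), pr_mulVec, ← two_smul F, pr_smul_left, pr_smul_left, pr_smul_right, pr_smul_right,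
      pr_symm v u, ← two_smul F, smul_smul, smul_smul] at h1
    have h2 : pr J u v ∈ 𝔞 := smul_mem_iff' (mul_ne_zero (mul_ne_zero two_ne_zero two_ne_zero) hu) h1
    have h3 := hst _ (pr_mem hJ u u) _ h2
    rw [comm_pr hJ (pr_mem hJ u u), pr_mulVec, pr_mulVec, om_self hJ, zero_smul, add_zero, pr_zero_left, zero_add,
      ← two_smul F, pr_smul_right, pr_smul_right, smul_smul] at h3
    exact smul_mem_iff' (mul_ne_zero two_ne_zero hu) h3
  have hall : ∀ u, pr J u u ∈ 𝔞 := by
    intro u
    by_cases hu : om J u v = 0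
    · obtain ⟨y, hy⟩ : ∃ y, om J y v ≠ 0 := by
        by_contra hcon
        push Not at hcon
        exact hv0 (om_nondeg hdet hcon)
      have h1 := hno (u + y) (by rw [om_add_left, hu, zero_add]; exact hy)
      have h2 := hno (u - y) (by rw [om_sub_left, hu, zero_sub]; exact neg_ne_zero.2 hy)
      have h3 := hno y hy
      have h4 : (2 : F) • pr J u u = pr J (u + y) (u + y) + pr J (u - y) (u - y) - (2 : F) • pr J y y := by
        have h5 : u - y = u + (-1 : F) • y := by rw [neg_smul, one_smul, sub_eq_add_neg]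
        rw [h5]
        simp only [pr_add_left, pr_add_right, pr_smul_left, pr_smul_right]
        module
      refine smul_mem_iff' (two_ne_zero (α := F)) ?_
      rw [h4]
      exact Submodule.sub_mem _ (Submodule.add_mem _ h1 h2) (Submodule.smul_mem _ _ h3)
    · exact hno u hu
  intro X hX
  exact mem_of_pr hJ hdet (fun u v => pr_of_sq (hall u) (hall v) (hall _)) hX

end Pool.Agent.Helper880_LF
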