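import Pool.Agent.Helper880_LF.Alg

/-!
# Derivations of the ultrapower and polynomial relations on sets stable under automorphisms
-/

set_option autoImplicit false
set_option linter.unusedSectionVars false
set_option linter.unusedVariables false

open Matrix Module Filter

namespace Pool.Agent.Helper880_LF

open Pool.Agent.Y118.UL (mk mk_eq mk_eq_zero mk_ne_zero mk_surj ev_ge eval_mk rep qc qc_mk algebraMap_eq U)
open Pool.Agent.TH119.DR Pool.Agent.TH119.MX Pool.Agent.TH127.PT Pool.Agent.Y123.ST Pool.Agent.Y123.GN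

/-- few vectors suffice -/
theorem few {S : Type} [Fintype S] {s : Set (S → ℂ)} {v : S → ℂ} (hv : v ∈ Submodule.span ℂ s) :
    ∃ (r : Fin (Fintype.card S) → S → ℂ) (α : Fin (Fintype.card S) → ℂ), (∀ i, r i ∈ s ∨ r i = 0) ∧
      v = ∑ i, α i • r i := by
  classical
  obtain ⟨b, hbs, hspan, hli⟩ := exists_linearIndependent ℂ s
  have hfin : b.Finite := hli.setFinite
  have : Fintype b := hfin.fintype
  have hcard : Fintype.card b ≤ Fintype.card S := by
    have := hli.fintype_card_le_finrank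
    rwa [finrank_fintype_fun_eq_card] at this
  obtain ⟨ι⟩ : Nonempty (b ↪ Fin (Fintype.card S)) :=
    Function.Embedding.nonempty_of_card_le (by rw [Fintype.card_fin]; exact hcard)
  have hv' : v ∈ Submodule.span ℂ (Set.range (fun x : b => (x : S → ℂ))) := by
    rw [Subtype.range_coe, hspan]
    exact hv
  obtain ⟨c, hc⟩ := Submodule.mem_span_range_iff_exists_fun ℂ |>.1 hv'
  refine ⟨fun i => if h : ∃ x, ι x = i then (h.choose : S → ℂ) else 0,
    fun i => if h : ∃ x, ι x = i then c h.choose else 0, fun i => ?_, ?_⟩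
  · by_cases h : ∃ x, ι x = i
    · left
      simp only [dif_pos h]
      exact hbs h.choose.2
    · right
      simp only [dif_neg h]
  · rw [← hc]
    refine Fintype.sum_of_injective ι ι.injective _ _ ?_ ?_
    · intro i hi
      have h : ¬ ∃ x, ι x = i := fun ⟨x, hx⟩ => hi ⟨x, hx⟩
      simp only [dif_neg h, smul_zero]
    · intro x
      have h : ∃ y, ι y = ι x := ⟨x, rfl⟩
      have h2 : h.choose = x := ι.injective h.choose_spec
      simp only [dif_pos h]
      rw [h2]

section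
variable {K : ℕ → Subfield ℂ} {D : ℕ} (hK : ∀ k, FiniteDimensional ℚ (K k)) (hD : ∀ k, finrank ℚ (K k) ≤ D)
include hK hD

/-- derivations preserve the ultraproducts of rational subspaces -/
theorem ud {S : Type} [Fintype S] {W : ℕ → Submodule ℂ (S → ℂ)} (hW : ∀ k, DefOver (K k) (W k)) {a : ℕ → S → ℂ}
    (ha : ∀ k, a k ∈ W k) (δ : Derivation (U ℚ) (U ℂ) (U ℂ)) :
    ∃ b : ℕ → S → ℂ, (∀ k, b k ∈ W k) ∧ ∀ m, δ (mk ℂ fun k => a k m) = mk ℂ fun k => b k m := by
  choose r α hr hα using fun k => few (hW k (ha k))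
  have hr1 : ∀ k i, r k i ∈ W k := by
    intro k i
    rcases hr k i with h | h
    · exact h.1
    · rw [h]
      exact (W k).zero_mem
  have hr2 : ∀ k i m, r k i m ∈ K k := by
    intro k i m
    rcases hr k i with h | h
    · exact h.2 m
    · rw [h]
      exact (K k).zero_mem
  choose β hβ using fun i => mk_surj (δ (mk ℂ fun k => α k i))
  refine ⟨fun k => ∑ i, β i k • r k i, fun k => Submodule.sum_mem _ fun i _ => Submodule.smul_mem _ _ (hr1 k i), ?_⟩
  intro m
  have h1 : (mk ℂ fun k => a k m) = ∑ i, (mk ℂ fun k => α k i) * (mk ℂ fun k => r k i m) := by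
    rw [← Finset.sum_congr rfl fun i _ => Pool.Agent.Y118.HX.mk_mul' _ _, ← Pool.Agent.Y118.HX.mk_sum]
    congr 1
    funext k
    conv_lhs => rw [hα k]
    rw [Finset.sum_apply]
    rfl
  have h2 : (mk ℂ fun k => (∑ i, β i k • r k i) m) = ∑ i, mk ℂ (β i) * (mk ℂ fun k => r k i m) := by
    rw [← Finset.sum_congr rfl fun i _ => Pool.Agent.Y118.HX.mk_mul' _ _, ← Pool.Agent.Y118.HX.mk_sum]
    congr 1
    funext k
    rw [Finset.sum_apply]
    rfl
  rw [h1, h2, map_sum]
  refine Finset.sum_congr rfl fun i _ => ?_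
  rw [Derivation.leibniz, der_alg δ (alg_mk hK hD fun k => hr2 k i m), smul_zero, zero_add, smul_eq_mul, hβ i, mul_comm]

end

/-- the ring homomorphism attached to a derivation -/
def fd {Ω : Type} {k : Type} [Field k] [Field Ω] [Algebra k Ω] (δ : Derivation k Ω Ω) : Ω →+* TrivSqZeroExt Ω Ω where
  toFun x := TrivSqZeroExt.inl x + TrivSqZeroExt.inr (δ x)
  map_one' := by simp
  map_zero' := by simp
  map_mul' x y := by
    ext
    · simp
    · simp [mul_comm]
  map_add' x y := by
    ext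
    · simp
    · simp

theorem fd_apply {Ω : Type} {k : Type} [Field k] [Field Ω] [Algebra k Ω] (δ : Derivation k Ω Ω) (x : Ω) :
    fd δ x = TrivSqZeroExt.inl x + TrivSqZeroExt.inr (δ x) := rfl

/-- the inclusion of the constants -/
def il (Ω : Type) [Field Ω] : Ω →+* TrivSqZeroExt Ω Ω := TrivSqZeroExt.inlHom Ω Ω

theorem il_apply {Ω : Type} [Field Ω] (x : Ω) : il Ω x = TrivSqZeroExt.inl x := rfl

section
variable {K : ℕ → Subfield ℂ} {D : ℕ} (hK : ∀ k, FiniteDimensional ℚ (K k)) (hD : ∀ k, finrank ℚ (K k) ≤ D)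
include hK hD

/-- **polynomial relations** -/
theorem pud {ι : Type} {P : MvPolynomial ι (ℕ → ℂ)} {𝒳 : ℕ → Set (ι → ℂ)}
    (h𝒳 : ∀ k (σ : ℂ ≃+* ℂ), (∀ x ∈ K k, σ x = x) → ∀ x ∈ 𝒳 k, (fun i => σ (x i)) ∈ 𝒳 k)
    (hP : ∀ k, ∀ x ∈ 𝒳 k, MvPolynomial.eval x (MvPolynomial.map (Pi.evalRingHom (fun _ => ℂ) k) P) = 0)
    {y : ι → ℕ → ℂ} (hy : ∀ k, (fun i => y i k) ∈ 𝒳 k) (δ : Derivation (U ℚ) (U ℂ) (U ℂ)) :
    MvPolynomial.eval₂ ((il (U ℂ)).comp (mk ℂ)) (fun i => fd δ (mk ℂ (y i))) P = 0 := by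
  classical
  -- the values
  have hval : ∀ k (x : ι → ℂ), MvPolynomial.eval x (MvPolynomial.map (Pi.evalRingHom (fun _ => ℂ) k) P) =
      ∑ m : P.support, P.coeff m.1 k * m.1.prod fun i e => x i ^ e := by
    intro k x
    conv_lhs => rw [P.as_sum]
    rw [map_sum, map_sum, ← Finset.sum_coe_sort]
    refine Finset.sum_congr rfl fun m _ => ?_
    rw [MvPolynomial.map_monomial, MvPolynomial.eval_monomial]
    rfl
  let W : ℕ → Submodule ℂ (P.support → ℂ) := fun k =>
    { carrier := {a | ∀ x ∈ 𝒳 k, ∑ m : P.support, a m * m.1.prod (fun i e => x i ^ e) = 0}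
      zero_mem' := by
        intro x _
        simp
      add_mem' := by
        intro a b ha hb x hx
        simp only [Pi.add_apply, add_mul, Finset.sum_add_distrib]
        rw [ha x hx, hb x hx, add_zero]
      smul_mem' := by
        intro z a ha x hx
        simp only [Pi.smul_apply, smul_eq_mul, mul_assoc, ← Finset.mul_sum]
        rw [ha x hx, mul_zero] }
  have hW : ∀ k, DefOver (K k) (W k) := by
    intro k
    refine defOver_of_aut (W k) fun σ hσ a ha x hx => ?_
    have h1 := ha _ (h𝒳 k σ.symm (symm_fix hσ) x hx)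
    have h2 := congrArg σ h1
    rw [map_zero, map_sum] at h2
    rw [← h2]
    refine Finset.sum_congr rfl fun m _ => ?_
    rw [map_mul]
    congr 1
    rw [Finsupp.prod, Finsupp.prod, map_prod]
    refine Finset.prod_congr rfl fun i _ => ?_
    rw [map_pow]
    congr 1
    exact (σ.apply_symm_apply (x i)).symm
  have ha : ∀ k, (fun m : P.support => P.coeff m.1 k) ∈ W k := by
    intro k x hx
    rw [← hP k x hx, hval]
  obtain ⟨b, hb1, hb2⟩ := ud hK hD hW ha δ
  -- the value at `y`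
  have hmon : ∀ (m : P.support), mk ℂ (fun k => m.1.prod fun i e => y i k ^ e) = m.1.prod fun i e => mk ℂ (y i) ^ e := by
    intro m
    unfold Finsupp.prod
    simp only [← map_pow, ← map_prod]
    congr 1
    funext k
    rw [Finset.prod_apply]
    rfl
  have e1 : ∑ m : P.support, mk ℂ (P.coeff m.1) * (m.1.prod fun i e => mk ℂ (y i) ^ e) = 0 := by
    simp only [← hmon]
    rw [Finset.sum_congr rfl fun m _ => (Pool.Agent.Y118.HX.mk_mul' _ _).symm, ← Pool.Agent.Y118.HX.mk_sum]
    have h1 : (fun k => ∑ m : P.support, P.coeff m.1 k * (m.1.prod fun i e => y i k ^ e)) = 0 := by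
      funext k
      exact ha k _ (hy k)
    rw [h1, map_zero]
  have e2 : ∑ m : P.support, (mk ℂ fun k => b k m) * (m.1.prod fun i e => mk ℂ (y i) ^ e) = 0 := by
    simp only [← hmon]
    rw [Finset.sum_congr rfl fun m _ => (Pool.Agent.Y118.HX.mk_mul' _ _).symm, ← Pool.Agent.Y118.HX.mk_sum]
    have h1 : (fun k => ∑ m : P.support, b k m * (m.1.prod fun i e => y i k ^ e)) = 0 := by
      funext k
      exact hb1 k _ (hy k)
    rw [h1, map_zero]
  -- the value in the dual numbers
  have e3 : MvPolynomial.eval₂ ((il (U ℂ)).comp (mk ℂ)) (fun i => fd δ (mk ℂ (y i))) P =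
      ∑ m : P.support, il (U ℂ) (mk ℂ (P.coeff m.1)) * fd δ (m.1.prod fun i e => mk ℂ (y i) ^ e) := by
    conv_lhs => rw [P.as_sum]
    rw [MvPolynomial.eval₂_sum, ← Finset.sum_coe_sort]
    refine Finset.sum_congr rfl fun m _ => ?_
    rw [MvPolynomial.eval₂_monomial, RingHom.comp_apply]
    congr 1
    simp only [Finsupp.prod, map_prod, map_pow]
  have e4 : ∑ m : P.support, fd δ (mk ℂ (P.coeff m.1)) * fd δ (m.1.prod fun i e => mk ℂ (y i) ^ e) = 0 := by
    rw [Finset.sum_congr rfl fun m _ => (map_mul _ _ _).symm, ← map_sum, e1, map_zero]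
  have e5 : ∑ m : P.support, (TrivSqZeroExt.inr (mk ℂ fun k => b k m) : TrivSqZeroExt (U ℂ) (U ℂ)) *
      fd δ (m.1.prod fun i e => mk ℂ (y i) ^ e) = 0 := by
    have h1 : ∀ m : P.support, (TrivSqZeroExt.inr (mk ℂ fun k => b k m) : TrivSqZeroExt (U ℂ) (U ℂ)) *
        fd δ (m.1.prod fun i e => mk ℂ (y i) ^ e) =
        TrivSqZeroExt.inr ((mk ℂ fun k => b k m) * (m.1.prod fun i e => mk ℂ (y i) ^ e)) := by
      intro m
      rw [fd_apply]
      ext
      · simp
      · simp [mul_comm]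
    rw [Finset.sum_congr rfl fun m _ => h1 m, ← TrivSqZeroExt.inr_sum, e2, TrivSqZeroExt.inr_zero]
  rw [e3]
  have e6 : ∀ m : P.support, fd δ (mk ℂ (P.coeff m.1)) = il (U ℂ) (mk ℂ (P.coeff m.1)) +
      TrivSqZeroExt.inr (mk ℂ fun k => b k m) := by
    intro m
    rw [fd_apply, il_apply]
    congr 2
    exact hb2 m
  simp only [e6, add_mul, Finset.sum_add_distrib] at e4
  rw [e5, add_zero] at e4
  exact e4

end

end Pool.Agent.Helper880_LF
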